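import Pool.Agent.Work.MP_7f9bcc_LIN.Interface

set_option autoImplicit false

/-! # THEOREM LIN (MP_7f9bcc_al), block AVO: one element for all indices (helper81) -/

namespace Pool.Agent.Work.LIN

open Pool.Agent.Work.LAG (ball autGrowth ball_mono one_mem_ball mul_mem_ball pow_mem_ball)

namespace X_AVO

theorem letter_mem_ball {G X : Type} [Group G] (s : X → G) (j : X) :
    s j ∈ ball (Set.range s) 1 :=
  ⟨[s j], by simp, by simp, by simp⟩

/-- the union bound -/
theorem exists_avoid {I W : Type} [Fintype I] [Fintype W] [Nonempty W] [DecidableEq W]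
    (bad : I → Finset W) (z : ℕ) (hz : 1 ≤ z) (hI : 2 * Fintype.card I ≤ z)
    (hbad : ∀ i, 2 * z * (bad i).card ≤ 3 * Fintype.card W) : ∃ x : W, ∀ i, x ∉ bad i := by
  by_contra hcon
  push Not at hcon
  have hun : (Finset.univ : Finset W) ⊆ Finset.univ.biUnion bad := by
    intro x _
    obtain ⟨i, hi⟩ := hcon x
    exact Finset.mem_biUnion.mpr ⟨i, Finset.mem_univ i, hi⟩
  have h1 : Fintype.card W ≤ ∑ i, (bad i).card :=
    (Finset.card_le_card hun).trans Finset.card_biUnion_le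
  have h2 : 2 * z * ∑ i, (bad i).card ≤ Fintype.card I * (3 * Fintype.card W) := by
    rw [Finset.mul_sum]
    calc ∑ i, 2 * z * (bad i).card ≤ ∑ _i : I, 3 * Fintype.card W :=
          Finset.sum_le_sum (fun i _ => hbad i)
      _ = Fintype.card I * (3 * Fintype.card W) := by
          rw [Finset.sum_const, Finset.card_univ, smul_eq_mul]
  have h3 : 0 < Fintype.card W := Fintype.card_pos
  have h4 : 2 * z * Fintype.card W ≤ Fintype.card I * (3 * Fintype.card W) :=
    (Nat.mul_le_mul_left _ h1).trans h2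
  have h5 : 2 * (Fintype.card I * (3 * Fintype.card W)) ≤ z * (3 * Fintype.card W) := by
    rw [← mul_assoc]
    exact Nat.mul_le_mul_right _ hI
  have h6 : 0 < z * Fintype.card W := Nat.mul_pos hz h3
  nlinarith

end X_AVO

open X_AVO in
theorem p_AVO (hLV2 : Stmt_LV2) : Stmt_AVO := by
  intro k G _ s hs0 hs I _ H Ω _ _ φ α ω p B e z hφ hB hp hz hI
  classical
  have hIf : Fintype I := Fintype.ofFinite I
  obtain ⟨L, hL⟩ : ∃ L, L = 4 * B ^ 5 * (k + 1) ^ 2 := ⟨_, rfl⟩
  obtain ⟨t, ht⟩ : ∃ t, t = 16 * B ^ 7 := ⟨_, rfl⟩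
  have hcard : Fintype.card (Fin t → (Fin L → Fin (k + 1))) = ((k + 1) ^ L) ^ t := by
    simp only [Fintype.card_fun, Fintype.card_fin]
  have hbad : ∀ i, 2 * z * (Finset.univ.filter (fun x : Fin t → (Fin L → Fin (k + 1)) =>
      α i (φ i (ev (fun y => ev s y ^ e) x)) (ω i) = ω i)).card ≤
      3 * Fintype.card (Fin t → (Fin L → Fin (k + 1))) := by
    intro i
    obtain ⟨hpr, hzp, hcop, v, m, hv, hvω⟩ := hp i
    have h1 := hLV2 k G (H i) (Ω i) s (φ i) (α i) hs0 hs (hφ i) B L t e (p i) m v (ω i) (hB i)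
      hL.ge ht.ge hpr hcop hv hvω
    rw [Nat.card_eq_fintype_card, Fintype.card_subtype, ← hcard] at h1
    refine le_trans ?_ h1
    exact Nat.mul_le_mul_right _ (Nat.mul_le_mul_left _ hzp)
  rw [Nat.card_eq_fintype_card] at hI
  obtain ⟨x, hx⟩ := exists_avoid _ z hz hI hbad
  refine ⟨ev (fun y => ev s y ^ e) x, ?_, ?_, ?_⟩
  · have h1 : ev (fun y => ev s y ^ e) x ∈ ball (Set.range s) (t * (e * (L * 1))) :=
      ev_mem_ball _ _ _ (fun y => pow_mem_ball (ev_mem_ball _ 1 s (letter_mem_ball s) y) e) x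
    have h2 : t * (e * (L * 1)) = 64 * (k + 1) ^ 2 * B ^ 12 * e := by
      rw [hL, ht]
      ring
    rwa [h2] at h1
  · exact ev_mem _ x (pw G e) (fun y => Subgroup.subset_closure ⟨ev s y, rfl⟩)
  · intro i hi
    exact hx i (Finset.mem_filter.mpr ⟨Finset.mem_univ _, hi⟩)

end Pool.Agent.Work.LIN
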