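import Pool.Agent.Work.MP_7f9bcc_LIN.Interface

set_option autoImplicit false

/-! Block CNU of the table `lgr_blocks` (counting orbits; helper25). -/

namespace Pool.Agent.Work.LIN

open Pool.Agent.Work.LAG (ball autGrowth ball_mono one_mem_ball mul_mem_ball pow_mem_ball)

namespace X_CNU

/-- the common kernel of all homomorphisms to `H` -/
def KK (G H : Type) [Group G] [Group H] : Subgroup G := ⨅ φ : G →* H, φ.ker

theorem mem_KK {G H : Type} [Group G] [Group H] {g : G} :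
    g ∈ KK G H ↔ ∀ φ : G →* H, φ g = 1 := by
  unfold KK
  rw [Subgroup.mem_iInf]
  rfl

theorem KK_normal (G H : Type) [Group G] [Group H] : (KK G H).Normal := by
  refine ⟨fun n hn g => ?_⟩
  rw [mem_KK] at *
  intro φ
  rw [map_mul, map_mul, hn φ, mul_one, map_inv, mul_inv_cancel]

theorem pow_mem_KK (G H : Type) [Group G] [Group H] [Finite H] (g : G) :
    g ^ Nat.card H ∈ KK G H := by
  rw [mem_KK]
  intro φ
  rw [map_pow, pow_card_eq_one']

theorem smul_mem_KK {G H : Type} [Group G] [Group H] {g : G} (α : MulAut G)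
    (hg : g ∈ KK G H) : α • g ∈ KK G H := by
  rw [mem_KK] at *
  intro φ
  exact hg (φ.comp α.toMonoidHom)

theorem smul_mem_KK_iff {G H : Type} [Group G] [Group H] {g : G} (α : MulAut G) :
    α • g ∈ KK G H ↔ g ∈ KK G H := by
  constructor
  · intro h
    have := smul_mem_KK α⁻¹ h
    rwa [inv_smul_smul] at this
  · exact smul_mem_KK α

/-- few primes of `P` divide a number which is at most `z ^ (2 D)` -/
theorem few (D z e : ℕ) (P : Finset ℕ) (he : 1 ≤ e) (heB : e ≤ z ^ (2 * D))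
    (hP : ∀ q ∈ P, q.Prime ∧ z < q) : (P.filter (fun p => p ∣ e)).card ≤ 2 * D := by
  by_contra hcon
  push Not at hcon
  have h1 : ∏ p ∈ P.filter (fun p => p ∣ e), p ∣ e :=
    Finset.prod_primes_dvd e (fun p hp => (hP p (Finset.mem_filter.mp hp).1).1.prime)
      (fun p hp => (Finset.mem_filter.mp hp).2)
  have h2 : ∏ p ∈ P.filter (fun p => p ∣ e), p ≤ e := Nat.le_of_dvd he h1
  have h3 : (z + 1) ^ (P.filter (fun p => p ∣ e)).card ≤ ∏ p ∈ P.filter (fun p => p ∣ e), p := by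
    refine Finset.pow_card_le_prod _ _ _ fun p hp => ?_
    exact (hP p (Finset.mem_filter.mp hp).1).2
  have h4 : (z + 1) ^ (2 * D + 1) ≤ (z + 1) ^ (P.filter (fun p => p ∣ e)).card :=
    Nat.pow_le_pow_right (Nat.succ_pos z) hcon
  have h5 : z ^ (2 * D) < (z + 1) ^ (2 * D + 1) := by
    have h6 : z ^ (2 * D) ≤ (z + 1) ^ (2 * D) := Nat.pow_le_pow_left (Nat.le_succ z) _
    have h7 : 0 < (z + 1) ^ (2 * D) := Nat.pow_pos (Nat.succ_pos z)
    rcases Nat.eq_zero_or_pos z with h0 | h0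
    · subst h0
      rcases Nat.eq_zero_or_pos D with h8 | h8
      · subst h8
        simp at heB hcon ⊢
        have he1 : e = 1 := by omega
        subst he1
        obtain ⟨p, hp⟩ := hcon
        have hp' := Finset.mem_filter.mp hp
        have := (hP p hp'.1).1.one_lt
        have := Nat.le_of_dvd one_pos hp'.2
        omega
      · rw [zero_pow (by omega)]
        positivity
    · rw [pow_succ]
      nlinarith
  omega

/-- the element for a set `Q` of `r` primes -/
theorem elt (hSEQ : Stmt_SEQ) (k : ℕ) (G : Type) [Group G] (s : Fin (k + 1) → G) (hs0 : s 0 = 1)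
    (hs : Subgroup.closure (Set.range s) = ⊤) (D z r : ℕ) (P : Finset ℕ) (hz : 1 ≤ z)
    (hr : 1 ≤ r) (hPz : 2 * P.card ≤ z) (hP : ∀ q ∈ P, q.Prime ∧ z < q ∧ q ≤ z ^ 2)
    (H : P → Type) [∀ q, Group (H q)] [∀ q, Finite (H q)] (f : ∀ q, G →* H q)
    (hf : ∀ q, Function.Surjective (f q)) (hc : ∀ q, Nat.card (H q) ≤ (q : ℕ) ^ D)
    (hp : ∀ q : P, ¬ IsPGroup (q : ℕ) (Subgroup.closure (pel q (H q))))
    (Q : Finset P) (hQ : Q.card = r) :
    ∃ w : G, w ∈ ball (Set.range s) (4 ^ r * (64 * (k + 1) ^ 2 * (z ^ (2 * D)) ^ 13)) ∧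
      (∀ q ∈ Q, w ∈ KK G (H q)) ∧
      ∃ T : Finset P, T.card ≤ 2 * (D * r) ∧ ∀ q, w ∈ KK G (H q) → q ∈ T := by
  classical
  have hcB : ∀ q : P, Nat.card (H q) ≤ z ^ (2 * D) := fun q => by
    refine (hc q).trans ?_
    rw [pow_mul]
    exact Nat.pow_le_pow_left (hP q q.2).2.2 D
  have hc1 : ∀ q : P, 1 ≤ Nat.card (H q) := fun q => Nat.card_pos
  let I : Type := {p : P // ∀ q ∈ Q, ¬ (p : ℕ) ∣ Nat.card (H q)}
  have hIf : Finite I := inferInstanceAs (Finite {p : P // ∀ q ∈ Q, ¬ (p : ℕ) ∣ Nat.card (H q)})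
  have hI : 2 * Nat.card I ≤ z := by
    refine le_trans (Nat.mul_le_mul_left 2 ?_) hPz
    have h1 : Nat.card I ≤ Nat.card P := Nat.card_le_card_of_injective _ Subtype.val_injective
    rwa [Nat.card_eq_fintype_card (α := P), Fintype.card_coe] at h1
  have hlen : (Q.toList.map (fun q => Nat.card (H q))).length = r := by
    rw [List.length_map, Finset.length_toList, hQ]
  obtain ⟨w, hw1, hw2, hw3⟩ := hSEQ k G s hs0 hs I (fun i => H i.1) (fun i => f i.1)
    (fun i => ((i.1 : P) : ℕ)) (z ^ (2 * D)) z (fun i => hf i.1) (fun i => hcB i.1)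
    (fun i => ⟨(hP i.1 i.1.2).1, (hP i.1 i.1.2).2.1.le, hp i.1⟩) hz hI
    (Q.toList.map (fun q => Nat.card (H q)))
    (by
      intro h0
      rw [h0] at hlen
      simp at hlen
      omega)
    (by
      intro e he
      rw [List.mem_map] at he
      obtain ⟨q, hq, rfl⟩ := he
      refine ⟨hcB q, fun i => ?_⟩
      exact ((hP i.1 i.1.2).1.coprime_iff_not_dvd).mpr (i.2 q (Finset.mem_toList.mp hq)))
  rw [hlen] at hw1
  refine ⟨w, hw1, ?_, ?_⟩
  · intro q hq
    exact hw2 (Nat.card (H q)) (List.mem_map.mpr ⟨q, Finset.mem_toList.mpr hq, rfl⟩) _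
      (KK_normal G (H q)) (pow_mem_KK G (H q))
  · refine ⟨Q.biUnion (fun q => Finset.univ.filter (fun p : P => (p : ℕ) ∣ Nat.card (H q))),
      ?_, ?_⟩
    · refine Finset.card_biUnion_le.trans ?_
      have h1 : ∀ q ∈ Q, (Finset.univ.filter (fun p : P => (p : ℕ) ∣ Nat.card (H q))).card
          ≤ 2 * D := by
        intro q _
        refine le_trans ?_ (few D z (Nat.card (H q)) P (hc1 q) (hcB q)
          (fun q hq => ⟨(hP q hq).1, (hP q hq).2.1⟩))
        refine Finset.card_le_card_of_injOn (fun p => (p : ℕ)) ?_ Subtype.val_injective.injOn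
        intro p hp'
        have := (Finset.mem_filter.mp hp').2
        exact Finset.mem_coe.mpr (Finset.mem_filter.mpr ⟨p.2, this⟩)
      refine (Finset.sum_le_sum h1).trans ?_
      rw [Finset.sum_const, hQ, smul_eq_mul]
      apply le_of_eq
      ring
    · intro q hq
      by_contra hcon
      have h1 : ∀ q' ∈ Q, ¬ (q : ℕ) ∣ Nat.card (H q') := by
        intro q' hq' hd
        apply hcon
        rw [Finset.mem_biUnion]
        exact ⟨q', hq', Finset.mem_filter.mpr ⟨Finset.mem_univ _, hd⟩⟩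
      exact hw3 ⟨q, h1⟩ (mem_KK.mp hq (f q))

theorem core (hSEQ : Stmt_SEQ) (k : ℕ) (G : Type) [Group G] (s : Fin (k + 1) → G) (hs0 : s 0 = 1)
    (hs : Subgroup.closure (Set.range s) = ⊤) (D z r : ℕ) (P : Finset ℕ) (hz : 1 ≤ z)
    (hr : 1 ≤ r) (hPz : 2 * P.card ≤ z) (hP : ∀ q ∈ P, q.Prime ∧ z < q ∧ q ≤ z ^ 2)
    (H : P → Type) [∀ q, Group (H q)] [∀ q, Finite (H q)] (f : ∀ q, G →* H q)
    (hf : ∀ q, Function.Surjective (f q)) (hc : ∀ q, Nat.card (H q) ≤ (q : ℕ) ^ D)
    (hp : ∀ q : P, ¬ IsPGroup (q : ℕ) (Subgroup.closure (pel q (H q)))) :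
    Nat.choose P.card r ≤
      4 ^ (D * r) * autGrowth (Set.range s) (4 ^ r * (64 * (k + 1) ^ 2 * (z ^ (2 * D)) ^ 13)) := by
  classical
  have hel : ∀ Q : Finset P, ∃ w : G, Q.card = r →
      (w ∈ ball (Set.range s) (4 ^ r * (64 * (k + 1) ^ 2 * (z ^ (2 * D)) ^ 13)) ∧
      (∀ q ∈ Q, w ∈ KK G (H q)) ∧
      ∃ T : Finset P, T.card ≤ 2 * (D * r) ∧ ∀ q, w ∈ KK G (H q) → q ∈ T) := by
    intro Q
    by_cases hQ : Q.card = r
    · obtain ⟨w, hw⟩ := elt hSEQ k G s hs0 hs D z r P hz hr hPz hP H f hf hc hp Q hQ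
      exact ⟨w, fun _ => hw⟩
    · exact ⟨1, fun h => absurd h hQ⟩
  choose w hw using hel
  set R := 4 ^ r * (64 * (k + 1) ^ 2 * (z ^ (2 * D)) ^ 13) with hR
  let o : Finset P → Quotient (MulAction.orbitRel (MulAut G) G) := fun Q =>
    Quotient.mk (MulAction.orbitRel (MulAut G) G) (w Q)
  have h1 := Finset.card_le_mul_card_image (f := o)
    (Finset.powersetCard r (Finset.univ : Finset P)) (4 ^ (D * r)) (by
      intro c hc'
      obtain ⟨Q0, hQ0, rfl⟩ := Finset.mem_image.mp hc'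
      have hQ0c : Q0.card = r := (Finset.mem_powersetCard.mp hQ0).2
      obtain ⟨-, -, T, hT1, hT2⟩ := hw Q0 hQ0c
      have h2 : (Finset.powersetCard r (Finset.univ : Finset P)).filter (fun Q => o Q = o Q0) ⊆
          T.powerset := by
        intro Q hQ
        obtain ⟨hQ1, hQ2⟩ := Finset.mem_filter.mp hQ
        have hQc : Q.card = r := (Finset.mem_powersetCard.mp hQ1).2
        rw [Finset.mem_powerset]
        intro q hq
        apply hT2
        have h3 : w Q ∈ KK G (H q) := (hw Q hQc).2.1 q hq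
        have h4 : (MulAction.orbitRel (MulAut G) G) (w Q) (w Q0) := Quotient.exact hQ2
        rw [MulAction.orbitRel_apply] at h4
        obtain ⟨α, hα⟩ := h4
        have h5 : α • w Q0 = w Q := hα
        rw [← h5] at h3
        exact (smul_mem_KK_iff α).mp h3
      refine (Finset.card_le_card h2).trans ?_
      rw [Finset.card_powerset]
      calc 2 ^ T.card ≤ 2 ^ (2 * (D * r)) := Nat.pow_le_pow_right (by norm_num) hT1
        _ = 4 ^ (D * r) := by rw [pow_mul]; norm_num)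
  rw [Finset.card_powersetCard, Finset.card_univ, Fintype.card_coe] at h1
  refine h1.trans (Nat.mul_le_mul_left _ ?_)
  unfold autGrowth
  rw [← Set.ncard_coe_finset]
  refine Set.ncard_le_ncard ?_
    ((Pool.Agent.Work.LAG.ball_finite (Set.finite_range s) R).image _)
  intro c hc'
  obtain ⟨Q, hQ, rfl⟩ := Finset.mem_image.mp (Finset.mem_coe.mp hc')
  exact ⟨w Q, (hw Q (Finset.mem_powersetCard.mp hQ).2).1, rfl⟩

end X_CNU

theorem p_CNU (hSEQ : Stmt_SEQ) : Stmt_CNU := by
  intro k G _ s hs0 hs D z r P hz hr hPz hP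
  have h1 : ∀ q : P, Rq G D q := fun q => (hP q q.2).2.2.2
  unfold Rq at h1
  choose H iG iF f hf hc hp using h1
  exact X_CNU.core hSEQ k G s hs0 hs D z r P hz hr hPz
    (fun q hq => ⟨(hP q hq).1, (hP q hq).2.1, (hP q hq).2.2.1⟩) H f hf hc hp

end Pool.Agent.Work.LIN
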