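import Pool.Agent.Work.MP_7f9bcc_LIN.Interface

set_option autoImplicit false

namespace Pool.Agent.Work.LIN

open Finset

namespace X_CON

lemma pairs {X : Type} [Fintype X] (c : X → ℝ) :
    ∑ x, ∑ y, (c x - c y) ^ 2 =
      2 * (Fintype.card X : ℝ) * ∑ x, c x ^ 2 - 2 * (∑ x, c x) ^ 2 := by
  have h : ∀ x, ∑ y, (c x - c y) ^ 2 =
      (Fintype.card X : ℝ) * c x ^ 2 - 2 * c x * ∑ y, c y + ∑ y, c y ^ 2 := by
    intro x
    have h1 : ∀ y, (c x - c y) ^ 2 = c x ^ 2 - 2 * c x * c y + c y ^ 2 := fun y => by ring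
    simp only [h1, sum_add_distrib, sum_sub_distrib, sum_const, card_univ, nsmul_eq_mul,
      ← mul_sum]
  simp only [h, sum_add_distrib, sum_sub_distrib, sum_const, card_univ, nsmul_eq_mul, ← mul_sum,
    ← sum_mul]
  ring

lemma energy {X Ω : Type} [Fintype X] [Nonempty X] [Fintype Ω] (π : X → Equiv.Perm Ω)
    (f : Ω → ℝ) :
    ∑ x, ∑ y, ∑ ω, (f (π x ω) - f (π y ω)) ^ 2 =
      2 * (Fintype.card X : ℝ) ^ 2 *
        (∑ ω, f ω ^ 2 - ∑ ω, ((∑ x, f (π x ω)) / Fintype.card X) ^ 2) := by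
  have hn : (Fintype.card X : ℝ) ≠ 0 := by exact_mod_cast Fintype.card_ne_zero
  have h1 : ∑ x, ∑ y, ∑ ω, (f (π x ω) - f (π y ω)) ^ 2 =
      ∑ ω, ∑ x, ∑ y, (f (π x ω) - f (π y ω)) ^ 2 := by
    calc _ = ∑ x, ∑ ω, ∑ y, (f (π x ω) - f (π y ω)) ^ 2 := sum_congr rfl fun x _ => sum_comm
      _ = _ := sum_comm
  rw [h1]
  have h2 : ∀ ω, ∑ x, ∑ y, (f (π x ω) - f (π y ω)) ^ 2 =
      2 * (Fintype.card X : ℝ) * ∑ x, f (π x ω) ^ 2 -
        2 * (Fintype.card X : ℝ) ^ 2 * ((∑ x, f (π x ω)) / Fintype.card X) ^ 2 := by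
    intro ω
    rw [pairs (fun x => f (π x ω)), div_pow]
    field_simp
  simp only [h2, sum_sub_distrib, ← mul_sum]
  have h3 : ∑ ω, ∑ x, f (π x ω) ^ 2 = (Fintype.card X : ℝ) * ∑ ω, f ω ^ 2 := by
    rw [sum_comm]
    have h4 : ∀ x, ∑ ω, f (π x ω) ^ 2 = ∑ ω, f ω ^ 2 := fun x =>
      Equiv.sum_comp (π x) (fun ω => f ω ^ 2)
    simp only [h4, sum_const, card_univ, nsmul_eq_mul]
  rw [h3]
  ring

lemma defect_nonneg {X Ω : Type} [Fintype X] [Nonempty X] [Fintype Ω] (π : X → Equiv.Perm Ω)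
    (f : Ω → ℝ) : 0 ≤ ∑ ω, f ω ^ 2 - ∑ ω, ((∑ x, f (π x ω)) / Fintype.card X) ^ 2 := by
  have hn : (0 : ℝ) < Fintype.card X := by exact_mod_cast Fintype.card_pos
  have h0 : 0 ≤ 2 * (Fintype.card X : ℝ) ^ 2 *
        (∑ ω, f ω ^ 2 - ∑ ω, ((∑ x, f (π x ω)) / Fintype.card X) ^ 2) := by
    rw [← energy π f]
    positivity
  exact nonneg_of_mul_nonneg_right h0 (by positivity)

lemma edge {X Ω : Type} [Fintype X] [Nonempty X] [Fintype Ω] (π : X → Equiv.Perm Ω) (E : ℕ)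
    (a : Equiv.Perm Ω) (h1 : Nat.card X ≤ E * Nat.card {x : X // π x = 1})
    (ha : Nat.card X ≤ E * Nat.card {x : X // π x = a}) (f : Ω → ℝ) :
    ∑ ω, (f ω - f (a ω)) ^ 2 ≤
      (E : ℝ) ^ 2 * (∑ ω, f ω ^ 2 - ∑ ω, ((∑ x, f (π x ω)) / Fintype.card X) ^ 2) := by
  classical
  have hD := defect_nonneg π f
  have hE := energy π f
  have hn : (0 : ℝ) < Fintype.card X := by exact_mod_cast Fintype.card_pos
  set D := ∑ ω, f ω ^ 2 - ∑ ω, ((∑ x, f (π x ω)) / Fintype.card X) ^ 2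
  by_cases h : a = 1
  · subst h
    simp only [Equiv.Perm.coe_one, id_eq, sub_self, ne_eq, OfNat.ofNat_ne_zero, not_false_eq_true,
      zero_pow, sum_const_zero]
    positivity
  · obtain ⟨q, hq⟩ : ∃ q, q = ∑ ω, (f ω - f (a ω)) ^ 2 := ⟨_, rfl⟩
    have hq0 : 0 ≤ q := by rw [hq]; positivity
    have hq' : q = ∑ ω, (f (a ω) - f ω) ^ 2 := by
      rw [hq]
      exact sum_congr rfl fun ω _ => by ring
    rw [← hq]
    let u : X → ℝ := fun x => if π x = 1 then 1 else 0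
    let v : X → ℝ := fun x => if π x = a then 1 else 0
    have hpt : ∀ x y, (u x * v y + v x * u y) * q ≤ ∑ ω, (f (π x ω) - f (π y ω)) ^ 2 := by
      intro x y
      have hnn : (0 : ℝ) ≤ ∑ ω, (f (π x ω) - f (π y ω)) ^ 2 := by positivity
      simp only [u, v]
      by_cases hx : π x = 1
      · have hxa : π x ≠ a := fun e => h (by rw [← e, hx])
        by_cases hy : π y = a
        · rw [if_pos hx, if_neg hxa, if_pos hy, hq, hx, hy]
          simp
        · rw [if_pos hx, if_neg hxa, if_neg hy]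
          simpa using hnn
      · by_cases hxa : π x = a
        · by_cases hy : π y = 1
          · have hya : π y ≠ a := fun e => h (by rw [← e, hy])
            rw [if_neg hx, if_pos hxa, if_pos hy, if_neg hya, hq', hxa, hy]
            simp
          · rw [if_neg hx, if_neg hy]
            simpa using hnn
        · rw [if_neg hx, if_neg hxa]
          simpa using hnn
    have hsum : ∑ x, ∑ y, (u x * v y + v x * u y) * q = 2 * (∑ x, u x) * (∑ x, v x) * q := by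
      have e1 : ∀ x, ∑ y, (u x * v y + v x * u y) * q =
          (u x * ∑ y, v y + v x * ∑ y, u y) * q := by
        intro x
        rw [← sum_mul, sum_add_distrib, ← mul_sum, ← mul_sum]
      simp only [e1]
      rw [← sum_mul, sum_add_distrib, ← sum_mul, ← sum_mul]
      ring
    have hle : 2 * (∑ x, u x) * (∑ x, v x) * q ≤ 2 * (Fintype.card X : ℝ) ^ 2 * D := by
      rw [← hsum, ← hE]
      exact sum_le_sum fun x _ => sum_le_sum fun y _ => hpt x y
    have hu : (Fintype.card X : ℝ) ≤ E * ∑ x, u x := by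
      have e : ∑ x, u x = (Nat.card {x : X // π x = 1} : ℝ) := by
        rw [Nat.card_eq_fintype_card, Fintype.card_subtype, Finset.sum_boole]
      rw [e]
      rw [Nat.card_eq_fintype_card] at h1
      exact_mod_cast h1
    have hv : (Fintype.card X : ℝ) ≤ E * ∑ x, v x := by
      have e : ∑ x, v x = (Nat.card {x : X // π x = a} : ℝ) := by
        rw [Nat.card_eq_fintype_card, Fintype.card_subtype, Finset.sum_boole]
      rw [e]
      rw [Nat.card_eq_fintype_card] at ha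
      exact_mod_cast ha
    have hmul : (Fintype.card X : ℝ) * Fintype.card X ≤ (E * ∑ x, u x) * (E * ∑ x, v x) :=
      mul_le_mul hu hv hn.le (hn.le.trans hu)
    have hfin : (Fintype.card X : ℝ) ^ 2 * q ≤ (Fintype.card X : ℝ) ^ 2 * ((E : ℝ) ^ 2 * D) := by
      have g1 := mul_le_mul_of_nonneg_right hmul hq0
      have g2 := mul_le_mul_of_nonneg_left hle (sq_nonneg (E : ℝ))
      nlinarith [g1, g2]
    exact le_of_mul_le_mul_left hfin (by positivity)

lemma walk {Ω : Type} (A : Set (Equiv.Perm Ω)) (f : Ω → ℝ) (δ : ℝ)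
    (h : ∀ a ∈ A, ∀ ω, |f ω - f (a ω)| ≤ δ) {u v : Ω}
    (p : (SimpleGraph.fromRel fun v w : Ω => ∃ a ∈ A, a v = w).Walk u v) :
    |f u - f v| ≤ p.length * δ := by
  induction p with
  | nil => simp
  | @cons u v w hadj p ih =>
    have h1 : |f u - f v| ≤ δ := by
      rw [SimpleGraph.fromRel_adj] at hadj
      rcases hadj.2 with ⟨a, ha, e⟩ | ⟨a, ha, e⟩
      · rw [← e]
        exact h a ha u
      · rw [← e, abs_sub_comm]
        exact h a ha v
    have h2 : |f u - f w| ≤ |f u - f v| + |f v - f w| := abs_sub_le _ _ _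
    rw [SimpleGraph.Walk.length_cons]
    push_cast
    linarith

lemma reach {Ω : Type} (A : Set (Equiv.Perm Ω)) (g : Equiv.Perm Ω)
    (hg : g ∈ Subgroup.closure A) (ω : Ω) :
    (SimpleGraph.fromRel fun v w : Ω => ∃ a ∈ A, a v = w).Reachable ω (g ω) := by
  induction hg using Subgroup.closure_induction generalizing ω with
  | mem a ha =>
    by_cases hh : ω = a ω
    · exact hh ▸ SimpleGraph.Reachable.refl ω
    · refine SimpleGraph.Adj.reachable ?_
      rw [SimpleGraph.fromRel_adj]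
      exact ⟨hh, Or.inl ⟨a, ha, rfl⟩⟩
  | one => exact SimpleGraph.Reachable.refl _
  | mul x y _ _ hx hy => exact (hy ω).trans (hx (y ω))
  | inv x _ hx =>
    have h := hx (x⁻¹ ω)
    have e : x (x⁻¹ ω) = ω := Equiv.apply_symm_apply x ω
    rw [e] at h
    exact h.symm

end X_CON

open X_CON in
theorem p_CON : Stmt_CON := by
  intro X Ω _ _ _ π A E hA hcl f hf
  classical
  have hD := defect_nonneg π f
  obtain ⟨D, hDe⟩ : ∃ D, D = ∑ ω, f ω ^ 2 - ∑ ω, ((∑ x, f (π x ω)) / Fintype.card X) ^ 2 :=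
    ⟨_, rfl⟩
  rw [← hDe] at hD
  obtain ⟨δ, hδ0, hδ⟩ : ∃ δ : ℝ, 0 ≤ δ ∧ δ ^ 2 = (E : ℝ) ^ 2 * D :=
    ⟨Real.sqrt ((E : ℝ) ^ 2 * D), Real.sqrt_nonneg _, Real.sq_sqrt (by positivity)⟩
  have hstep : ∀ a ∈ A, ∀ ω, |f ω - f (a ω)| ≤ δ := by
    intro a ha ω
    have h1 := edge π E a (hA 1 (Set.mem_insert _ _)) (hA a (Set.mem_insert_of_mem _ ha)) f
    rw [← hDe, ← hδ] at h1
    have h2 : (f ω - f (a ω)) ^ 2 ≤ ∑ ω, (f ω - f (a ω)) ^ 2 :=
      single_le_sum (f := fun ω => (f ω - f (a ω)) ^ 2) (fun i _ => sq_nonneg _) (mem_univ ω)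
    exact abs_le_of_sq_le_sq (h2.trans h1) hδ0
  have hall : ∀ ω ω' : Ω, |f ω - f ω'| ≤ (Fintype.card Ω : ℝ) * δ := by
    intro ω ω'
    obtain ⟨g, hg, rfl⟩ := hcl ω ω'
    obtain ⟨p⟩ := reach A g hg ω
    have h1 := walk A f δ hstep
      (p.toPath : (SimpleGraph.fromRel fun v w : Ω => ∃ a ∈ A, a v = w).Walk ω (g ω))
    have h2 : ((p.toPath :
        (SimpleGraph.fromRel fun v w : Ω => ∃ a ∈ A, a v = w).Walk ω (g ω)).length : ℝ)
        ≤ Fintype.card Ω := by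
      exact_mod_cast (p.toPath.2.length_lt).le
    exact h1.trans (mul_le_mul_of_nonneg_right h2 hδ0)
  have hpt : ∀ ω, f ω ^ 2 ≤ ((Fintype.card Ω : ℝ) * δ) ^ 2 := by
    intro ω
    have : Nonempty Ω := ⟨ω⟩
    have hN : (0 : ℝ) < Fintype.card Ω := by exact_mod_cast Fintype.card_pos
    have h1 : (Fintype.card Ω : ℝ) * f ω = ∑ ω', (f ω - f ω') := by
      rw [sum_sub_distrib, hf, sum_const, card_univ, nsmul_eq_mul, sub_zero]
    have h2 : |(Fintype.card Ω : ℝ) * f ω| ≤ (Fintype.card Ω : ℝ) * ((Fintype.card Ω : ℝ) * δ) := by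
      rw [h1]
      refine (abs_sum_le_sum_abs _ _).trans ?_
      refine (sum_le_sum fun ω' _ => hall ω ω').trans ?_
      rw [sum_const, card_univ, nsmul_eq_mul]
    rw [abs_mul, abs_of_pos hN] at h2
    have h3 : |f ω| ≤ (Fintype.card Ω : ℝ) * δ := le_of_mul_le_mul_left h2 hN
    rw [← sq_abs]
    exact pow_le_pow_left₀ (abs_nonneg _) h3 2
  have hS : ∑ ω, f ω ^ 2 ≤ (Fintype.card Ω : ℝ) * ((Fintype.card Ω : ℝ) * δ) ^ 2 := by
    refine (sum_le_sum fun ω _ => hpt ω).trans ?_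
    rw [sum_const, card_univ, nsmul_eq_mul]
  have hS' : ∑ ω, f ω ^ 2 ≤ (E : ℝ) ^ 2 * (Fintype.card Ω : ℝ) ^ 3 * D := by
    calc _ ≤ (Fintype.card Ω : ℝ) * ((Fintype.card Ω : ℝ) * δ) ^ 2 := hS
      _ = (Fintype.card Ω : ℝ) ^ 3 * δ ^ 2 := by ring
      _ = _ := by rw [hδ]; ring
  have hT : ∑ ω, ((∑ x, f (π x ω)) / (Fintype.card X : ℝ)) ^ 2 = ∑ ω, f ω ^ 2 - D := by
    rw [hDe]
    ring
  rw [hT]
  nlinarith [hS']

end Pool.Agent.Work.LIN
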