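import Pool.Agent.Work.MP_7f9bcc_LIN.Interface
import Pool.Agent.Work.MP_7f9bcc_LAG.CORE

set_option autoImplicit false

/-! Block FIX: the subgroups of bounded index of a finitely generated group contain one subgroup of
finite index. -/

namespace Pool.Agent.Work.LIN


/-- **FIX** -/
theorem p_FIX : Stmt_FIX := by
  intro G _ _ J
  refine ⟨⨅ m : Fin (J + 1), Pool.Agent.Work.LAG.CORE.core G (Equiv.Perm (Fin m)), ?_, ?_⟩
  · exact Subgroup.finiteIndex_iInf fun m =>
      Pool.Agent.Work.LAG.CORE.core_finiteIndex G (Equiv.Perm (Fin m))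
  · intro A h0 hJ
    have hA : A.FiniteIndex := ⟨h0⟩
    refine le_trans ?_ (Pool.Agent.Work.LAG.CORE.core_le A)
    have hlt : Nat.card (G ⧸ A) < J + 1 := Nat.lt_succ_of_le hJ
    exact iInf_le (fun m : Fin (J + 1) =>
      Pool.Agent.Work.LAG.CORE.core G (Equiv.Perm (Fin m))) ⟨Nat.card (G ⧸ A), hlt⟩

end Pool.Agent.Work.LIN
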