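import Pool.Agent.Work.MP_7f9bcc_LIN.Interface

/-!
# Block GRW: growth of rich groups
-/

namespace Pool.Agent.Work.LIN

open Pool.Agent.Work.LAG (ball autGrowth ball_mono one_mem_ball mul_mem_ball pow_mem_ball
  ball_finite)

namespace X_GRW

theorem list_mem {G : Type} [Group G] (S : Set G) (l : List G)
    (h : ∀ x ∈ l, x ∈ insert 1 S ∨ x⁻¹ ∈ insert 1 S) : l.prod ∈ ball S l.length := by
  induction l with
  | nil => exact one_mem_ball _
  | cons x l ih =>
    have h1 : x ∈ ball S 1 := by
      have hx := h x List.mem_cons_self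
      by_cases hx1 : x = 1
      · rw [hx1]
        exact one_mem_ball _
      · refine ⟨[x], le_rfl, ?_, by simp⟩
        intro y hy
        rw [List.mem_singleton] at hy
        subst hy
        rcases hx with hx | hx
        · exact Or.inl (hx.resolve_left hx1)
        · exact Or.inr (hx.resolve_left fun h => hx1 (inv_eq_one.1 h))
    rw [List.prod_cons, List.length_cons, add_comm]
    exact mul_mem_ball h1 (ih fun y hy => h y (List.mem_cons_of_mem _ hy))

end X_GRW

theorem p_GRW (hCNU : Stmt_CNU) (hPRM : Stmt_PRM) (hNUM : Stmt_NUM) : Stmt_GRW := by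
  intro G _ S hSf hS hRich
  obtain ⟨D, q₀, hR⟩ := hRich
  obtain ⟨z₀, hz₀⟩ := hPRM
  obtain ⟨k, s, hs0, hsr⟩ : ∃ (k : ℕ) (s : Fin (k + 1) → G), s 0 = 1 ∧
      Set.range s = insert 1 S := by
    let e := hSf.toFinset.equivFin.symm
    refine ⟨hSf.toFinset.card, Fin.cons 1 (fun i => (e i : G)), rfl, ?_⟩
    rw [Fin.range_cons]
    congr 1
    ext x
    constructor
    · rintro ⟨i, rfl⟩
      exact hSf.mem_toFinset.1 (e i).2
    · intro hx
      exact ⟨e.symm ⟨x, hSf.mem_toFinset.2 hx⟩, by simp⟩
  have hcl : Subgroup.closure (Set.range s) = ⊤ := by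
    rw [eq_top_iff, ← hS, hsr]
    exact Subgroup.closure_mono (Set.subset_insert _ _)
  have hball : ∀ n, ball (Set.range s) n ⊆ ball S n := by
    rintro n g ⟨l, hl, h1, rfl⟩
    rw [hsr] at h1
    exact ball_mono hl (X_GRW.list_mem S l h1)
  have hle : ∀ n, autGrowth (Set.range s) n ≤ autGrowth S n := by
    intro n
    unfold autGrowth
    exact Set.ncard_le_ncard (Set.image_mono (hball n)) ((ball_finite hSf n).image _)
  have hmono : Monotone (autGrowth S) := by
    intro m n h
    unfold autGrowth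
    exact Set.ncard_le_ncard (Set.image_mono (ball_mono h)) ((ball_finite hSf n).image _)
  refine hNUM (autGrowth S) (64 * (k + 1) ^ 2) D (max z₀ (max q₀ 1)) hmono ?_
  intro z r hz hr
  have h1 : z₀ ≤ z := (le_max_left _ _).trans hz
  have h2 : q₀ ≤ z := ((le_max_left _ _).trans (le_max_right _ _)).trans hz
  have h3 : 1 ≤ z := ((le_max_right _ _).trans (le_max_right _ _)).trans hz
  obtain ⟨P, hP, hPc⟩ := Finset.exists_subset_card_eq (s := (Finset.range (z ^ 2 + 1)).filter
    (fun q => q.Prime ∧ z < q)) (n := z / 2) ((Nat.div_le_self z 2).trans (hz₀ z h1))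
  have h4 := hCNU k G s hs0 hcl D z r P h3 hr (by rw [hPc]; omega) (by
    intro q hq
    have h5 := Finset.mem_filter.1 (hP hq)
    have h6 := Finset.mem_range.1 h5.1
    exact ⟨h5.2.1, h5.2.2, by omega, hR q (by omega) h5.2.1⟩)
  rw [hPc] at h4
  exact h4.trans (Nat.mul_le_mul_left _ (hle _))

end Pool.Agent.Work.LIN
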