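import Pool.Agent.Work.MP_7f9bcc_LIN.Interface

set_option autoImplicit false

/-! # Block HYP (helper46): the relative hypercentre -/

namespace Pool.Agent.Work.LIN

namespace X_HYP

variable {H : Type} [Group H]

theorem pel_conj {p : ℕ} {v : H} (hv : v ∈ pel p H) (h : H) : h * v * h⁻¹ ∈ pel p H := by
  obtain ⟨m, hm⟩ := hv
  exact ⟨m, by rw [conj_pow, hm, mul_one, mul_inv_cancel]⟩

/-- the elements which commute with the elements of order a power of `p` modulo `Z` -/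
def step (p : ℕ) (Z : Subgroup H) (hZ : Z.Normal) : Subgroup H where
  carrier := {w | ∀ v ∈ pel p H, w * v * w⁻¹ * v⁻¹ ∈ Z}
  one_mem' := by
    intro v _
    rw [one_mul, inv_one, mul_one, mul_inv_cancel]
    exact Z.one_mem
  mul_mem' := by
    intro a b ha hb v hv
    have h1 := Z.mul_mem (hZ.conj_mem _ (hb v hv) a) (ha v hv)
    have h2 : a * b * v * (a * b)⁻¹ * v⁻¹ = a * (b * v * b⁻¹ * v⁻¹) * a⁻¹ * (a * v * a⁻¹ * v⁻¹) := by
      group
    rw [h2]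
    exact h1
  inv_mem' := by
    intro a ha v hv
    have h1 := hZ.conj_mem _ (Z.inv_mem (ha v hv)) a⁻¹
    have h2 : a⁻¹ * v * a⁻¹⁻¹ * v⁻¹ = a⁻¹ * (a * v * a⁻¹ * v⁻¹)⁻¹ * a⁻¹⁻¹ := by
      group
    rw [h2]
    exact h1

theorem step_normal (p : ℕ) (Z : Subgroup H) (hZ : Z.Normal) : (step p Z hZ).Normal := by
  refine ⟨fun w hw h v hv => ?_⟩
  have h1 := hZ.conj_mem _ (hw _ (pel_conj hv h⁻¹)) h
  have h2 : h * w * h⁻¹ * v * (h * w * h⁻¹)⁻¹ * v⁻¹ =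
      h * (w * (h⁻¹ * v * h⁻¹⁻¹) * w⁻¹ * (h⁻¹ * v * h⁻¹⁻¹)⁻¹) * h⁻¹ := by
    group
  rw [h2]
  exact h1

theorem le_step (p : ℕ) (Z : Subgroup H) (hZ : Z.Normal) : Z ≤ step p Z hZ := by
  intro w hw v _
  have h2 : w * v * w⁻¹ * v⁻¹ = w * (v * w⁻¹ * v⁻¹) := by group
  rw [h2]
  exact Z.mul_mem hw (hZ.conj_mem _ (Z.inv_mem hw) v)

/-- the chain -/
def ch (p : ℕ) (H : Type) [Group H] : ℕ → {Z : Subgroup H // Z.Normal}
  | 0 => ⟨⊥, inferInstance⟩
  | n + 1 => ⟨step p (ch p H n).1 (ch p H n).2, step_normal p _ _⟩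

theorem ch_mono (p : ℕ) : Monotone fun n => (ch p H n).1 :=
  monotone_nat_of_le_succ fun n => le_step p (ch p H n).1 (ch p H n).2

theorem comm_mem {Z : Subgroup H} (hZ : Z.Normal) {T : Set H} {x : H}
    (hx : ∀ v ∈ T, x * v * x⁻¹ * v⁻¹ ∈ Z) : ∀ g ∈ Subgroup.closure T, x * g * x⁻¹ * g⁻¹ ∈ Z := by
  intro g hg
  induction hg using Subgroup.closure_induction with
  | mem v hv => exact hx v hv
  | one =>
    rw [mul_one, mul_inv_cancel, inv_one, mul_one]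
    exact Z.one_mem
  | mul a b _ _ ha hb =>
    have h2 : x * (a * b) * x⁻¹ * (a * b)⁻¹ =
        (x * a * x⁻¹ * a⁻¹) * (a * (x * b * x⁻¹ * b⁻¹) * a⁻¹) := by
      group
    rw [h2]
    exact Z.mul_mem ha (hZ.conj_mem _ hb a)
  | inv a _ ha =>
    have h2 : x * a⁻¹ * x⁻¹ * a⁻¹⁻¹ = a⁻¹ * (x * a * x⁻¹ * a⁻¹)⁻¹ * a⁻¹⁻¹ := by
      group
    rw [h2]
    exact hZ.conj_mem _ (Z.inv_mem ha) a⁻¹

end X_HYP

open X_HYP

theorem p_HYP : Stmt_HYP := by
  intro H _ _ p hp hP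
  have : Fact p.Prime := ⟨hp⟩
  -- the chain becomes constant
  obtain ⟨n, hn⟩ : ∃ n, (ch p H (n + 1)).1 ≤ (ch p H n).1 := by
    obtain ⟨i, j, hij, h⟩ := Finite.exists_ne_map_eq_of_infinite fun n : ℕ => (ch p H n).1
    rcases lt_or_gt_of_ne hij with h1 | h1
    · exact ⟨i, (ch_mono p (Nat.succ_le_of_lt h1)).trans (le_of_eq h.symm)⟩
    · exact ⟨j, (ch_mono p (Nat.succ_le_of_lt h1)).trans (le_of_eq h)⟩
  refine ⟨(ch p H n).1, (ch p H n).2, ?_, fun w hw => hn hw⟩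
  by_contra hcon
  push Not at hcon
  apply hP
  set P := Subgroup.closure (pel p H) with hPdef
  have hle : P ≤ (ch p H n).1 := (Subgroup.closure_le _).2 hcon
  have hnil : Group.IsNilpotent P := by
    rw [Subgroup.nilpotent_iff_finite_ascending_central_series]
    refine ⟨n, fun i => (ch p H i).1.subgroupOf P, ⟨?_, ?_⟩, ?_⟩
    · show (⊥ : Subgroup H).subgroupOf P = ⊥
      exact Subgroup.bot_subgroupOf P
    · intro x i hx g
      have h1 : ∀ v ∈ pel p H, (x : H) * v * (x : H)⁻¹ * v⁻¹ ∈ (ch p H i).1 := hx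
      exact comm_mem (ch p H i).2 h1 g g.2
    · exact Subgroup.subgroupOf_eq_top.2 hle
  have hnor := ((Group.isNilpotent_of_finite_tfae (G := P)).out 0 3 rfl rfl).1 hnil p ⟨hp⟩
  obtain ⟨S⟩ : Nonempty (Sylow p P) := inferInstance
  have hSn := hnor S
  have hmem : ∀ v : P, (v : H) ∈ pel p H → v ∈ (S : Subgroup P) := by
    intro v hv
    obtain ⟨m, hm⟩ := hv
    have hz : IsPGroup p (Subgroup.zpowers v) := by
      rintro ⟨g, hg⟩
      obtain ⟨k, rfl⟩ := Subgroup.mem_zpowers_iff.1 hg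
      refine ⟨m, Subtype.ext (Subtype.ext ?_)⟩
      show ((v : H) ^ k) ^ p ^ m = 1
      rw [← zpow_natCast, ← zpow_mul, mul_comm, zpow_mul, zpow_natCast, hm, one_zpow]
    obtain ⟨Q, hQ⟩ := hz.exists_le_sylow
    have hu := Sylow.unique_of_normal S hSn
    have hQS : Q = S := by
      rw [hu.uniq Q, hu.uniq S]
    rw [← hQS]
    exact hQ (Subgroup.mem_zpowers v)
  have hPS : P ≤ (S : Subgroup P).map P.subtype := by
    refine (Subgroup.closure_le _).2 fun v hv => ?_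
    exact ⟨⟨v, Subgroup.subset_closure hv⟩, hmem ⟨v, Subgroup.subset_closure hv⟩ hv, rfl⟩
  exact (S.isPGroup'.map P.subtype).to_le hPS

end Pool.Agent.Work.LIN
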