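import Pool.Agent.Work.MP_7f9bcc_LIN.Interface
import Pool.Agent.Work.MP_936a99_bb.JORC
import Pool.Agent.Work.MP_936a99_bb.LIFTP
import Pool.Agent.Work.MP_936a99_bb.EMB

set_option autoImplicit false

/-! # THEOREM LIN (MP_7f9bcc_al), block JCP (helper41): Jordan's theorem for groups with a normal
Sylow subgroup -/

namespace Pool.Agent.Work.LIN

open scoped commutatorElement

namespace X_JCP

theorem map_inj {ι : Type} [Fintype ι] [DecidableEq ι] {R S : Type} [CommRing R] [CommRing S]
    (f : R →+* S) (hf : Function.Injective f) :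
    Function.Injective (Matrix.GeneralLinearGroup.map (n := ι) f) := by
  intro a b h
  apply Units.ext
  ext i j
  apply hf
  have h1 := congrArg (fun u : GL ι S => (u : Matrix ι ι S) i j) h
  exact h1

theorem closure_pel_normal (p : ℕ) (H : Type) [Group H] : (Subgroup.closure (pel p H)).Normal := by
  refine ⟨fun n hn g => ?_⟩
  have h1 : Subgroup.closure (pel p H) ≤
      (Subgroup.closure (pel p H)).comap (MulAut.conj g).toMonoidHom := by
    rw [Subgroup.closure_le]
    rintro v ⟨m, hm⟩
    refine Subgroup.subset_closure ⟨m, ?_⟩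
    change (g * v * g⁻¹) ^ p ^ m = 1
    rw [conj_pow, hm, mul_one, mul_inv_cancel]
  exact h1 hn

theorem not_dvd_index (p : ℕ) [Fact p.Prime] (H : Type) [Group H] [Finite H]
    (hP : IsPGroup p (Subgroup.closure (pel p H))) :
    ¬ p ∣ (Subgroup.closure (pel p H)).index := by
  intro hdvd
  have hN : (Subgroup.closure (pel p H)).Normal := closure_pel_normal p H
  obtain ⟨x, hx⟩ := exists_prime_orderOf_dvd_card' (G := H ⧸ Subgroup.closure (pel p H)) p hdvd
  obtain ⟨g, rfl⟩ := QuotientGroup.mk_surjective x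
  have h1 : (QuotientGroup.mk g : H ⧸ Subgroup.closure (pel p H)) ^ p = 1 :=
    orderOf_dvd_iff_pow_eq_one.1 hx.dvd
  rw [← QuotientGroup.mk_pow, QuotientGroup.eq_one_iff] at h1
  obtain ⟨k, hk⟩ := hP ⟨g ^ p, h1⟩
  have h2 : (g ^ p) ^ p ^ k = 1 := congrArg Subtype.val hk
  have h3 : g ∈ pel p H := ⟨k + 1, by rw [pow_succ', pow_mul, h2]⟩
  have h4 : (QuotientGroup.mk g : H ⧸ Subgroup.closure (pel p H)) = 1 :=
    (QuotientGroup.eq_one_iff g).2 (Subgroup.subset_closure h3)
  rw [h4, orderOf_one] at hx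
  exact (Fact.out : p.Prime).one_lt.ne hx

/-- the derived series, shifted -/
theorem shift {H : Type} [Group H] (U A : Subgroup H)
    (h : ∀ a ∈ A, ∀ b ∈ A, ⁅a, b⁆ ∈ U) (n : ℕ) :
    ∀ x ∈ derivedSeries A (n + 1), (x : H) ∈ (derivedSeries U n).map U.subtype := by
  have key : derivedSeries A (n + 1) ≤ ((derivedSeries U n).map U.subtype).comap A.subtype := by
    induction n with
    | zero =>
      rw [derivedSeries_succ, Subgroup.commutator_le]
      intro a _ b _
      rw [Subgroup.mem_comap, derivedSeries_zero]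
      exact ⟨⟨⁅(a : H), (b : H)⁆, h a a.2 b b.2⟩, Subgroup.mem_top _, rfl⟩
    | succ n ih =>
      rw [derivedSeries_succ, Subgroup.commutator_le]
      intro a ha b hb
      obtain ⟨u, hu, hu'⟩ := ih ha
      obtain ⟨v, hv, hv'⟩ := ih hb
      rw [Subgroup.mem_comap]
      refine ⟨⁅u, v⁆, ?_, ?_⟩
      · rw [derivedSeries_succ]
        exact Subgroup.commutator_mem_commutator hu hv
      · rw [map_commutatorElement, map_commutatorElement, hu', hv']
  exact fun x hx => key hx

end X_JCP

open X_JCP in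
theorem p_JCP (hUNI : Stmt_UNI) : Stmt_JCP := by
  intro D
  obtain ⟨J, hJ⟩ := Pool.Agent.Work.MP_936a99_bb.jorc (Fin D)
  refine ⟨J, fun p _ H hP => ?_⟩
  have hfin : Finite H := inferInstance
  set U : Subgroup H := Subgroup.closure (pel p H) with hUdef
  have hN : U.Normal := closure_pel_normal p H
  have hidx : ¬ p ∣ U.index := not_dvd_index p H hP
  have hcop : Nat.Coprime (Nat.card U) U.index := by
    obtain ⟨n, hn⟩ := IsPGroup.iff_card.1 hP
    rw [hn]
    exact Nat.Coprime.pow_left n ((Nat.Prime.coprime_iff_not_dvd Fact.out).2 hidx)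
  obtain ⟨L, hL⟩ := Subgroup.exists_right_complement'_of_coprime hcop
  have hcard : Nat.card L = U.index := (Subgroup.IsComplement'.index_eq_card hL.symm).symm
  have hLp : ¬ p ∣ Nat.card L := by rw [hcard]; exact hidx
  let φ : L →* GL (Fin D) (ZMod p) := H.subtype.comp L.subtype
  have hφ : Function.Injective φ := H.subtype_injective.comp L.subtype_injective
  obtain ⟨ψ, hψ⟩ := Pool.Agent.Work.MP_936a99_bb.liftp (Fin D) p L φ hLp hφ
  obtain ⟨f, hf⟩ := Pool.Agent.Work.MP_936a99_bb.emb p
  obtain ⟨N, hNn, hab, hNJ⟩ := hJ L ((Matrix.GeneralLinearGroup.map f).comp ψ)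
    ((map_inj f hf).comp hψ)
  let π : H →* H ⧸ U := QuotientGroup.mk' U
  let π' : L →* H ⧸ U := π.comp L.subtype
  have hπ' : Function.Surjective π' := by
    intro y
    obtain ⟨g, rfl⟩ := QuotientGroup.mk_surjective y
    obtain ⟨⟨u, l⟩, hul⟩ := hL.2 g
    refine ⟨l, ?_⟩
    have h1 : (u : H) * (l : H) = g := hul
    change (QuotientGroup.mk (l : H) : H ⧸ U) = QuotientGroup.mk g
    rw [← h1, QuotientGroup.mk_mul, (QuotientGroup.eq_one_iff (u : H)).2 u.2, one_mul]
  have hN0 : N.index ≠ 0 := Subgroup.FiniteIndex.index_ne_zero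
  refine ⟨(N.map π').comap π, ?_, ?_⟩
  · rw [Subgroup.index_comap_of_surjective _ (QuotientGroup.mk'_surjective U)]
    exact (Nat.le_of_dvd (Nat.pos_of_ne_zero hN0) (Subgroup.index_map_dvd N hπ')).trans hNJ
  · have hcomm : ∀ a ∈ (N.map π').comap π, ∀ b ∈ (N.map π').comap π, ⁅a, b⁆ ∈ U := by
      rintro a ⟨x, hx, hxa⟩ b ⟨y, hy, hyb⟩
      have h1 : π ⁅a, b⁆ = 1 := by
        rw [map_commutatorElement, ← hxa, ← hyb, ← map_commutatorElement,
          commutatorElement_eq_one_iff_mul_comm.2 (hab x hx y hy), map_one]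
      exact (QuotientGroup.eq_one_iff _).1 h1
    have hUD : derivedSeries U D = ⊥ := by
      have hU' : IsPGroup p (U.map H.subtype) := hP.map H.subtype
      have h1 := hUNI D p (U.map H.subtype) hU'
      let θ : U →* U.map H.subtype := (H.subtype.comp U.subtype).codRestrict (U.map H.subtype)
        (fun x => Subgroup.mem_map_of_mem H.subtype x.2)
      rw [eq_bot_iff]
      intro x hx
      have h2 : θ x ∈ derivedSeries (U.map H.subtype) D :=
        map_derivedSeries_le_derivedSeries θ D (Subgroup.mem_map_of_mem θ hx)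
      rw [h1, Subgroup.mem_bot] at h2
      have h3 : ((x : H) : GL (Fin D) (ZMod p)) = 1 := congrArg Subtype.val h2
      rw [Subgroup.mem_bot]
      exact Subtype.ext (Subtype.ext h3)
    rw [eq_bot_iff]
    intro x hx
    have h1 := shift U ((N.map π').comap π) hcomm D x hx
    rw [hUD, Subgroup.map_bot, Subgroup.mem_bot] at h1
    rw [Subgroup.mem_bot]
    exact Subtype.ext h1

end Pool.Agent.Work.LIN
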