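import Pool.Agent.Work.MP_7f9bcc_LIN.Interface

/-!
# Block LFT: lifting a representation to a subring
-/

namespace Pool.Agent.Work.LIN

theorem p_LFT : Stmt_LFT := by
  intro G R R' _ _ _ j d ρ S hj hS hρ
  set F : GL (Fin d) R →* GL (Fin d) R' := Matrix.GeneralLinearGroup.map j with hF
  have hmap : Function.Injective (fun M : Matrix (Fin d) (Fin d) R => M.map j) :=
    Matrix.map_injective hj
  have hFv : ∀ u : GL (Fin d) R, ((F u : GL (Fin d) R') : Matrix (Fin d) (Fin d) R') =
      (u : Matrix (Fin d) (Fin d) R).map j := fun u => rfl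
  have hFi : Function.Injective F := by
    intro u v h
    refine Units.ext (hmap ?_)
    show (u : Matrix (Fin d) (Fin d) R).map j = (v : Matrix (Fin d) (Fin d) R).map j
    rw [← hFv, ← hFv, h]
  have hmul : ∀ M N : Matrix (Fin d) (Fin d) R, (M * N).map j = M.map j * N.map j := fun M N =>
    Matrix.map_mul
  have hone : (1 : Matrix (Fin d) (Fin d) R).map j = 1 :=
    Matrix.map_one j (map_zero j) (map_one j)
  have hgen : ∀ g ∈ S, ρ g ∈ F.range := by
    intro g hg
    choose M hM using fun a b => (hρ g hg a b).1
    choose N hN using fun a b => (hρ g hg a b).2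
    have hM' : (Matrix.of M).map j = (ρ g : Matrix (Fin d) (Fin d) R') := by
      ext a b
      exact hM a b
    have hN' : (Matrix.of N).map j = (((ρ g)⁻¹ : GL (Fin d) R') : Matrix (Fin d) (Fin d) R') := by
      ext a b
      exact hN a b
    have h1 : Matrix.of M * Matrix.of N = 1 := by
      refine hmap ?_
      show (Matrix.of M * Matrix.of N).map j = (1 : Matrix (Fin d) (Fin d) R).map j
      rw [hmul, hone, hM', hN', ← Units.val_mul, mul_inv_cancel, Units.val_one]
    have h2 : Matrix.of N * Matrix.of M = 1 := by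
      refine hmap ?_
      show (Matrix.of N * Matrix.of M).map j = (1 : Matrix (Fin d) (Fin d) R).map j
      rw [hmul, hone, hM', hN', ← Units.val_mul, inv_mul_cancel, Units.val_one]
    refine ⟨⟨Matrix.of M, Matrix.of N, h1, h2⟩, Units.ext ?_⟩
    rw [hFv]
    exact hM'
  have hall : ∀ g, ρ g ∈ F.range := by
    intro g
    have h : (⊤ : Subgroup G) ≤ F.range.comap ρ := by
      rw [← hS, Subgroup.closure_le]
      exact fun g hg => hgen g hg
    exact h (Subgroup.mem_top g)
  let e := MonoidHom.ofInjective hFi
  refine ⟨e.symm.toMonoidHom.comp (ρ.codRestrict F.range hall), fun g => ?_⟩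
  have h3 : e (e.symm (ρ.codRestrict F.range hall g)) = ρ.codRestrict F.range hall g :=
    MulEquiv.apply_symm_apply _ _
  have h4 := congrArg Subtype.val h3
  exact h4

end Pool.Agent.Work.LIN
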