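import Pool.Agent.Work.MP_7f9bcc_LIN.Interface

set_option autoImplicit false

/-! # Block LV1 (helper72): random words in a finite quotient -/

namespace Pool.Agent.Work.LIN

theorem p_LV1 (hMIX : Stmt_MIX) : Stmt_LV1 := by
  intro k G H _ _ _ s φ hs hgen hφ B L hB hL h
  let ψ : H →* Equiv.Perm H := MulAction.toPermHom H H
  let π : Fin (k + 1) → Equiv.Perm H := fun j => (ψ.comp φ) (s j)
  have hψ : ∀ a b : H, ψ a b = a * b := fun a b => rfl
  have hπ0 : π 0 = 1 := by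
    show (ψ.comp φ) (s 0) = 1
    rw [hs, map_one]
  have h1 : ∀ a ∈ insert 1 (Set.range π),
      Nat.card (Fin (k + 1)) ≤ (k + 1) * Nat.card {x : Fin (k + 1) // π x = a} := by
    intro a ha
    have hne : Nonempty {x : Fin (k + 1) // π x = a} := by
      rcases Set.mem_insert_iff.1 ha with h | ⟨j, hj⟩
      · exact ⟨⟨0, by rw [hπ0, h]⟩⟩
      · exact ⟨⟨j, hj⟩⟩
    have h2 : 1 ≤ Nat.card {x : Fin (k + 1) // π x = a} := Nat.card_pos
    rw [Nat.card_fin]
    exact Nat.le_mul_of_pos_right _ h2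
  have h2 : ∀ ω ω' : H, ∃ g ∈ Subgroup.closure (Set.range π), g ω = ω' := by
    intro ω ω'
    refine ⟨ψ (ω' * ω⁻¹), ?_, ?_⟩
    · have h3 : Subgroup.closure (Set.range π) = Subgroup.map (ψ.comp φ) ⊤ := by
        rw [← hgen, MonoidHom.map_closure, ← Set.range_comp]
        rfl
      obtain ⟨g, hg⟩ := hφ (ω' * ω⁻¹)
      rw [h3]
      exact ⟨g, Subgroup.mem_top g, by rw [MonoidHom.comp_apply, hg]⟩
    · rw [hψ, inv_mul_cancel_right]
  have h3 : 4 * Nat.card H ^ 5 * (k + 1) ^ 2 ≤ L :=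
    le_trans (Nat.mul_le_mul_right _ (Nat.mul_le_mul_left _ (Nat.pow_le_pow_left hB 5))) hL
  have h4 := (hMIX (Fin (k + 1)) H π (Set.range π) (k + 1) h1 h2 L h3 1 h).1
  rw [Nat.card_fin] at h4
  have h5 : ∀ x : Fin L → Fin (k + 1), ev π x 1 = h ↔ φ (ev s x) = h := by
    intro x
    have h6 : ev π x = (ψ.comp φ) (ev s x) := (map_ev (ψ.comp φ) s x).symm
    rw [h6, MonoidHom.comp_apply, hψ, mul_one]
  rw [Nat.card_congr (Equiv.subtypeEquivRight h5)] at h4
  refine le_trans h4 ?_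
  exact Nat.mul_le_mul_right _ (Nat.mul_le_mul_left _ hB)

end Pool.Agent.Work.LIN
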