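import Pool.Agent.Work.MP_7f9bcc_LIN.Interface

set_option autoImplicit false

/-! # THEOREM LIN (MP_7f9bcc_al): block LV2 -/

namespace Pool.Agent.Work.LIN

open Pool.Agent.Work.LAG (ball autGrowth ball_mono one_mem_ball mul_mem_ball pow_mem_ball)

/-- LV2 -/
theorem p_LV2 (hMIX : Stmt_MIX) (hLV1 : Stmt_LV1) (hORB : Stmt_ORB) : Stmt_LV2 := by
  classical
  intro k G H Ω _ _ _ s φ α hs0 hs hφ B L t e p m v ω hB hL ht hp hpe hv hvω
  obtain ⟨M, hM⟩ : ∃ M : Subgroup H, M = pw H e := ⟨_, rfl⟩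
  have hgen : ∀ h : H, h ^ e ∈ M := by
    intro h
    rw [hM]
    exact Subgroup.subset_closure ⟨h, rfl⟩
  let act : MulAction M Ω := MulAction.compHom Ω (α.comp M.subtype)
  have hact : ∀ (g : M) (x : Ω), g • x = α (g : H) x := fun g x => rfl
  obtain ⟨β, hβ⟩ : ∃ β : M →* Equiv.Perm (MulAction.orbit M ω),
      ∀ (g : M) (x : MulAction.orbit M ω), ((β g x : MulAction.orbit M ω) : Ω) = α (g : H) x :=
    ⟨MulAction.toPermHom M (MulAction.orbit M ω), fun g x => rfl⟩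
  have hβt : ∀ x y : MulAction.orbit M ω, ∃ g : M, β g x = y := by
    rintro ⟨x, gx, hx⟩ ⟨y, gy, hy⟩
    refine ⟨gy * gx⁻¹, Subtype.ext ?_⟩
    rw [hβ]
    have hx' : x = gx • ω := hx.symm
    have hy' : y = gy • ω := hy.symm
    show α ((gy * gx⁻¹ : M) : H) x = y
    rw [← hact, hx', hy', mul_smul, inv_smul_smul]
  have hfinO : Finite (MulAction.orbit M ω) := by
    have : Function.Surjective (fun g : M => (⟨g • ω, g, rfl⟩ : MulAction.orbit M ω)) := by
      rintro ⟨x, g, hg⟩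
      exact ⟨g, Subtype.ext hg⟩
    exact Finite.of_surjective _ this
  have hcard : Nat.card (MulAction.orbit M ω) ≤ B := by
    have h1 : Nat.card (MulAction.orbit M ω) ≤ Nat.card M := by
      have : Function.Surjective (fun g : M => (⟨g • ω, g, rfl⟩ : MulAction.orbit M ω)) := by
        rintro ⟨x, g, hg⟩
        exact ⟨g, Subtype.ext hg⟩
      exact Nat.card_le_card_of_surjective _ this
    have h2 : Nat.card M ≤ Nat.card H := Nat.card_le_card_of_injective _ M.subtype_injective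
    exact h1.trans (h2.trans hB)
  -- the data of MIX
  set mm : (Fin L → Fin (k + 1)) → M := fun y => ⟨φ (ev s y) ^ e, hgen _⟩ with hmm
  set π : (Fin L → Fin (k + 1)) → Equiv.Perm (MulAction.orbit M ω) := fun y => β (mm y) with hπ
  set A : Set (Equiv.Perm (MulAction.orbit M ω)) := Set.range (fun h : H => β ⟨h ^ e, hgen h⟩)
    with hA
  have hX : Nat.card (Fin L → Fin (k + 1)) = (k + 1) ^ L := by
    rw [Nat.card_eq_fintype_card]
    simp
  have hfr : ∀ h : H, Nat.card (Fin L → Fin (k + 1)) ≤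
      2 * B * Nat.card {x : Fin L → Fin (k + 1) // π x = β ⟨h ^ e, hgen h⟩} := by
    intro h
    have h1 := hLV1 k G H s φ hs0 hs hφ B L hB hL h
    rw [hX]
    refine h1.trans (Nat.mul_le_mul_left _ ?_)
    refine Nat.card_le_card_of_injective
      (fun x : {x : Fin L → Fin (k + 1) // φ (ev s x) = h} =>
        (⟨x.1, by
          show β ⟨φ (ev s x.1) ^ e, _⟩ = β ⟨h ^ e, _⟩
          congr 2
          rw [x.2]⟩ : {x : Fin L → Fin (k + 1) // π x = β ⟨h ^ e, hgen h⟩})) ?_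
    intro x y hxy
    simp only [Subtype.mk.injEq] at hxy
    exact Subtype.ext hxy
  have hfreq : ∀ a ∈ insert 1 A, Nat.card (Fin L → Fin (k + 1)) ≤
      2 * B * Nat.card {x : Fin L → Fin (k + 1) // π x = a} := by
    rintro a (rfl | ⟨h, rfl⟩)
    · have h1 := hfr 1
      have h2 : β ⟨(1 : H) ^ e, hgen 1⟩ = 1 := by
        have h3 : (⟨(1 : H) ^ e, hgen 1⟩ : M) = 1 := Subtype.ext (one_pow e)
        rw [h3, map_one]
      rwa [h2] at h1
    · exact hfr h
  have hcl : ∀ (x : H) (hx : x ∈ pw H e), β ⟨x, hM ▸ hx⟩ ∈ Subgroup.closure A := by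
    intro x hx
    induction hx using Subgroup.closure_induction with
    | mem x hx =>
      obtain ⟨h, rfl⟩ := hx
      exact Subgroup.subset_closure ⟨h, rfl⟩
    | one =>
      have h3 : (⟨(1 : H), hM ▸ (one_mem (pw H e))⟩ : M) = 1 := rfl
      rw [h3, map_one]
      exact one_mem _
    | mul x y hx hy h1 h2 =>
      have h3 : (⟨x * y, hM ▸ (mul_mem hx hy : x * y ∈ pw H e)⟩ : M) =
        ⟨x, hM ▸ hx⟩ * ⟨y, hM ▸ hy⟩ := rfl
      rw [h3, map_mul]
      exact mul_mem h1 h2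
    | inv x hx h1 =>
      have h3 : (⟨x⁻¹, hM ▸ (inv_mem hx : x⁻¹ ∈ pw H e)⟩ : M) = ⟨x, hM ▸ hx⟩⁻¹ := rfl
      rw [h3, map_inv]
      exact inv_mem h1
  have htr : ∀ x y : MulAction.orbit M ω, ∃ g ∈ Subgroup.closure A, g x = y := by
    intro x y
    obtain ⟨g, hg⟩ := hβt x y
    exact ⟨β g, hcl g.1 (hM ▸ g.2), hg⟩
  have ht' : 4 * Nat.card (MulAction.orbit M ω) ^ 5 * (2 * B) ^ 2 ≤ t := by
    refine le_trans ?_ ht
    calc 4 * Nat.card (MulAction.orbit M ω) ^ 5 * (2 * B) ^ 2 ≤ 4 * B ^ 5 * (2 * B) ^ 2 := by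
          gcongr
      _ = 16 * B ^ 7 := by ring
  have hmix := (hMIX (Fin L → Fin (k + 1)) (MulAction.orbit M ω) π A (2 * B) hfreq htr t ht'
    ⟨ω, MulAction.mem_orbit_self ω⟩ ⟨ω, MulAction.mem_orbit_self ω⟩).2
  obtain ⟨hvM, hpo⟩ := hORB H Ω α e p m v ω hp hpe hv hvω
  have hset : {ω' : Ω | ∃ h ∈ pw H e, α h ω = ω'} = MulAction.orbit M ω := by
    ext x
    constructor
    · rintro ⟨h, hh, rfl⟩
      exact ⟨⟨h, hM ▸ hh⟩, rfl⟩
    · rintro ⟨g, rfl⟩
      exact ⟨g.1, hM ▸ g.2, rfl⟩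
  rw [hset, ← Nat.card_coe_set_eq] at hpo
  have hev : ∀ x : Fin t → (Fin L → Fin (k + 1)),
      ((ev π x ⟨ω, MulAction.mem_orbit_self ω⟩ : MulAction.orbit M ω) : Ω) =
        α (φ (ev (fun y => ev s y ^ e) x)) ω := by
    intro x
    have h1 : ev π x = β (ev mm x) := (map_ev β mm x).symm
    have h2 : φ (ev (fun y => ev s y ^ e) x) = ((ev mm x : M) : H) := by
      rw [map_ev]
      have h3 := map_ev M.subtype mm x
      have h4 : ((ev mm x : M) : H) = M.subtype (ev mm x) := rfl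
      rw [h4, h3]
      congr 1
      funext y
      rw [map_pow]
      rfl
    rw [h1, hβ, h2]
  have hle : Nat.card {x : Fin t → (Fin L → Fin (k + 1)) //
      α (φ (ev (fun y => ev s y ^ e) x)) ω = ω} ≤
      Nat.card {x : Fin t → (Fin L → Fin (k + 1)) //
        ev π x ⟨ω, MulAction.mem_orbit_self ω⟩ = ⟨ω, MulAction.mem_orbit_self ω⟩} := by
    refine Nat.card_le_card_of_injective
      (fun x : {x : Fin t → (Fin L → Fin (k + 1)) //
          α (φ (ev (fun y => ev s y ^ e) x)) ω = ω} =>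
        (⟨x.1, Subtype.ext (by
          rw [hev]
          exact x.2)⟩ : {x : Fin t → (Fin L → Fin (k + 1)) //
        ev π x ⟨ω, MulAction.mem_orbit_self ω⟩ = ⟨ω, MulAction.mem_orbit_self ω⟩})) ?_
    intro x y hxy
    simp only [Subtype.mk.injEq] at hxy
    exact Subtype.ext hxy
  rw [hX] at hmix
  refine le_trans ?_ hmix
  exact Nat.mul_le_mul (Nat.mul_le_mul_left 2 hpo) hle

end Pool.Agent.Work.LIN
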