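import Pool.Agent.Work.MP_7f9bcc_LIN.Interface

set_option autoImplicit false

/-!
# Block MIX: mixing
-/

namespace Pool.Agent.Work.LIN

namespace X_MIX

/-- the number of words of length `t` which move `ω` to `ω'` -/
noncomputable def cnt {X Ω : Type} (π : X → Equiv.Perm Ω) (ω' : Ω) (t : ℕ) (ω : Ω) : ℕ :=
  Nat.card {x : Fin t → X // ev π x ω = ω'}

/-- splitting off the last letter -/
def split {X Ω : Type} (π : X → Equiv.Perm Ω) (ω' : Ω) (t : ℕ) (ω : Ω) :
    {x : Fin (t + 1) → X // ev π x ω = ω'} ≃ Σ y : X, {x : Fin t → X // ev π x (π y ω) = ω'} where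
  toFun x := ⟨x.1 (Fin.last t), fun i => x.1 i.castSucc, by
    have h := x.2
    rw [ev_snoc] at h
    exact h⟩
  invFun z := ⟨Fin.snoc z.2.1 z.1, by
    have h := z.2.2
    rw [ev_snoc]
    simp only [Fin.snoc_castSucc, Fin.snoc_last]
    exact h⟩
  left_inv x := by
    apply Subtype.ext
    exact Fin.snoc_init_self (α := fun _ => X) x.1
  right_inv z := by
    obtain ⟨y, x, hx⟩ := z
    refine Sigma.subtype_ext ?_ ?_
    · exact Fin.snoc_last (α := fun _ => X) y x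
    · exact funext fun i => Fin.snoc_castSucc (α := fun _ => X) y x i

theorem cnt_succ {X Ω : Type} [Fintype X] [Finite Ω] (π : X → Equiv.Perm Ω) (ω' : Ω) (t : ℕ)
    (ω : Ω) : cnt π ω' (t + 1) ω = ∑ x, cnt π ω' t (π x ω) := by
  unfold cnt
  rw [Nat.card_congr (split π ω' t ω), Nat.card_sigma]

theorem cnt_zero {X Ω : Type} (π : X → Equiv.Perm Ω) (ω' ω : Ω) [Decidable (ω = ω')] :
    cnt π ω' 0 ω = if ω = ω' then 1 else 0 := by
  unfold cnt
  split_ifs with h
  · rw [Nat.card_eq_one_iff_unique]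
    refine ⟨⟨fun a b => Subtype.ext (Subsingleton.elim _ _)⟩, ⟨⟨Fin.elim0, ?_⟩⟩⟩
    rw [ev_zero]
    exact h
  · rw [Nat.card_eq_zero]
    left
    refine ⟨fun a => h ?_⟩
    have h2 := a.2
    rw [ev_zero] at h2
    exact h2

/-- the deviation from the uniform distribution -/
noncomputable def dev {X Ω : Type} [Fintype X] [Fintype Ω] (π : X → Equiv.Perm Ω) (ω' : Ω) (t : ℕ)
    (ω : Ω) : ℝ :=
  (cnt π ω' t ω : ℝ) / (Fintype.card X : ℝ) ^ t - 1 / (Fintype.card Ω : ℝ)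

theorem dev_succ {X Ω : Type} [Fintype X] [Nonempty X] [Fintype Ω] (π : X → Equiv.Perm Ω)
    (ω' : Ω) (t : ℕ) (ω : Ω) :
    dev π ω' (t + 1) ω = (∑ x, dev π ω' t (π x ω)) / Fintype.card X := by
  have hX : (Fintype.card X : ℝ) ≠ 0 := by
    exact_mod_cast Fintype.card_ne_zero
  unfold dev
  rw [cnt_succ, Finset.sum_sub_distrib, ← Finset.sum_div, Finset.sum_const, Finset.card_univ]
  push_cast
  rw [nsmul_eq_mul, sub_div, pow_succ, div_div]
  congr 1
  field_simp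

theorem dev_sum_zero {X Ω : Type} [Fintype X] [Fintype Ω] (π : X → Equiv.Perm Ω) (ω' : Ω) :
    ∑ ω, dev π ω' 0 ω = 0 := by
  classical
  have : Nonempty Ω := ⟨ω'⟩
  have hN : (Fintype.card Ω : ℝ) ≠ 0 := by
    exact_mod_cast Fintype.card_ne_zero
  unfold dev
  simp only [cnt_zero, pow_zero, div_one]
  rw [Finset.sum_sub_distrib, Finset.sum_const, Finset.card_univ, nsmul_eq_mul]
  push_cast
  rw [Finset.sum_ite_eq' Finset.univ ω']
  simp only [Finset.mem_univ, if_true]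
  field_simp
  norm_num

theorem dev_sum {X Ω : Type} [Fintype X] [Nonempty X] [Fintype Ω] (π : X → Equiv.Perm Ω)
    (ω' : Ω) (t : ℕ) : ∑ ω, dev π ω' t ω = 0 := by
  induction t with
  | zero => exact dev_sum_zero π ω'
  | succ t ih =>
    simp only [dev_succ]
    rw [← Finset.sum_div, Finset.sum_comm]
    have h : ∀ x : X, ∑ ω, dev π ω' t (π x ω) = 0 := by
      intro x
      rw [Equiv.sum_comp (π x) (dev π ω' t)]
      exact ih
    rw [Finset.sum_eq_zero (fun x _ => h x), zero_div]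

theorem dev_sq_zero {X Ω : Type} [Fintype X] [Fintype Ω] (π : X → Equiv.Perm Ω) (ω' : Ω) :
    ∑ ω, dev π ω' 0 ω ^ 2 ≤ 1 := by
  classical
  have : Nonempty Ω := ⟨ω'⟩
  have hN : (0 : ℝ) < (Fintype.card Ω : ℝ) := by
    exact_mod_cast Fintype.card_pos
  have h : ∀ ω, dev π ω' 0 ω ^ 2 =
      (1 - 2 / (Fintype.card Ω : ℝ)) * (if ω = ω' then 1 else 0) +
        1 / (Fintype.card Ω : ℝ) ^ 2 := by
    intro ω
    unfold dev
    rw [cnt_zero, pow_zero, div_one]
    split_ifs with h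
    · push_cast
      field_simp
      ring
    · push_cast
      field_simp
      ring
  simp only [h]
  rw [Finset.sum_add_distrib, ← Finset.mul_sum, Finset.sum_ite_eq' Finset.univ ω',
    Finset.sum_const, Finset.card_univ, nsmul_eq_mul]
  simp only [Finset.mem_univ, if_true]
  have h2 : (Fintype.card Ω : ℝ) * (1 / (Fintype.card Ω : ℝ) ^ 2) = 1 / (Fintype.card Ω : ℝ) := by
    field_simp
  rw [h2]
  have h3 : 2 / (Fintype.card Ω : ℝ) = 2 * (1 / (Fintype.card Ω : ℝ)) := by ring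
  rw [h3]
  have h4 : 0 < 1 / (Fintype.card Ω : ℝ) := by positivity
  linarith

theorem decay (hC : Stmt_CON) {X Ω : Type} [Fintype X] [Nonempty X] [Fintype Ω]
    (π : X → Equiv.Perm Ω) (A : Set (Equiv.Perm Ω)) (E : ℕ)
    (h1 : ∀ a ∈ insert 1 A, Nat.card X ≤ E * Nat.card {x : X // π x = a})
    (h2 : ∀ ω ω' : Ω, ∃ g ∈ Subgroup.closure A, g ω = ω') (ω' : Ω)
    (M : ℝ) (hM : M = (E : ℝ) ^ 2 * (Fintype.card Ω : ℝ) ^ 3) (hM1 : 1 ≤ M) (t : ℕ) :
    (∑ ω, dev π ω' t ω ^ 2) * (M + t) ≤ M := by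
  induction t with
  | zero =>
    have h := dev_sq_zero π ω'
    push_cast
    nlinarith
  | succ t ih =>
    have h := hC X Ω π A E h1 h2 (dev π ω' t) (dev_sum π ω' t)
    rw [← hM] at h
    simp only [← dev_succ] at h
    have h0 : 0 ≤ ∑ ω, dev π ω' t ω ^ 2 := Finset.sum_nonneg (fun _ _ => sq_nonneg _)
    set a := ∑ ω, dev π ω' t ω ^ 2 with ha
    set b := ∑ ω, dev π ω' (t + 1) ω ^ 2 with hb
    have ht : (0 : ℝ) ≤ t := Nat.cast_nonneg t
    push_cast
    have hMp : 0 < M := by linarith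
    have h5 : M * (b * (M + (t + 1))) ≤ M * M := by
      calc M * (b * (M + (t + 1))) = (M * b) * (M + (t + 1)) := by ring
        _ ≤ ((M - 1) * a) * (M + (t + 1)) :=
          mul_le_mul_of_nonneg_right h (by linarith)
        _ = a * ((M - 1) * (M + (t + 1))) := by ring
        _ ≤ a * (M * (M + t)) := by
          apply mul_le_mul_of_nonneg_left _ h0
          nlinarith
        _ = M * (a * (M + t)) := by ring
        _ ≤ M * M := mul_le_mul_of_nonneg_left ih hMp.le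
    exact le_of_mul_le_mul_left h5 hMp

end X_MIX

open X_MIX in
/-- block MIX -/
theorem p_MIX (hC : Stmt_CON) : Stmt_MIX := by
  intro X Ω _ _ _ π A E h1 h2 t ht ω ω'
  classical
  have := Fintype.ofFinite X
  have := Fintype.ofFinite Ω
  have : Nonempty Ω := ⟨ω'⟩
  have hE : 1 ≤ E := by
    rcases Nat.eq_zero_or_pos E with h | h
    · exfalso
      have h3 := h1 1 (Set.mem_insert _ _)
      rw [h, Nat.zero_mul] at h3
      have h4 : 0 < Nat.card X := Nat.card_pos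
      omega
    · exact h
  have hN : 1 ≤ Fintype.card Ω := Fintype.card_pos
  set N : ℝ := (Fintype.card Ω : ℝ) with hNdef
  have hN1 : (1 : ℝ) ≤ N := by
    rw [hNdef]
    exact_mod_cast hN
  have hE1 : (1 : ℝ) ≤ (E : ℝ) := by exact_mod_cast hE
  have hM1 : 1 ≤ (E : ℝ) ^ 2 * N ^ 3 :=
    one_le_mul_of_one_le_of_one_le (one_le_pow₀ hE1) (one_le_pow₀ hN1)
  have hdec := decay hC π A E h1 h2 ω' ((E : ℝ) ^ 2 * N ^ 3) rfl hM1 t
  set M : ℝ := (E : ℝ) ^ 2 * N ^ 3 with hMdef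
  have ht' : 4 * N ^ 2 * M ≤ (t : ℝ) := by
    have h : ((4 * Nat.card Ω ^ 5 * E ^ 2 : ℕ) : ℝ) ≤ (t : ℝ) := by exact_mod_cast ht
    rw [Nat.card_eq_fintype_card] at h
    push_cast at h
    rw [hMdef]
    calc 4 * N ^ 2 * ((E : ℝ) ^ 2 * N ^ 3) = 4 * N ^ 5 * (E : ℝ) ^ 2 := by ring
      _ ≤ (t : ℝ) := h
  have hMp : 0 < M := by linarith
  have hNp : 0 < N := by linarith
  set S : ℝ := ∑ v, dev π ω' t v ^ 2 with hS
  have hS0 : 0 ≤ S := Finset.sum_nonneg (fun _ _ => sq_nonneg _)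
  have hS1 : 4 * N ^ 2 * S ≤ 1 := by
    have h : M * (4 * N ^ 2 * S) ≤ M * 1 := by
      calc M * (4 * N ^ 2 * S) = S * (4 * N ^ 2 * M) := by ring
        _ ≤ S * (M + t) := by
          apply mul_le_mul_of_nonneg_left _ hS0
          linarith
        _ ≤ M := hdec
        _ = M * 1 := by ring
    exact le_of_mul_le_mul_left h hMp
  have hf : dev π ω' t ω ^ 2 ≤ S :=
    Finset.single_le_sum (f := fun v => dev π ω' t v ^ 2) (fun _ _ => sq_nonneg _)
      (Finset.mem_univ ω)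
  have hsq : (2 * N * dev π ω' t ω) ^ 2 ≤ 1 := by
    calc (2 * N * dev π ω' t ω) ^ 2 = 4 * N ^ 2 * dev π ω' t ω ^ 2 := by ring
      _ ≤ 4 * N ^ 2 * S := mul_le_mul_of_nonneg_left hf (by positivity)
      _ ≤ 1 := hS1
  have habs : |2 * N * dev π ω' t ω| ≤ 1 := by
    rw [← sq_le_one_iff_abs_le_one]
    exact hsq
  obtain ⟨hlo, hhi⟩ := abs_le.mp habs
  have hXp : 0 < (Fintype.card X : ℝ) ^ t := by
    have : 0 < (Fintype.card X : ℝ) := by exact_mod_cast Fintype.card_pos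
    positivity
  have hdev : 2 * N * dev π ω' t ω =
      2 * N * (cnt π ω' t ω : ℝ) / (Fintype.card X : ℝ) ^ t - 2 := by
    unfold dev
    rw [← hNdef]
    field_simp
  rw [hdev] at hlo hhi
  have h6 : (1 : ℝ) ≤ 2 * N * (cnt π ω' t ω : ℝ) / (Fintype.card X : ℝ) ^ t := by linarith
  have h7 : 2 * N * (cnt π ω' t ω : ℝ) / (Fintype.card X : ℝ) ^ t ≤ 3 := by linarith
  rw [le_div_iff₀ hXp, one_mul] at h6
  rw [div_le_iff₀ hXp] at h7
  rw [Nat.card_eq_fintype_card (α := X), Nat.card_eq_fintype_card (α := Ω)]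
  constructor
  · have : ((Fintype.card X ^ t : ℕ) : ℝ) ≤
        ((2 * Fintype.card Ω * cnt π ω' t ω : ℕ) : ℝ) := by
      push_cast
      exact h6
    exact_mod_cast this
  · have : ((2 * Fintype.card Ω * cnt π ω' t ω : ℕ) : ℝ) ≤
        ((3 * Fintype.card X ^ t : ℕ) : ℝ) := by
      push_cast
      exact h7
    exact_mod_cast this

end Pool.Agent.Work.LIN
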