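import Pool.Agent.Work.MP_7f9bcc_LIN.Interface

set_option autoImplicit false

/-! # Block NUM (helper21): arithmetic -/

namespace Pool.Agent.Work.LIN

theorem NUM_lin {t : ℕ} (ht : 3 ≤ t) : 2 * t + 1 ≤ 2 ^ t := by
  induction t, ht using Nat.le_induction with
  | base => norm_num
  | succ t ht ih =>
    rw [pow_succ]
    omega

theorem NUM_exp (q s : ℕ) (hs : 4 * q + 8 ≤ s) : s * 4 ^ q ≤ 2 ^ s := by
  have h1 : s ≤ 2 ^ (s / 2) := le_trans (by omega) (NUM_lin (t := s / 2) (by omega))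
  have h2 : 4 ^ q ≤ 2 ^ (s / 2) := by
    have : (4 : ℕ) ^ q = 2 ^ (2 * q) := by rw [pow_mul]; norm_num
    rw [this]
    exact Nat.pow_le_pow_right (by norm_num) (by omega)
  calc s * 4 ^ q ≤ 2 ^ (s / 2) * 2 ^ (s / 2) := Nat.mul_le_mul h1 h2
    _ = 2 ^ (s / 2 + s / 2) := by rw [← pow_add]
    _ ≤ 2 ^ s := Nat.pow_le_pow_right (by norm_num) (by omega)

theorem NUM_choose (s : ℕ) (hs : 1 ≤ s) :
    4 ^ (s * s) ≤ (s * 4) ^ s * Nat.choose (4 ^ s / 2) s := by
  obtain ⟨t, rfl⟩ : ∃ t, s = t + 1 := ⟨s - 1, by omega⟩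
  have h0 : (4 : ℕ) ^ (t + 1) = 4 * 4 ^ t := by rw [pow_succ, mul_comm]
  have ht : t < 4 ^ t := Nat.lt_pow_self (by norm_num)
  have h1 : (4 ^ t) ^ (t + 1) ≤ (t + 1).factorial * Nat.choose (4 ^ (t + 1) / 2) (t + 1) := by
    have h2 := Nat.pow_sub_le_descFactorial (4 ^ (t + 1) / 2) (t + 1)
    rw [Nat.descFactorial_eq_factorial_mul_choose] at h2
    refine le_trans (Nat.pow_le_pow_left ?_ _) h2
    omega
  have h2 : (t + 1).factorial ≤ (t + 1) ^ (t + 1) := Nat.factorial_le_pow _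
  calc 4 ^ ((t + 1) * (t + 1)) = 4 ^ (t + 1) * (4 ^ t) ^ (t + 1) := by
        rw [← pow_mul, ← pow_add]
        congr 1
        ring
    _ ≤ 4 ^ (t + 1) * ((t + 1) ^ (t + 1) * Nat.choose (4 ^ (t + 1) / 2) (t + 1)) :=
        Nat.mul_le_mul_left _ (h1.trans (Nat.mul_le_mul_right _ h2))
    _ = ((t + 1) * 4) ^ (t + 1) * Nat.choose (4 ^ (t + 1) / 2) (t + 1) := by
        rw [mul_pow]
        ring

theorem p_NUM : Stmt_NUM := by
  intro a c D z₀ hmono h
  set E := 26 * D + 2 with hE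
  set s₁ := 4 * (D + 1) + 8 + c + z₀ with hs₁
  have key : ∀ s, s₁ ≤ s → 2 ^ (s * s) ≤ a (4 ^ (E * s)) := by
    intro s hs
    have hs0 : 1 ≤ s := by omega
    have hs4 : s < 4 ^ s := Nat.lt_pow_self (by norm_num)
    have hz : z₀ ≤ 4 ^ s := by omega
    have h1 := h (4 ^ s) s hz hs0
    have hidx : 4 ^ s * (c * ((4 ^ s) ^ (2 * D)) ^ 13) ≤ 4 ^ (E * s) := by
      have hc : c ≤ 4 ^ s := by omega
      calc 4 ^ s * (c * ((4 ^ s) ^ (2 * D)) ^ 13) ≤ 4 ^ s * (4 ^ s * ((4 ^ s) ^ (2 * D)) ^ 13) :=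
            Nat.mul_le_mul_left _ (Nat.mul_le_mul_right _ hc)
        _ = 4 ^ (E * s) := by
            rw [← pow_mul, ← pow_mul, ← pow_add, ← pow_add]
            congr 1
            rw [hE]
            ring
    have h2 : Nat.choose (4 ^ s / 2) s ≤ 4 ^ (D * s) * a (4 ^ (E * s)) :=
      h1.trans (Nat.mul_le_mul_left _ (hmono hidx))
    have h3 : 2 ^ (s * s) * 2 ^ (s * s) ≤ 2 ^ (s * s) * a (4 ^ (E * s)) := by
      calc 2 ^ (s * s) * 2 ^ (s * s) = 4 ^ (s * s) := by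
            rw [← mul_pow]
            norm_num
        _ ≤ (s * 4) ^ s * Nat.choose (4 ^ s / 2) s := NUM_choose s hs0
        _ ≤ (s * 4) ^ s * (4 ^ (D * s) * a (4 ^ (E * s))) := Nat.mul_le_mul_left _ h2
        _ = (s * 4 ^ (D + 1)) ^ s * a (4 ^ (E * s)) := by
            rw [pow_succ 4 D, mul_pow, mul_pow, mul_pow, pow_mul]
            ring
        _ ≤ (2 ^ s) ^ s * a (4 ^ (E * s)) :=
            Nat.mul_le_mul_right _ (Nat.pow_le_pow_left (NUM_exp (D + 1) s (by omega)) _)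
        _ = 2 ^ (s * s) * a (4 ^ (E * s)) := by rw [← pow_mul 2 s s]
    exact Nat.le_of_mul_le_mul_left h3 (by positivity)
  have hE1 : 2 ≤ E := by omega
  have hl2 : 0 < Real.log 2 := Real.log_pos (by norm_num)
  have hl4 : 0 < Real.log 4 := Real.log_pos (by norm_num)
  have hER : (0 : ℝ) < E := by
    have : (2 : ℝ) ≤ E := by exact_mod_cast hE1
    linarith
  refine ⟨Real.log 2 / (2 * E * Real.log 4) ^ 2, 4 ^ (E * s₁), by positivity, ?_⟩
  intro n hn
  have hn0 : n ≠ 0 := by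
    have : 0 < 4 ^ (E * s₁) := by positivity
    omega
  set L := Nat.log 4 n with hL
  set s := L / E with hs
  have hLs : E * s₁ ≤ L := by
    rw [hL]
    exact (Nat.le_log_iff_pow_le (by norm_num) hn0).2 hn
  have hss : s₁ ≤ s := by
    rw [hs]
    exact (Nat.le_div_iff_mul_le (by omega)).2 (by rw [mul_comm]; exact hLs)
  have hs1 : 1 ≤ s := by omega
  have h1 : 4 ^ (E * s) ≤ n := by
    refine le_trans (Nat.pow_le_pow_right (by norm_num) (?_ : E * s ≤ L)) ?_
    · rw [hs]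
      exact Nat.mul_div_le L E
    · rw [hL]
      exact Nat.pow_log_le_self 4 hn0
  have h2 : n < 4 ^ (2 * (E * s)) := by
    have h3 : n < 4 ^ (L + 1) := Nat.lt_pow_succ_log_self (by norm_num) n
    refine lt_of_lt_of_le h3 (Nat.pow_le_pow_right (by norm_num) ?_)
    have h4 : L < E * (L / E) + E := by
      have := Nat.div_add_mod L E
      have := Nat.mod_lt L (show 0 < E by omega)
      omega
    have h5 : E ≤ E * s := Nat.le_mul_of_pos_right E hs1
    rw [← hs] at h4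
    omega
  have h3 : (2 : ℝ) ^ (s * s) ≤ a n := by
    have h4 := (key s hss).trans (hmono h1)
    exact_mod_cast h4
  refine le_trans ?_ h3
  have h4 : Real.log n ≤ 2 * E * Real.log 4 * s := by
    have h5 : (n : ℝ) ≤ 4 ^ (2 * (E * s)) := by exact_mod_cast h2.le
    have h6 := Real.log_le_log (by exact_mod_cast Nat.pos_of_ne_zero hn0) h5
    rw [Real.log_pow] at h6
    push_cast at h6
    linarith
  have h5 : 0 ≤ Real.log n := Real.log_natCast_nonneg n
  have h6 : Real.log n ^ 2 ≤ (2 * E * Real.log 4 * s) ^ 2 := pow_le_pow_left₀ h5 h4 2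
  have h7 : Real.log 2 / (2 * E * Real.log 4) ^ 2 * Real.log n ^ 2 ≤ (s * s : ℕ) * Real.log 2 := by
    calc Real.log 2 / (2 * E * Real.log 4) ^ 2 * Real.log n ^ 2
        ≤ Real.log 2 / (2 * E * Real.log 4) ^ 2 * (2 * E * Real.log 4 * s) ^ 2 :=
          mul_le_mul_of_nonneg_left h6 (by positivity)
      _ = (s * s : ℕ) * Real.log 2 := by
          push_cast
          field_simp
  calc Real.exp (Real.log 2 / (2 * E * Real.log 4) ^ 2 * Real.log n ^ 2)
      ≤ Real.exp ((s * s : ℕ) * Real.log 2) := Real.exp_le_exp.2 h7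
    _ = 2 ^ (s * s) := by
        rw [Real.exp_nat_mul, Real.exp_log (by norm_num)]

end Pool.Agent.Work.LIN
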