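import Pool.Agent.Work.MP_7f9bcc_LIN.Interface

set_option autoImplicit false

/-! # Block ORB of THEOREM LIN (helper84) -/

namespace Pool.Agent.Work.LIN

namespace X_ORB

theorem mem_pw {H : Type} [Group H] {e p m : ℕ} {v : H} (hpe : Nat.Coprime p e)
    (hv : v ^ p ^ m = 1) : v ∈ pw H e := by
  have hcop : Nat.Coprime e (p ^ m) := (Nat.Coprime.pow_left m hpe).symm
  have hord : orderOf v ∣ p ^ m := orderOf_dvd_of_pow_eq_one hv
  have hc2 : Nat.Coprime e (orderOf v) := Nat.Coprime.coprime_dvd_right hord hcop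
  obtain ⟨b, hb⟩ := exists_pow_eq_self_of_coprime hc2
  have h1 : v ^ e ∈ pw H e := Subgroup.subset_closure ⟨v, rfl⟩
  have h2 := Subgroup.pow_mem _ h1 b
  rwa [hb] at h2

end X_ORB

theorem p_ORB : Stmt_ORB := by
  intro H Ω _ _ α e p m v ω hp hpe hv hne
  have hvpw : v ∈ pw H e := X_ORB.mem_pw hpe hv
  refine ⟨hvpw, ?_⟩
  have hfin : ({ω' : Ω | ∃ h ∈ pw H e, α h ω = ω'}).Finite := by
    refine (Set.finite_range (fun h : H => α h ω)).subset ?_
    rintro ω' ⟨h, -, rfl⟩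
    exact ⟨h, rfl⟩
  let act : MulAction (Subgroup.zpowers v) Ω :=
    MulAction.compHom Ω (α.comp (Subgroup.zpowers v).subtype)
  have hsm : ∀ (g : Subgroup.zpowers v) (x : Ω), g • x = α (g : H) x := fun _ _ => rfl
  have hP : IsPGroup p (Subgroup.zpowers v) := by
    rintro ⟨g, k, rfl⟩
    refine ⟨m, ?_⟩
    apply Subtype.ext
    show (v ^ k) ^ p ^ m = 1
    rw [← zpow_natCast, zpow_comm, zpow_natCast, hv, one_zpow]
  have hsub : MulAction.orbit (Subgroup.zpowers v) ω ⊆ {ω' : Ω | ∃ h ∈ pw H e, α h ω = ω'} := by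
    rintro ω' ⟨g, rfl⟩
    refine ⟨g, ?_, (hsm g ω).symm⟩
    exact (Subgroup.zpowers_le.2 hvpw) g.2
  have hfo : (MulAction.orbit (Subgroup.zpowers v) ω).Finite := hfin.subset hsub
  have : Finite (MulAction.orbit (Subgroup.zpowers v) ω) := hfo
  have : Fact p.Prime := ⟨hp⟩
  obtain ⟨n, hn⟩ := hP.card_orbit ω
  have hcard : (MulAction.orbit (Subgroup.zpowers v) ω).ncard = p ^ n := by
    rw [← hn]
    rfl
  have h2 : 1 < (MulAction.orbit (Subgroup.zpowers v) ω).ncard := by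
    rw [Set.one_lt_ncard hfo]
    refine ⟨ω, MulAction.mem_orbit_self ω, α v ω, ⟨⟨v, Subgroup.mem_zpowers v⟩, rfl⟩, ?_⟩
    exact fun h => hne h.symm
  have hn0 : n ≠ 0 := by
    rintro rfl
    rw [hcard] at h2
    simp at h2
  have hle : p ≤ p ^ n := Nat.le_self_pow hn0 p
  calc p ≤ p ^ n := hle
    _ = (MulAction.orbit (Subgroup.zpowers v) ω).ncard := hcard.symm
    _ ≤ _ := Set.ncard_le_ncard hsub hfin

end Pool.Agent.Work.LIN
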