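import Pool.Agent.Work.MP_7f9bcc_LIN.Interface

/-!
# Block PRM: primes between `z` and `z ^ 2`
-/

namespace Pool.Agent.Work.LIN

open Chebyshev

theorem p_PRM : Stmt_PRM := by
  refine ⟨10000, fun z hz => ?_⟩
  have hzR : (10000 : ℝ) ≤ z := by exact_mod_cast hz
  have hz0 : (0 : ℝ) < z := by linarith
  set t : ℝ := Real.sqrt z with ht
  have htz : t ^ 2 = z := Real.sq_sqrt hz0.le
  have ht0 : 0 ≤ t := Real.sqrt_nonneg _
  have ht100 : 100 ≤ t := by
    rw [ht]
    exact Real.le_sqrt_of_sq_le (by linarith)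
  have hlogt : Real.log t ≤ t := (Real.log_le_sub_one_of_pos (by linarith)).trans (by linarith)
  have hlogz : Real.log z = 2 * Real.log t := by
    rw [← htz, Real.log_pow]
    push_cast
    ring
  -- Chebyshev
  have h1 := (psi_ge (z ^ 2)).trans (psi_le_primeCounting_mul_log (z ^ 2))
  push_cast at h1
  have h2 : Real.log ((z : ℝ) ^ 2) = 4 * Real.log t := by
    rw [Real.log_pow, hlogz]
    push_cast
    ring
  have h3 : Real.log ((z : ℝ) ^ 2 + 1) ≤ 8 * t := by
    have hz2 : (2 : ℝ) ≤ (z : ℝ) ^ 2 := by nlinarith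
    have : (z : ℝ) ^ 2 + 1 ≤ z ^ 4 := by
      have h5 : (z : ℝ) ^ 4 = z ^ 2 * z ^ 2 := by ring
      have h6 : 2 * (z : ℝ) ^ 2 ≤ z ^ 2 * z ^ 2 := mul_le_mul_of_nonneg_right hz2 (by positivity)
      rw [h5]
      linarith
    have h4 : Real.log ((z : ℝ) ^ 2 + 1) ≤ Real.log ((z : ℝ) ^ 4) :=
      Real.log_le_log (by positivity) this
    rw [Real.log_pow, hlogz] at h4
    push_cast at h4
    linarith
  have hlog2 : (0.69 : ℝ) < Real.log 2 := by
    have := Real.log_two_gt_d9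
    linarith
  have hmain : 2 * z ≤ Nat.primeCounting (z ^ 2) := by
    by_contra hcon
    rw [not_le] at hcon
    have h5 : (Nat.primeCounting (z ^ 2) : ℝ) ≤ 2 * z := by exact_mod_cast hcon.le
    rw [h2] at h1
    have h6 : (Nat.primeCounting (z ^ 2) : ℝ) * (4 * Real.log t) ≤ 2 * z * (4 * t) := by
      have h7 : 0 ≤ Real.log t := Real.log_nonneg (by linarith)
      exact mul_le_mul h5 (by linarith) (by linarith) (by linarith)
    have h8 : (z : ℝ) ^ 2 * 0.69 ≤ (z : ℝ) ^ 2 * Real.log 2 :=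
      mul_le_mul_of_nonneg_left hlog2.le (by positivity)
    have h9 : (z : ℝ) ^ 2 * 0.69 ≤ 2 * z * (4 * t) + 8 * t := by linarith
    rw [← htz] at h9
    nlinarith [pow_nonneg ht0 3, mul_nonneg (pow_nonneg ht0 3) (sub_nonneg.2 ht100)]
  rw [Nat.primeCounting, Nat.primeCounting', Nat.count_eq_card_filter_range] at hmain
  have hsub : (Finset.range (z ^ 2 + 1)).filter Nat.Prime ⊆
      (Finset.range (z ^ 2 + 1)).filter (fun q => q.Prime ∧ z < q) ∪ Finset.Ioc 0 z := by
    intro q hq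
    have h5 := Finset.mem_filter.1 hq
    rw [Finset.mem_union, Finset.mem_filter, Finset.mem_Ioc]
    by_cases h : z < q
    · exact Or.inl ⟨h5.1, h5.2, h⟩
    · exact Or.inr ⟨h5.2.pos, not_lt.1 h⟩
  have h6 := (Finset.card_le_card hsub).trans (Finset.card_union_le _ _)
  rw [Nat.card_Ioc] at h6
  have h7 : 2 * z ≤ ((Finset.range (z ^ 2 + 1)).filter Nat.Prime).card := hmain
  omega

end Pool.Agent.Work.LIN
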