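import Pool.Agent.Work.MP_7f9bcc_LIN.Interface

set_option autoImplicit false

/-!
# Block RCH of THEOREM LIN: linear groups which are not virtually solvable are rich
-/

namespace Pool.Agent.Work.LIN

namespace X_RCH

instance finGL (D q : ℕ) [Fact q.Prime] : Finite (GL (Fin D) (ZMod q)) :=
  inferInstanceAs (Finite (Matrix (Fin D) (Fin D) (ZMod q))ˣ)

theorem card_range_le {G : Type} [Group G] (D q : ℕ) [Fact q.Prime]
    (φ : G →* GL (Fin D) (ZMod q)) : Nat.card φ.range ≤ q ^ (D ^ 2) := by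
  have h1 : Nat.card φ.range ≤ Nat.card (GL (Fin D) (ZMod q)) :=
    Nat.card_le_card_of_injective (fun x : φ.range => (x : GL (Fin D) (ZMod q)))
      Subtype.val_injective
  have h2 : Nat.card (GL (Fin D) (ZMod q)) ≤ Nat.card (Fin D → Fin D → ZMod q) := by
    refine Nat.card_le_card_of_injective
      (fun x : GL (Fin D) (ZMod q) => fun a b => (x : Matrix (Fin D) (Fin D) (ZMod q)) a b) ?_
    intro x y h
    apply Units.ext
    ext a b
    exact congrFun (congrFun h a) b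
  have h3 : Nat.card (Fin D → Fin D → ZMod q) = q ^ (D ^ 2) := by
    rw [Nat.card_fun, Nat.card_fun, Nat.card_zmod, Nat.card_eq_fintype_card, Fintype.card_fin,
      ← pow_mul, sq]
  exact (h1.trans h2).trans h3.le

theorem fg_key {G : Type} [Group G] (D J q : ℕ) (hq : q.Prime) (N : Subgroup G)
    (hN : ∀ A : Subgroup G, A.index ≠ 0 → A.index ≤ J → N ≤ A)
    (hJ : ∀ (p : ℕ) [Fact p.Prime] (H : Subgroup (GL (Fin D) (ZMod p))),
      IsPGroup p (Subgroup.closure (pel p H)) →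
      ∃ A : Subgroup H, A.index ≤ J ∧ derivedSeries A (D + 1) = ⊥)
    (hR : ¬ Rq G (D ^ 2) q) (φ : G →* GL (Fin D) (ZMod q)) (g : G)
    (hg : g ∈ (derivedSeries N (D + 1)).map N.subtype) : φ g = 1 := by
  have hF : Fact q.Prime := ⟨hq⟩
  have hP : IsPGroup q (Subgroup.closure (pel q φ.range)) := by
    by_contra hnP
    exact hR ⟨φ.range, inferInstance, inferInstance, φ.rangeRestrict,
      φ.rangeRestrict_surjective, card_range_le D q φ, hnP⟩
  obtain ⟨A, hA1, hA2⟩ := hJ q φ.range hP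
  have hidx : (A.comap φ.rangeRestrict).index = A.index :=
    Subgroup.index_comap_of_surjective A φ.rangeRestrict_surjective
  have hA0 : A.index ≠ 0 := Subgroup.FiniteIndex.index_ne_zero
  have hNA : N ≤ A.comap φ.rangeRestrict :=
    hN _ (by rw [hidx]; exact hA0) (by rw [hidx]; exact hA1)
  let ψ : N →* A := (φ.rangeRestrict.comp N.subtype).codRestrict A (fun x => hNA x.2)
  obtain ⟨y, hy, rfl⟩ := hg
  have h1 : ψ y ∈ derivedSeries A (D + 1) :=
    map_derivedSeries_le_derivedSeries ψ (D + 1) (Subgroup.mem_map_of_mem ψ hy)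
  rw [hA2, Subgroup.mem_bot] at h1
  have h2 : φ.rangeRestrict (N.subtype y) = 1 := congrArg Subtype.val h1
  exact congrArg Subtype.val h2

end X_RCH

open X_RCH in
theorem p_RCH (hSPA : Stmt_SPA) (hSPB : Stmt_SPB) (hJCP : Stmt_JCP) (hFIX : Stmt_FIX) :
    Stmt_RCH := by
  intro G _ _ K _ _ d ρ hns
  obtain ⟨t, D, F, iF, iA, iFr, σ, hσ⟩ := hSPA G K d ρ
  obtain ⟨J, hJ⟩ := hJCP D
  obtain ⟨N, hNf, hN⟩ := hFIX G J
  by_contra hR
  apply hns
  have hbad : ∀ q₀ : ℕ, ∃ q, q₀ ≤ q ∧ q.Prime ∧ ¬ Rq G (D ^ 2) q := by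
    intro q₀
    by_contra h
    push Not at h
    exact hR ⟨D ^ 2, q₀, h⟩
  have key2 : ∀ g ∈ (derivedSeries N (D + 1)).map N.subtype, ρ g = 1 := by
    intro g hg
    by_contra hne
    have h1 : σ g ≠ 1 := fun h => hne ((hσ g).1 h)
    obtain ⟨q₀, hq₀⟩ := hSPB G t D F σ g h1
    obtain ⟨q, hqq, hqp, hqR⟩ := hbad q₀
    obtain ⟨φ, hφ⟩ := hq₀ q hqq hqp
    exact hφ (fg_key D J q hqp N hN hJ hqR φ g hg)
  let τ : N →* ρ.range := ρ.rangeRestrict.comp N.subtype
  refine ⟨τ.range, ?_, ?_⟩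
  · have h1 : τ.range = N.map ρ.rangeRestrict := by
      rw [MonoidHom.range_comp, Subgroup.range_subtype]
    rw [h1]
    refine ⟨?_⟩
    intro h0
    have h2 := Subgroup.index_map_dvd N ρ.rangeRestrict_surjective
    rw [h0, zero_dvd_iff] at h2
    exact hNf.index_ne_zero h2
  · refine ⟨⟨D + 1, ?_⟩⟩
    rw [← map_derivedSeries_eq τ.rangeRestrict_surjective, eq_bot_iff]
    rintro _ ⟨y, hy, rfl⟩
    rw [Subgroup.mem_bot]
    apply Subtype.ext
    apply Subtype.ext
    exact key2 (N.subtype y) (Subgroup.mem_map_of_mem _ hy)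

end Pool.Agent.Work.LIN
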