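import Pool.Agent.Work.MP_7f9bcc_LIN.Interface

set_option autoImplicit false

/-! # THEOREM LIN, block RSC: restriction of scalars -/

namespace Pool.Agent.Work.LIN

open scoped MatrixGroups

namespace X_RSC

/-- The ring homomorphism of restriction of scalars. -/
noncomputable def rs (F K : Type) [Field F] [Field K] [Algebra F K] [FiniteDimensional F K]
    (d : ℕ) : Matrix (Fin d) (Fin d) K →+*
      Matrix (Fin (d * Module.finrank F K)) (Fin (d * Module.finrank F K)) F :=
  ((Matrix.reindexAlgEquiv F F (finProdFinEquiv (m := d) (n := Module.finrank F K))).toRingEquiv.toRingHom.comp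
    (Matrix.compRingEquiv (Fin d) (Fin (Module.finrank F K)) F).toRingHom).comp
    ((Algebra.leftMulMatrix (Module.finBasis F K)).toRingHom.mapMatrix)

theorem rs_inj (F K : Type) [Field F] [Field K] [Algebra F K] [FiniteDimensional F K]
    (d : ℕ) : Function.Injective (rs F K d) := by
  intro A B h
  have h1 : ((Algebra.leftMulMatrix (Module.finBasis F K)).toRingHom.mapMatrix) A =
      ((Algebra.leftMulMatrix (Module.finBasis F K)).toRingHom.mapMatrix) B := by
    apply (Matrix.compRingEquiv (Fin d) (Fin (Module.finrank F K)) F).injective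
    apply (Matrix.reindexAlgEquiv F F
      (finProdFinEquiv (m := d) (n := Module.finrank F K))).toRingEquiv.injective
    exact h
  ext i j
  have h2 := congrFun (congrFun h1 i) j
  exact Algebra.leftMulMatrix_injective (Module.finBasis F K) h2

end X_RSC

/-- RSC. -/
theorem p_RSC : Stmt_RSC := by
  intro F K _ _ _ _ d
  exact ⟨d * Module.finrank F K, Units.map (X_RSC.rs F K d).toMonoidHom,
    Units.map_injective (X_RSC.rs_inj F K d)⟩

end Pool.Agent.Work.LIN
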