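import Pool.Agent.Work.MP_7f9bcc_LIN.Interface

set_option autoImplicit false

/-! # THEOREM LIN (MP_7f9bcc_al), block SEQ: commutators (helper52) -/

namespace Pool.Agent.Work.LIN

open Pool.Agent.Work.LAG (ball autGrowth ball_mono one_mem_ball mul_mem_ball pow_mem_ball)

namespace X_SEQ

theorem inv_mem_ball {G : Type} [Group G] {S : Set G} {x : G} {m : ℕ} (hx : x ∈ ball S m) :
    x⁻¹ ∈ ball S m := by
  obtain ⟨l, hl, h1, h2⟩ := hx
  refine ⟨(l.map (fun y => y⁻¹)).reverse, by simpa using hl, ?_, ?_⟩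
  · intro y hy
    rw [List.mem_reverse, List.mem_map] at hy
    obtain ⟨z, hz, rfl⟩ := hy
    rw [inv_inv]
    exact (h1 z hz).symm
  · rw [← h2, List.prod_inv_reverse]

/-- the action on the quotient by left multiplication -/
def lact {H : Type} [Group H] (Z : Subgroup H) [Z.Normal] : H →* Equiv.Perm (H ⧸ Z) :=
  (MulAction.toPermHom (H ⧸ Z) (H ⧸ Z)).comp (QuotientGroup.mk' Z)

theorem lact_one {H : Type} [Group H] (Z : Subgroup H) [Z.Normal] (v : H) :
    lact Z v 1 ≠ 1 ↔ v ∉ Z := by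
  have h1 : lact Z v 1 = (QuotientGroup.mk v : H ⧸ Z) := by
    change (QuotientGroup.mk v : H ⧸ Z) * 1 = _
    rw [mul_one]
  rw [h1, ne_eq, QuotientGroup.eq_one_iff]

/-- the action on the quotient by conjugation -/
def cact {H : Type} [Group H] (Z : Subgroup H) [Z.Normal] : H →* Equiv.Perm (H ⧸ Z) :=
  (MulAut.toPerm (H ⧸ Z)).comp (MulAut.conj.comp (QuotientGroup.mk' Z))

theorem cact_inv {H : Type} [Group H] (Z : Subgroup H) [Z.Normal] (v w : H) :
    cact Z v (QuotientGroup.mk w : H ⧸ Z)⁻¹ ≠ (QuotientGroup.mk w : H ⧸ Z)⁻¹ ↔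
      w * v * w⁻¹ * v⁻¹ ∉ Z := by
  have h1 : cact Z v (QuotientGroup.mk w : H ⧸ Z)⁻¹ =
      (QuotientGroup.mk v : H ⧸ Z) * (QuotientGroup.mk w : H ⧸ Z)⁻¹ *
        (QuotientGroup.mk v : H ⧸ Z)⁻¹ := rfl
  rw [h1, ← QuotientGroup.eq_one_iff (N := Z)]
  simp only [QuotientGroup.mk_mul, QuotientGroup.mk_inv]
  refine not_congr ⟨fun h => ?_, fun h => ?_⟩
  · have h2 : (QuotientGroup.mk w : H ⧸ Z) * (QuotientGroup.mk v : H ⧸ Z) *
        (QuotientGroup.mk w : H ⧸ Z)⁻¹ * (QuotientGroup.mk v : H ⧸ Z)⁻¹ =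
        (QuotientGroup.mk w : H ⧸ Z) * ((QuotientGroup.mk v : H ⧸ Z) *
        (QuotientGroup.mk w : H ⧸ Z)⁻¹ * (QuotientGroup.mk v : H ⧸ Z)⁻¹) := by group
    rw [h2, h, mul_inv_cancel]
  · have h2 : (QuotientGroup.mk v : H ⧸ Z) * (QuotientGroup.mk w : H ⧸ Z)⁻¹ *
        (QuotientGroup.mk v : H ⧸ Z)⁻¹ = (QuotientGroup.mk w : H ⧸ Z)⁻¹ *
        ((QuotientGroup.mk w : H ⧸ Z) * (QuotientGroup.mk v : H ⧸ Z) *
        (QuotientGroup.mk w : H ⧸ Z)⁻¹ * (QuotientGroup.mk v : H ⧸ Z)⁻¹) := by group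
    rw [h2, h, mul_one]

theorem pw_mem {G : Type} [Group G] {e : ℕ} {u : G} (hu : u ∈ pw G e) (K : Subgroup G)
    (hK : ∀ g : G, g ^ e ∈ K) : u ∈ K := by
  refine (Subgroup.closure_le K).2 ?_ hu
  rintro x ⟨h, rfl⟩
  exact hK h

end X_SEQ

open X_SEQ in
theorem p_SEQ (hAVO : Stmt_AVO) (hHYP : Stmt_HYP) : Stmt_SEQ := by
  intro k G _ s hs0 hs I _ H _ _ φ p B z hφ hB hp hz hI
  choose Z hZn hZv hZw using fun i => hHYP (H i) (p i) (hp i).1 (hp i).2.2
  have hZn' := hZn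
  obtain ⟨b, hb⟩ : ∃ b, b = 64 * (k + 1) ^ 2 * B ^ 13 := ⟨_, rfl⟩
  rw [← hb]
  have hbe : ∀ e, e ≤ B → 64 * (k + 1) ^ 2 * B ^ 12 * e ≤ b := by
    intro e he
    rw [hb, pow_succ B 12, ← mul_assoc]
    exact Nat.mul_le_mul_left _ he
  suffices hmain : ∀ es : List ℕ, es ≠ [] → (∀ e ∈ es, e ≤ B ∧ ∀ i, Nat.Coprime (p i) e) →
      ∃ w : G, w ∈ ball (Set.range s) (4 ^ es.length * b) ∧
      (∀ e ∈ es, ∀ K : Subgroup G, K.Normal → (∀ g : G, g ^ e ∈ K) → w ∈ K) ∧
        ∀ i, φ i w ∉ Z i by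
    intro es hes he
    obtain ⟨w, h1, h2, h3⟩ := hmain es hes he
    exact ⟨w, h1, h2, fun i hi => h3 i (by rw [hi]; exact (Z i).one_mem)⟩
  intro es
  induction es with
  | nil => intro h; exact absurd rfl h
  | cons e es ih =>
    intro _ he
    obtain ⟨heB, hep⟩ := he e List.mem_cons_self
    by_cases hes : es = []
    · subst hes
      obtain ⟨u, hu1, hu2, hu3⟩ := hAVO k G s hs0 hs I H (fun i => H i ⧸ Z i) φ
        (fun i => lact (Z i)) (fun i => 1) p B e z hφ hB (by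
          intro i
          obtain ⟨v, ⟨m, hv⟩, hvZ⟩ := hZv i
          exact ⟨(hp i).1, (hp i).2.1, hep i, v, m, hv, (lact_one (Z i) v).2 hvZ⟩) hz hI
      refine ⟨u, ball_mono ?_ hu1, ?_, fun i => (lact_one (Z i) _).1 (hu3 i)⟩
      · refine (hbe e heB).trans ?_
        exact Nat.le_mul_of_pos_left _ (by positivity)
      · intro e' he' K _ hK
        rw [List.mem_singleton] at he'
        subst he'
        exact pw_mem hu2 K hK
    · obtain ⟨w, hw1, hw2, hw3⟩ := ih hes (fun e' he' => he e' (List.mem_cons_of_mem _ he'))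
      obtain ⟨u, hu1, hu2, hu3⟩ := hAVO k G s hs0 hs I H (fun i => H i ⧸ Z i) φ
        (fun i => cact (Z i)) (fun i => (QuotientGroup.mk (φ i w) : H i ⧸ Z i)⁻¹)
        p B e z hφ hB (by
          intro i
          obtain ⟨v, ⟨m, hv⟩, hvZ⟩ : ∃ v ∈ pel (p i) (H i),
              φ i w * v * (φ i w)⁻¹ * v⁻¹ ∉ Z i := by
            by_contra hcon
            push Not at hcon
            exact hw3 i (hZw i _ hcon)
          exact ⟨(hp i).1, (hp i).2.1, hep i, v, m, hv, (cact_inv (Z i) v _).2 hvZ⟩) hz hI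
      refine ⟨w * u * w⁻¹ * u⁻¹, ?_, ?_, ?_⟩
      · have hu1' := ball_mono (hbe e heB) hu1
        refine ball_mono ?_ (mul_mem_ball (mul_mem_ball (mul_mem_ball hw1 hu1')
          (inv_mem_ball hw1)) (inv_mem_ball hu1'))
        have hn : 1 ≤ es.length := by
          rcases es with _ | ⟨a, l⟩
          · exact absurd rfl hes
          · simp
        have h4 : 4 ≤ 4 ^ es.length := by
          calc 4 = 4 ^ 1 := by norm_num
            _ ≤ 4 ^ es.length := Nat.pow_le_pow_right (by norm_num) hn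
        rw [List.length_cons, pow_succ]
        nlinarith [Nat.mul_le_mul_right b h4]
      · intro e' he' K hKn hK
        rcases List.mem_cons.1 he' with h | h
        · subst h
          have hu := pw_mem hu2 K hK
          exact K.mul_mem (hKn.conj_mem u hu w) (K.inv_mem hu)
        · have hw := hw2 e' h K hKn hK
          have h5 : w * u * w⁻¹ * u⁻¹ = w * (u * w⁻¹ * u⁻¹) := by group
          rw [h5]
          exact K.mul_mem hw (hKn.conj_mem _ (K.inv_mem hw) u)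
      · intro i
        have h6 := (cact_inv (Z i) (φ i u) (φ i w)).1 (hu3 i)
        simpa only [map_mul, map_inv] using h6

end Pool.Agent.Work.LIN
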