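import Pool.Agent.Work.MP_7f9bcc_LIN.Interface

set_option autoImplicit false

/-! # THEOREM LIN, block SPA: reduction to rational function fields -/

namespace Pool.Agent.Work.LIN

theorem p_SPA (hLFT : Stmt_LFT) (hRSC : Stmt_RSC) (hSPF : Stmt_SPF) : Stmt_SPA := by
  intro G _ hfg K _ _ d ρ
  obtain ⟨S, hS⟩ := hfg.out
  have hE : (((S : Set G) ×ˢ (Set.univ : Set (Fin d × Fin d))).image
      (fun x => (ρ x.1 : Matrix (Fin d) (Fin d) K) x.2.1 x.2.2) ∪
      ((S : Set G) ×ˢ (Set.univ : Set (Fin d × Fin d))).image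
      (fun x => (((ρ x.1)⁻¹ : GL (Fin d) K) : Matrix (Fin d) (Fin d) K) x.2.1 x.2.2)).Finite :=
    ((S.finite_toSet.prod Set.finite_univ).image _).union
      ((S.finite_toSet.prod Set.finite_univ).image _)
  obtain ⟨t, F, iF, iA, iFr, K₁, iK₁, iAK, iFD, j, hj⟩ := hSPF K _ hE
  obtain ⟨σ₁, hσ₁⟩ := hLFT G K₁ K j d ρ (S : Set G) j.injective hS (by
    intro g hg a b
    exact ⟨hj _ (Or.inl ⟨(g, (a, b)), ⟨hg, Set.mem_univ _⟩, rfl⟩),
      hj _ (Or.inr ⟨(g, (a, b)), ⟨hg, Set.mem_univ _⟩, rfl⟩)⟩)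
  obtain ⟨D, θ, hθ⟩ := hRSC F K₁ d
  refine ⟨t, D, F, iF, iA, iFr, θ.comp σ₁, fun g => ?_⟩
  rw [MonoidHom.comp_apply, map_eq_one_iff θ hθ, ← hσ₁ g]
  constructor
  · intro h
    rw [h, map_one]
  · intro h
    apply Units.ext
    ext a b
    have h1 := congrArg (fun M : GL (Fin d) K => (M : Matrix (Fin d) (Fin d) K) a b) h
    have h2 : j ((σ₁ g : Matrix (Fin d) (Fin d) K₁) a b) = (1 : Matrix (Fin d) (Fin d) K) a b := h1
    apply j.injective
    rw [h2]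
    by_cases hab : a = b
    · subst hab
      simp
    · simp [Matrix.one_apply_ne hab]

end Pool.Agent.Work.LIN
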