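import Pool.Agent.Work.MP_7f9bcc_LIN.Interface

set_option autoImplicit false

namespace Pool.Agent.Work.LIN

namespace X_SPB

/-- a common denominator of finitely many elements -/
theorem common (R F : Type) [CommRing R] [IsDomain R] [Field F] [Algebra R F]
    [IsFractionRing R F] (E : Set F) (hE : E.Finite) :
    ∃ h : R, h ≠ 0 ∧ ∀ x ∈ E, ∃ a : R, algebraMap R F h * x = algebraMap R F a := by
  obtain ⟨b, hb⟩ := IsLocalization.exist_integer_multiples_of_finset (nonZeroDivisors R)
    hE.toFinset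
  refine ⟨(b : R), nonZeroDivisors.coe_ne_zero b, fun x hx => ?_⟩
  obtain ⟨a, ha⟩ := hb x (by simpa using hx)
  refine ⟨a, ?_⟩
  rw [ha, Algebra.smul_def]

/-- a nonzero element of `R₀[1/h]` survives in `ZMod q` for all large primes `q` -/
theorem survive (t : ℕ) (h : MvPolynomial (Fin t) ℤ) (hh : h ≠ 0)
    (z : Localization.Away h) (hz : z ≠ 0) :
    ∃ q₀ : ℕ, ∀ q, q₀ ≤ q → q.Prime → ∃ ε : Localization.Away h →+* ZMod q, ε z ≠ 0 := by
  obtain ⟨a, s, rfl⟩ := IsLocalization.exists_mk'_eq (Submonoid.powers h) z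
  have ha : a ≠ 0 := by
    rintro rfl
    exact hz (IsLocalization.mk'_zero _)
  have hah : a * h ≠ 0 := mul_ne_zero ha hh
  obtain ⟨ξ, hξ⟩ : ∃ ξ : Fin t → ℤ, MvPolynomial.eval ξ (a * h) ≠ 0 := by
    by_contra hcon
    push Not at hcon
    apply hah
    apply MvPolynomial.funext
    intro x
    rw [hcon x, map_zero]
  refine ⟨(MvPolynomial.eval ξ (a * h)).natAbs + 1, fun q hq hqp => ?_⟩
  haveI : Fact q.Prime := ⟨hqp⟩
  set ε : MvPolynomial (Fin t) ℤ →+* ZMod q :=
    (Int.castRingHom (ZMod q)).comp (MvPolynomial.eval ξ) with hε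
  have hne : ε (a * h) ≠ 0 := by
    intro h0
    rw [hε, RingHom.comp_apply, eq_intCast, ZMod.intCast_zmod_eq_zero_iff_dvd] at h0
    have h1 : q ∣ (MvPolynomial.eval ξ (a * h)).natAbs := Int.natCast_dvd.mp h0
    have h2 := Nat.le_of_dvd (Int.natAbs_pos.mpr hξ) h1
    omega
  rw [map_mul] at hne
  have hεa : ε a ≠ 0 := left_ne_zero_of_mul hne
  have hεh : IsUnit (ε h) := (right_ne_zero_of_mul hne).isUnit
  refine ⟨IsLocalization.Away.lift h hεh, fun h0 => hεa ?_⟩
  have h3 := IsLocalization.mk'_spec (Localization.Away h) a s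
  have h4 := congrArg (IsLocalization.Away.lift h hεh : Localization.Away h →+* ZMod q) h3
  rw [map_mul, h0, zero_mul, IsLocalization.Away.lift_eq] at h4
  exact h4.symm

end X_SPB

open X_SPB in
theorem p_SPB (hLFT : Stmt_LFT) : Stmt_SPB := by
  intro G _ _ t D F _ _ _ σ g hg
  obtain ⟨S, hS⟩ := (Group.fg_def.mp (inferInstance : Group.FG G))
  -- the entries
  set E : Set F := ⋃ x ∈ (S : Set G), ((Set.range fun ab : Fin D × Fin D =>
      (σ x : Matrix (Fin D) (Fin D) F) ab.1 ab.2) ∪
      (Set.range fun ab : Fin D × Fin D =>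
      (((σ x)⁻¹ : GL (Fin D) F) : Matrix (Fin D) (Fin D) F) ab.1 ab.2)) with hEdef
  have hE : E.Finite := by
    rw [hEdef]
    refine Set.Finite.biUnion S.finite_toSet ?_
    intro x _
    exact (Set.finite_range _).union (Set.finite_range _)
  obtain ⟨h, hh, hden⟩ := common (MvPolynomial (Fin t) ℤ) F E hE
  have hinj0 : Function.Injective (algebraMap (MvPolynomial (Fin t) ℤ) F) :=
    IsFractionRing.injective _ _
  have hunit : IsUnit (algebraMap (MvPolynomial (Fin t) ℤ) F h) := by
    apply IsUnit.mk0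
    intro h0
    exact hh (hinj0 (by rw [h0, map_zero]))
  set j : Localization.Away h →+* F := IsLocalization.Away.lift h hunit with hj
  have hpow : Submonoid.powers h ≤ nonZeroDivisors (MvPolynomial (Fin t) ℤ) :=
    powers_le_nonZeroDivisors_of_noZeroDivisors hh
  have hinj1 : Function.Injective (algebraMap (MvPolynomial (Fin t) ℤ) (Localization.Away h)) :=
    IsLocalization.injective _ hpow
  have hjalg : ∀ a, j (algebraMap _ _ a) = algebraMap (MvPolynomial (Fin t) ℤ) F a := by
    intro a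
    rw [hj, IsLocalization.Away.lift_eq]
  have hjinj : Function.Injective j := by
    rw [injective_iff_map_eq_zero]
    intro z hz
    obtain ⟨a, s, rfl⟩ := IsLocalization.exists_mk'_eq (Submonoid.powers h) z
    have h3 := IsLocalization.mk'_spec (Localization.Away h) a s
    have h4 := congrArg j h3
    rw [map_mul, hz, zero_mul, hjalg] at h4
    have h5 : a = 0 := hinj0 (by rw [← h4, map_zero])
    rw [h5, IsLocalization.mk'_zero]
  have hrange : ∀ x ∈ E, x ∈ j.range := by
    intro x hx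
    obtain ⟨a, ha⟩ := hden x hx
    refine ⟨IsLocalization.mk' (Localization.Away h) a ⟨h, Submonoid.mem_powers h⟩, ?_⟩
    have h3 := IsLocalization.mk'_spec (Localization.Away h) a
      (⟨h, Submonoid.mem_powers h⟩ : Submonoid.powers h)
    have h4 := congrArg j h3
    rw [map_mul, hjalg, hjalg, ← ha, mul_comm] at h4
    exact mul_left_cancel₀ hunit.ne_zero h4
  obtain ⟨σ', hσ'⟩ := hLFT G (Localization.Away h) F j D σ (S : Set G) hjinj hS (by
    intro x hx a b
    refine ⟨hrange _ ?_, hrange _ ?_⟩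
    · rw [hEdef]
      exact Set.mem_biUnion hx (Or.inl ⟨(a, b), rfl⟩)
    · rw [hEdef]
      exact Set.mem_biUnion hx (Or.inr ⟨(a, b), rfl⟩))
  have hne : σ' g ≠ 1 := by
    intro h1
    apply hg
    rw [← hσ' g, h1, map_one]
  obtain ⟨a, b, hab⟩ : ∃ a b, (σ' g : Matrix (Fin D) (Fin D) (Localization.Away h)) a b ≠
      (1 : Matrix (Fin D) (Fin D) (Localization.Away h)) a b := by
    by_contra hcon
    push Not at hcon
    apply hne
    apply Units.ext
    ext a b
    exact hcon a b
  obtain ⟨q₀, hq₀⟩ := survive t h hh _ (sub_ne_zero.mpr hab)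
  refine ⟨q₀, fun q hq hqp => ?_⟩
  obtain ⟨ε, hε⟩ := hq₀ q hq hqp
  refine ⟨(Matrix.GeneralLinearGroup.map ε).comp σ', fun h1 => hε ?_⟩
  rw [map_sub, sub_eq_zero]
  have h2 : ((Matrix.GeneralLinearGroup.map ε (σ' g) : GL (Fin D) (ZMod q)) :
      Matrix (Fin D) (Fin D) (ZMod q)) a b = (1 : Matrix (Fin D) (Fin D) (ZMod q)) a b := by
    have h3 : Matrix.GeneralLinearGroup.map ε (σ' g) = 1 := h1
    rw [h3]
    rfl
  rw [Matrix.GeneralLinearGroup.map_apply] at h2
  rw [h2]
  by_cases hc : a = b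
  · subst hc
    simp
  · simp [Matrix.one_apply_ne hc]

end Pool.Agent.Work.LIN
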