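import Pool.Agent.Work.MP_7f9bcc_LIN.Interface

/-! # THEOREM LIN, block SPF: finitely generated fields -/

set_option autoImplicit false

namespace Pool.Agent.Work.LIN

namespace X_SPF

/-- a maximal algebraically independent family in a finite set -/
lemma exists_family {K : Type} [Field K] [CharZero K] (E : Set K) (hE : E.Finite) :
    ∃ (t : ℕ) (x : Fin t → K), AlgebraicIndependent ℤ x ∧
      ∀ e ∈ E, IsAlgebraic (Algebra.adjoin ℤ (Set.range x)) e := by
  classical
  let P : ℕ → Prop := fun t => ∃ x : Fin t → K, AlgebraicIndependent ℤ x ∧ ∀ i, x i ∈ E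
  have h0 : P 0 := ⟨Fin.elim0, by
    rw [algebraicIndependent_empty_type_iff]
    exact (algebraMap ℤ K).injective_int, fun i => i.elim0⟩
  have hb : ∀ t, P t → t ≤ E.ncard := by
    rintro t ⟨x, hx, hxE⟩
    have hinj : Function.Injective x := hx.injective
    have h1 : (Set.range x).ncard ≤ E.ncard :=
      Set.ncard_le_ncard (by rintro _ ⟨i, rfl⟩; exact hxE i) hE
    have h2 : (Set.range x).ncard = t := by
      rw [← Set.image_univ, Set.ncard_image_of_injective _ hinj, Set.ncard_univ, Nat.card_fin]
    omega
  have hg := Nat.findGreatest_spec (P := P) (Nat.zero_le E.ncard) h0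
  set t := Nat.findGreatest P E.ncard with ht
  obtain ⟨x, hx, hxE⟩ := hg
  refine ⟨t, x, hx, fun e he => ?_⟩
  by_contra hcon
  have h1 := (hx.option_iff_transcendental e).2 hcon
  have h2 : P (t + 1) := by
    refine ⟨(fun o : Option (Fin t) => o.elim e x) ∘ finSuccEquiv t,
      h1.comp _ (finSuccEquiv t).injective, fun i => ?_⟩
    rw [Function.comp_apply]
    cases h : finSuccEquiv t i with
    | none => exact he
    | some j => exact hxE j
  have h3 := Nat.le_findGreatest (hb _ h2) h2
  omega

end X_SPF

theorem p_SPF : Stmt_SPF := by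
  intro K _ _ E hE
  classical
  obtain ⟨t, x, hx, halg⟩ := X_SPF.exists_family E hE
  let R₀ := MvPolynomial (Fin t) ℤ
  let F := FractionRing R₀
  have hinj : Function.Injective (MvPolynomial.aeval x : R₀ →ₐ[ℤ] K).toRingHom :=
    algebraicIndependent_iff_injective_aeval.1 hx
  let φ : F →+* K := IsFractionRing.lift (A := R₀) (K := F) (L := K) hinj
  have hφ : ∀ r : R₀, φ (algebraMap R₀ F r) = MvPolynomial.aeval x r := fun r =>
    IsFractionRing.lift_algebraMap hinj r
  let _ : Algebra F K := φ.toAlgebra
  have hint : ∀ e ∈ E, IsIntegral F e := by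
    intro e he
    obtain ⟨p, hp0, hp⟩ := halg e he
    rw [← isAlgebraic_iff_isIntegral]
    let g : Algebra.adjoin ℤ (Set.range x) →+* F :=
      (algebraMap R₀ F).comp (hx.aevalEquiv.symm : _ ≃ₐ[ℤ] R₀).toRingHom
    have hgi : Function.Injective g := by
      have h1 : Function.Injective (algebraMap R₀ F) := IsFractionRing.injective R₀ F
      exact h1.comp hx.aevalEquiv.symm.injective
    have hg : φ.comp g = algebraMap (Algebra.adjoin ℤ (Set.range x)) K := by
      ext a
      have h1 : φ (g a) = MvPolynomial.aeval x (hx.aevalEquiv.symm a) := hφ _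
      rw [RingHom.comp_apply, h1]
      have h2 := hx.algebraMap_aevalEquiv (hx.aevalEquiv.symm a)
      rw [AlgEquiv.apply_symm_apply] at h2
      exact h2.symm
    refine ⟨p.map g, (Polynomial.map_ne_zero_iff hgi).2 hp0, ?_⟩
    rw [Polynomial.aeval_def, Polynomial.eval₂_map]
    have h3 : (algebraMap F K).comp g = algebraMap (Algebra.adjoin ℤ (Set.range x)) K := hg
    rw [h3]
    exact hp
  have : Finite E := hE
  have hfd : FiniteDimensional F (IntermediateField.adjoin F E) :=
    IntermediateField.finiteDimensional_adjoin hint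
  refine ⟨t, F, inferInstance, inferInstance, inferInstance, IntermediateField.adjoin F E,
    inferInstance, inferInstance, hfd, (IntermediateField.adjoin F E).val.toRingHom, ?_⟩
  intro e he
  exact ⟨⟨e, IntermediateField.subset_adjoin F E he⟩, rfl⟩

end Pool.Agent.Work.LIN
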