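import Pool.Agent.Work.MP_7f9bcc_LIN.Interface
import Pool.Agent.Work.MP_7f9bcc_LAG.CORE
import Pool.Agent.Work.MP_7f9bcc_LAG.FIN

set_option autoImplicit false

/-! # THEOREM LIN, block TOP: the theorem -/

namespace Pool.Agent.Work.LIN

open Pool.Agent.Work.LAG (ball autGrowth ball_mono one_mem_ball mul_mem_ball pow_mem_ball)

namespace X_TOP

/-- a solvable subgroup of finite index in the image of a subgroup of finite index -/
theorem vsol_of {G Q : Type} [Group G] [Group Q] (N H : Subgroup G) (hNH : N ≤ H)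
    (hN : N.FiniteIndex) (ρ : H →* Q)
    (h : VSol (ρ.comp (Subgroup.inclusion hNH)).range) : VSol ρ.range := by
  obtain ⟨B, hB, hBs⟩ := h
  have hle : (ρ.comp (Subgroup.inclusion hNH)).range ≤ ρ.range := by
    rintro _ ⟨x, rfl⟩
    exact ⟨Subgroup.inclusion hNH x, rfl⟩
  have hinj : Function.Injective (Subgroup.inclusion hle) := Subgroup.inclusion_injective hle
  refine ⟨B.map (Subgroup.inclusion hle), ?_, ?_⟩
  · refine ⟨?_⟩
    rw [Subgroup.index_map, (MonoidHom.ker_eq_bot_iff _).2 hinj, sup_bot_eq]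
    refine mul_ne_zero hB.index_ne_zero ?_
    have h1 : (Subgroup.inclusion hle).range = (N.subgroupOf H).map ρ.rangeRestrict := by
      ext y
      constructor
      · rintro ⟨⟨_, x, rfl⟩, rfl⟩
        exact ⟨Subgroup.inclusion hNH x, x.2, rfl⟩
      · rintro ⟨x, hx, rfl⟩
        exact ⟨⟨ρ x, ⟨⟨x.1, hx⟩, rfl⟩⟩, rfl⟩
    rw [h1]
    intro h0
    have h2 := Subgroup.index_map_dvd (N.subgroupOf H) ρ.rangeRestrict_surjective
    rw [h0, zero_dvd_iff] at h2
    have h3 : (N.subgroupOf H).index ∣ N.index := Subgroup.relIndex_dvd_index_of_le hNH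
    rw [h2, zero_dvd_iff] at h3
    exact hN.index_ne_zero h3
  · have hs : Function.Surjective ((Subgroup.inclusion hle).subgroupMap B) :=
      MonoidHom.subgroupMap_surjective _ _
    exact Group.isSolvable_of_surjective hs

end X_TOP

open X_TOP in
theorem p_TOP (hGRW : Stmt_GRW) (hRCH : Stmt_RCH) (hTRF : Stmt_TRF) : Stmt_TOP := by
  intro G _ S hSf hS H hH K _ _ d ρ hns
  have hGfg : Group.FG G := ⟨⟨hSf.toFinset, by simpa using hS⟩⟩
  obtain ⟨N, hNH, hNc, hNi⟩ := Pool.Agent.Work.LAG.stmt_CORE G H hH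
  have hNfg : Group.FG N := inferInstance
  have hR : Rich N := hRCH N K d (ρ.comp (Subgroup.inclusion hNH))
    fun h => hns (vsol_of N H hNH hNi ρ h)
  obtain ⟨T, L, hTf, hT, hTL⟩ := hTRF G S hSf hS N hNc hNi
  obtain ⟨κ, n₀, hκ, hn₀⟩ := hGRW N T hTf hT hR
  refine ⟨κ / 4, (L + 1) * (n₀ + 2 * (L + 1)), by positivity, fun n hn => ?_⟩
  obtain ⟨m, hm⟩ : ∃ m, m = n / (L + 1) := ⟨_, rfl⟩
  have h1 : n₀ + 2 * (L + 1) ≤ m := by
    rw [hm, Nat.le_div_iff_mul_le (Nat.succ_pos L), Nat.mul_comm]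
    exact hn
  have h2 : (L + 1) * m ≤ n := by
    rw [hm]; exact Nat.mul_div_le n (L + 1)
  have h3 : n < (L + 1) * (m + 1) := by
    rw [hm]
    exact Nat.lt_mul_div_succ n (Nat.succ_pos L)
  have h4 : L * m ≤ n := le_trans (Nat.mul_le_mul_right m (Nat.le_succ L)) h2
  have h5 : n ≤ m ^ 2 := by nlinarith
  have hn1 : 1 ≤ n := by
    have : 1 ≤ (L + 1) * m := Nat.mul_pos (Nat.succ_pos L) (by omega)
    omega
  have h6 : Real.log n ≤ 2 * Real.log m := by
    have h7 : Real.log n ≤ Real.log ((m : ℝ) ^ 2) := by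
      apply Real.log_le_log (by exact_mod_cast hn1)
      exact_mod_cast h5
    rw [Real.log_pow] at h7
    exact_mod_cast h7
  have h7 : 0 ≤ Real.log n := Real.log_natCast_nonneg n
  calc Real.exp (κ / 4 * Real.log n ^ 2) ≤ Real.exp (κ * Real.log m ^ 2) := by
        apply Real.exp_le_exp.2
        have h8 : Real.log n ^ 2 ≤ (2 * Real.log m) ^ 2 := pow_le_pow_left₀ h7 h6 2
        nlinarith
    _ ≤ autGrowth T m := hn₀ m (by omega)
    _ ≤ autGrowth S (L * m) := by exact_mod_cast hTL m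
    _ ≤ autGrowth S n := by
        exact_mod_cast Pool.Agent.Work.LAG.FIN.autGrowth_mono hSf h4

end Pool.Agent.Work.LIN
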