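import Pool.Agent.Work.MP_7f9bcc_LIN.Interface

set_option autoImplicit false

/-! # THEOREM LIN, block TRF: characteristic subgroups of finite index -/

namespace Pool.Agent.Work.LIN

open Pool.Agent.Work.LAG (ball autGrowth ball_mono one_mem_ball mul_mem_ball pow_mem_ball
  ball_finite exists_mem_ball)

namespace X_TRF

theorem inv_mem_ball {G : Type} [Group G] {S : Set G} {n : ℕ} {x : G} (h : x ∈ ball S n) :
    x⁻¹ ∈ ball S n := by
  obtain ⟨l, hl, h1, h2⟩ := h
  refine ⟨(l.map (fun y => y⁻¹)).reverse, by simpa using hl, ?_, ?_⟩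
  · intro y hy
    rw [List.mem_reverse, List.mem_map] at hy
    obtain ⟨z, hz, rfl⟩ := hy
    rw [inv_inv]
    exact (h1 z hz).symm
  · rw [← h2, List.prod_inv_reverse]

theorem map_ball {G : Type} [Group G] {S : Set G} {N : Subgroup G} {T : Set N} {L : ℕ}
    (hT : ∀ t ∈ T, (t : G) ∈ ball S L) {n : ℕ} {x : N} (hx : x ∈ ball T n) :
    (x : G) ∈ ball S (L * n) := by
  have key : ∀ l : List N, (∀ y ∈ l, y ∈ T ∨ y⁻¹ ∈ T) →
      ((l.prod : N) : G) ∈ ball S (L * l.length) := by
    intro l
    induction l with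
    | nil =>
      intro _
      exact one_mem_ball _
    | cons y l ih =>
      intro hl
      have h1 := ih fun z hz => hl z (List.mem_cons_of_mem _ hz)
      have h2 : (y : G) ∈ ball S L := by
        rcases hl y List.mem_cons_self with h | h
        · exact hT y h
        · have h3 := inv_mem_ball (hT _ h)
          rw [Subgroup.coe_inv, inv_inv] at h3
          exact h3
      have h4 := mul_mem_ball h2 h1
      have e : L * (y :: l).length = L + L * l.length := by
        rw [List.length_cons, Nat.mul_succ, Nat.add_comm]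
      rw [List.prod_cons, e]
      exact h4
  obtain ⟨l, hl, h1, h2⟩ := hx
  rw [← h2]
  exact ball_mono (Nat.mul_le_mul_left L hl) (key l h1)

theorem orbit_of {G : Type} [Group G] (N : Subgroup G) (hN : N.Characteristic) (x y : N)
    (h : (x : G) ∈ MulAction.orbit (MulAut G) (y : G)) : x ∈ MulAction.orbit (MulAut N) y := by
  obtain ⟨α, hα⟩ := h
  have h1 : N.map (α : G →* G) = N := Subgroup.characteristic_iff_map_eq.1 hN α
  let β : MulAut N := (MulEquiv.subgroupMap α N).trans (MulEquiv.subgroupCongr h1)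
  refine ⟨β, ?_⟩
  apply Subtype.ext
  exact hα

end X_TRF

open X_TRF in
theorem p_TRF : Stmt_TRF := by
  intro G _ S hSf hS N hNc hNi
  have hGfg : Group.FG G := ⟨⟨hSf.toFinset, by simpa using hS⟩⟩
  have hNfg : Group.FG N := inferInstance
  obtain ⟨T, hT⟩ := hNfg.out
  choose f hf using fun t : N => exists_mem_ball hS (t : G)
  have hTL : ∀ t ∈ (T : Set N), (t : G) ∈ ball S (T.sup f) := fun t ht =>
    ball_mono (Finset.le_sup (f := f) ht) (hf t)
  refine ⟨(T : Set N), T.sup f, T.finite_toSet, hT, fun n => ?_⟩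
  have hrep : ∀ c ∈ (fun g : N => (Quotient.mk (MulAction.orbitRel (MulAut N) N) g)) ''
      ball (T : Set N) n, ∃ x ∈ ball (T : Set N) n,
      Quotient.mk (MulAction.orbitRel (MulAut N) N) x = c := fun c hc => hc
  choose! r hr hq using hrep
  unfold autGrowth
  refine Set.ncard_le_ncard_of_injOn
    (fun c => Quotient.mk (MulAction.orbitRel (MulAut G) G) ((r c : N) : G)) ?_ ?_
    ((ball_finite hSf _).image _)
  · intro c hc
    exact ⟨_, map_ball hTL (hr c hc), rfl⟩
  · intro c hc d hd hcd
    have h1 : ((r c : N) : G) ∈ MulAction.orbit (MulAut G) ((r d : N) : G) := Quotient.exact hcd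
    have h2 := orbit_of N hNc _ _ h1
    rw [← hq c hc, ← hq d hd]
    exact Quotient.sound h2

end Pool.Agent.Work.LIN
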