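import Pool.Agent.Work.MP_7f9bcc_LIN.Interface

set_option autoImplicit false

/-! # THEOREM LIN (MP_7f9bcc_al), block UNI (helper79): groups of matrices of order a power of the
characteristic -/

namespace Pool.Agent.Work.LIN

namespace X_UNI

/-- The derived series of a finite `p`-group acts trivially from the step `finrank V` on. -/
theorem aux {p : ℕ} [Fact p.Prime] {U : Type} [Group U] [Finite U] (hU : IsPGroup p U) (n : ℕ) :
    ∀ (V : Type) [AddCommGroup V] [Module (ZMod p) V] [Module.Finite (ZMod p) V]
      (φ : U →* Module.End (ZMod p) V), Module.finrank (ZMod p) V ≤ n →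
      ∀ u ∈ derivedSeries U n, φ u = 1 := by
  induction n with
  | zero =>
    intro V _ _ _ φ h u _
    have h1 : Subsingleton V := Module.finrank_zero_iff.mp (Nat.le_zero.mp h)
    exact LinearMap.ext fun x => Subsingleton.elim _ _
  | succ n ih =>
    intro V _ _ _ φ h u hu
    rcases subsingleton_or_nontrivial V with h1 | h1
    · exact LinearMap.ext fun x => Subsingleton.elim _ _
    -- a fixed vector
    let act : MulAction U V :=
      { smul := fun u v => φ u v
        one_smul := fun v => by
          change φ 1 v = v
          rw [map_one, Module.End.one_apply]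
        mul_smul := fun a b v => by
          change φ (a * b) v = φ a (φ b v)
          rw [map_mul, Module.End.mul_apply] }
    have hfin : Finite V := Module.finite_of_finite (ZMod p)
    have hdvd : p ∣ Nat.card V := by
      rw [Module.natCard_eq_pow_finrank (K := ZMod p), Nat.card_zmod]
      exact dvd_pow_self p (Module.finrank_pos).ne'
    obtain ⟨f, hf, hf0⟩ := hU.exists_fixed_point_of_prime_dvd_card_of_fixed_point V hdvd
      (a := (0 : V)) (fun a => map_zero (φ a))
    have hfix : ∀ a : U, φ a f = f := fun a => hf a
    let L : Submodule (ZMod p) V := Submodule.span (ZMod p) {f}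
    have hL1 : ∀ (a : U), ∀ x ∈ L, φ a x = x := by
      intro a x hx
      obtain ⟨c, rfl⟩ := Submodule.mem_span_singleton.mp hx
      rw [map_smul, hfix]
    have hL : ∀ a : U, L ≤ L.comap (φ a) := by
      intro a x hx
      rw [Submodule.mem_comap, hL1 a x hx]
      exact hx
    let φ' : U →* Module.End (ZMod p) (V ⧸ L) :=
      { toFun := fun a => L.mapQ L (φ a) (hL a)
        map_one' := by
          refine LinearMap.ext fun x => ?_
          obtain ⟨x, rfl⟩ := Submodule.mkQ_surjective L x
          rw [Submodule.mkQ_apply, Submodule.mapQ_apply, map_one, Module.End.one_apply,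
            Module.End.one_apply]
        map_mul' := fun a b => by
          refine LinearMap.ext fun x => ?_
          obtain ⟨x, rfl⟩ := Submodule.mkQ_surjective L x
          rw [Submodule.mkQ_apply, Submodule.mapQ_apply, map_mul, Module.End.mul_apply,
            Module.End.mul_apply, Submodule.mapQ_apply, Submodule.mapQ_apply] }
    have hfr : Module.finrank (ZMod p) (V ⧸ L) ≤ n := by
      have h2 := Submodule.finrank_quotient_add_finrank L
      have h3 : Module.finrank (ZMod p) L = 1 := finrank_span_singleton hf0.symm
      omega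
    have key : ∀ a ∈ derivedSeries U n, ∀ x, φ a x - x ∈ L := by
      intro a ha x
      have h2 := ih (V ⧸ L) φ' hfr a ha
      have h3 := congrArg (fun g : Module.End (ZMod p) (V ⧸ L) => g (L.mkQ x)) h2
      have h4 : (Submodule.Quotient.mk (φ a x) : V ⧸ L) = Submodule.Quotient.mk x := h3
      exact (Submodule.Quotient.eq L).mp h4
    have hcomm : ∀ a ∈ derivedSeries U n, ∀ b ∈ derivedSeries U n, φ (a * b) = φ (b * a) := by
      intro a ha b hb
      refine LinearMap.ext fun x => ?_
      rw [map_mul, map_mul, Module.End.mul_apply, Module.End.mul_apply]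
      have h2 : φ b x = x + (φ b x - x) := by abel
      have h3 : φ a x = x + (φ a x - x) := by abel
      rw [h2, map_add, hL1 a _ (key b hb x)]
      nth_rewrite 2 [h3]
      rw [map_add, hL1 b _ (key a ha x)]
      abel
    have hker : derivedSeries U (n + 1) ≤ φ.ker := by
      rw [derivedSeries_succ, Subgroup.commutator_le]
      intro a ha b hb
      rw [MonoidHom.mem_ker, commutatorElement_def]
      have h2 : a * b * a⁻¹ * b⁻¹ = a * b * (b * a)⁻¹ := by group
      rw [h2, map_mul, hcomm a ha b hb, ← map_mul, mul_inv_cancel, map_one]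
    exact hker hu

end X_UNI

theorem p_UNI : Stmt_UNI := by
  intro D p _ U hU
  let φ : U →* Module.End (ZMod p) (Fin D → ZMod p) :=
    ((Matrix.toLinAlgEquiv' : Matrix (Fin D) (Fin D) (ZMod p) ≃ₐ[ZMod p] _) :
      Matrix (Fin D) (Fin D) (ZMod p) →* _).comp
      ((Units.coeHom (Matrix (Fin D) (Fin D) (ZMod p))).comp U.subtype)
  rw [eq_bot_iff]
  intro u hu
  have h1 := X_UNI.aux hU D (Fin D → ZMod p) φ (by rw [Module.finrank_fin_fun]) u hu
  have h2 : Matrix.toLinAlgEquiv' ((u.1 : GL (Fin D) (ZMod p)) : Matrix (Fin D) (Fin D) (ZMod p)) =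
      (1 : Module.End (ZMod p) (Fin D → ZMod p)) := h1
  rw [← map_one (Matrix.toLinAlgEquiv' : Matrix (Fin D) (Fin D) (ZMod p) ≃ₐ[ZMod p] _)] at h2
  have h3 := Matrix.toLinAlgEquiv'.injective h2
  rw [Subgroup.mem_bot]
  exact Subtype.ext (Units.ext h3)

end Pool.Agent.Work.LIN
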