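import Pool.Agent.Work.MP_7f9bcc_LIN.Interface
import Pool.Agent.Work.MP_7f9bcc_LAG.TOP

set_option autoImplicit false

/-! # THEOREM LIN (MP_7f9bcc_al): assembly -/

namespace Pool.Agent.Work.LIN

open Pool.Agent.Work.LAG (ball autGrowth)

/-- the growth bound beats every linear function -/
theorem superlinear_of_exp (a : ℕ → ℕ) (κ : ℝ) (n₀ : ℕ) (hκ : 0 < κ)
    (h : ∀ n, n₀ ≤ n → Real.exp (κ * Real.log n ^ 2) ≤ a n) :
    ∀ C : ℕ, ∃ n₁ : ℕ, ∀ n ≥ n₁, C * n ≤ a n := by
  intro C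
  obtain ⟨m, hm⟩ := exists_nat_ge (Real.exp (2 / κ))
  refine ⟨max (max n₀ C) (max m 1), fun n hn => ?_⟩
  have h0 : n₀ ≤ n := le_trans (le_trans (le_max_left _ _) (le_max_left _ _)) hn
  have hC : C ≤ n := le_trans (le_trans (le_max_right _ _) (le_max_left _ _)) hn
  have h2 : m ≤ n := le_trans (le_trans (le_max_left _ _) (le_max_right _ _)) hn
  have h3 : 1 ≤ n := le_trans (le_trans (le_max_right _ _) (le_max_right _ _)) hn
  have hn0 : (0 : ℝ) < n := by exact_mod_cast h3
  have h4 : 2 / κ ≤ Real.log n := by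
    rw [Real.le_log_iff_exp_le hn0]
    exact hm.trans (by exact_mod_cast h2)
  have h5 : 2 ≤ κ * Real.log n := by
    rw [div_le_iff₀ hκ] at h4
    linarith
  have h6 : 0 ≤ Real.log n := Real.log_nonneg (by exact_mod_cast h3)
  have h7 : 2 * Real.log n ≤ κ * Real.log n ^ 2 := by nlinarith
  have h8 : ((n : ℝ)) ^ 2 ≤ a n := by
    calc (n : ℝ) ^ 2 = Real.exp (2 * Real.log n) := by
          rw [two_mul, Real.exp_add, Real.exp_log hn0, sq]
      _ ≤ Real.exp (κ * Real.log n ^ 2) := Real.exp_le_exp.2 h7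
      _ ≤ a n := h n h0
  have h9 : n ^ 2 ≤ a n := by exact_mod_cast h8
  calc C * n ≤ n * n := Nat.mul_le_mul_right n hC
    _ = n ^ 2 := by ring
    _ ≤ a n := h9

theorem fin_b (hTOP : Stmt_TOP) (G : Type) [Group G] (S : Set G) (hSf : S.Finite)
    (hS : Subgroup.closure S = ⊤) (H : Subgroup G) (hH : H.FiniteIndex) (K : Type) [Field K]
    [CharZero K] (d : ℕ) (ρ : H →* GL (Fin d) K)
    (hab : ¬ ∃ B : Subgroup ρ.range, B.FiniteIndex ∧ ∀ x ∈ B, ∀ y ∈ B, x * y = y * x) :
    ∀ C : ℕ, ∃ n₀ : ℕ, ∀ n ≥ n₀, C * n ≤ autGrowth S n := by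
  by_cases hV : VSol ρ.range
  · obtain ⟨B, hBi, hBs⟩ := hV
    set C₀ : Subgroup H := B.comap ρ.rangeRestrict with hC₀
    have hC₀i : C₀.FiniteIndex := by
      constructor
      rw [hC₀, Subgroup.index_comap_of_surjective _ ρ.rangeRestrict_surjective]
      exact hBi.index_ne_zero
    have hH'i : (C₀.map H.subtype).FiniteIndex := by
      constructor
      rw [Subgroup.index_map_subtype]
      exact mul_ne_zero hC₀i.index_ne_zero hH.index_ne_zero
    let e : C₀ ≃* C₀.map H.subtype := C₀.equivMapOfInjective H.subtype H.subtype_injective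
    let f : (C₀.map H.subtype : Subgroup G) →* B :=
      (ρ.rangeRestrict.subgroupComap B).comp e.symm.toMonoidHom
    have hf : Function.Surjective f := by
      have h1 : Function.Surjective (ρ.rangeRestrict.subgroupComap B) :=
        MonoidHom.subgroupComap_surjective_of_surjective _ _ ρ.rangeRestrict_surjective
      exact Function.Surjective.comp (g := (ρ.rangeRestrict.subgroupComap B)) h1 e.symm.surjective
    refine Pool.Agent.Work.LAG.main G S hSf hS (C₀.map H.subtype) hH'i B f hf ?_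
    rintro ⟨D, hDi, hD⟩
    refine hab ⟨D.map B.subtype, ?_, ?_⟩
    · constructor
      rw [Subgroup.index_map_subtype]
      exact mul_ne_zero hDi.index_ne_zero hBi.index_ne_zero
    · rintro _ ⟨x, hx, rfl⟩ _ ⟨y, hy, rfl⟩
      rw [← map_mul, hD x hx y hy, map_mul]
  · obtain ⟨κ, n₀, hκ, h⟩ := hTOP G S hSf hS H hH K d ρ hV
    exact superlinear_of_exp _ κ n₀ hκ h

end Pool.Agent.Work.LIN
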