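import Mathlib
import Pool.Agent.Work.MP_7f9bcc_LAG.Base

set_option autoImplicit false

/-!
# THEOREM LIN (MP_7f9bcc_al): automorphic growth and linear groups, interface

Project of helper96, table `lgr_blocks`.  Block `X` goes into the file
`Pool/Agent/Work/MP_7f9bcc_LIN/B_X.lean`: `import Pool.Agent.Work.MP_7f9bcc_LIN.Interface` (and other
files only if the docstring says so), namespace `Pool.Agent.Work.LIN`, final theorem
`theorem p_X (hA : Stmt_A) (hB : Stmt_B) .. : Stmt_X` with exactly the blocks of the column `uses` as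
hypotheses, in that order; auxiliary lemmas in a namespace `X_X`.  No straight double quotes in the
files, no double hyphen inside a word.

THEOREM.  Let `G` be a finitely generated group, `H` a subgroup of finite index, and
`ρ : H → GL_d(K)`, `K` a field of characteristic zero.  If `ρ(H)` is not virtually solvable then the
number `a(n)` of orbits of `Aut G` which meet the ball of radius `n` is at least
`exp (κ (log n) ^ 2)` for some `κ > 0` and all large `n`.

IDEA.  For all large primes `q` the group `G` (or a characteristic subgroup) has a finite quotient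
`H_q` of order at most `q ^ D` in which the elements of `q`-power order generate a group which is not
a `q`-group: reduce the matrices modulo `q`; if this fails for infinitely many `q` then by Jordan's
theorem for groups of order prime to `q` the group `ρ(G)` is virtually solvable.  `K_q`, the
intersection of the kernels of all homomorphisms `G → H_q`, is characteristic and contains all
`g ^ |H_q|`; so `T(w) = {q : w ∈ K_q}` depends only on the orbit of `w`.  For every set `Q` of `r` primes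
between `z` and `z ^ 2` there is `w` of length at most `4 ^ r` times a power of `z` such that `Q ⊆ T(w)`
and `T(w)` has at most `2 D r` elements: `w` is the left normed commutator of products `u_j` of many
random `|H_(q_j)|`-th powers.  Modulo another prime `p` the group `H_p` acts on `H_p ⧸ Z`, `Z` a relative
hypercentre, and an element of order a power of `p` moves the class of the commutator of the first `j`
factors; so the orbit of this class has at least `p` elements, and the (nearly uniformly distributed)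
`u_(j+1)` fixes it with probability at most `2 / p`.  There are fewer than `z / 2` primes in the game, so
some choice works for all of them.  Now count the possible `T(w)`.
-/

namespace Pool.Agent.Work.LIN

open Pool.Agent.Work.LAG (ball autGrowth ball_mono one_mem_ball mul_mem_ball pow_mem_ball)

/-! ### Words -/

/-- the value of the word `x` of length `t` -/
def ev {G X : Type} [Group G] (s : X → G) {t : ℕ} (x : Fin t → X) : G :=
  (List.ofFn fun i => s (x i)).prod

theorem ev_zero {G X : Type} [Group G] (s : X → G) (x : Fin 0 → X) : ev s x = 1 := by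
  simp [ev]

/-- the last letter -/
theorem ev_snoc {G X : Type} [Group G] (s : X → G) {t : ℕ} (x : Fin (t + 1) → X) :
    ev s x = ev s (fun i : Fin t => x i.castSucc) * s (x (Fin.last t)) := by
  unfold ev
  rw [List.ofFn_succ', List.concat_eq_append, List.prod_append, List.prod_singleton]

theorem map_ev {G H X : Type} [Group G] [Group H] (f : G →* H) (s : X → G) {t : ℕ}
    (x : Fin t → X) : f (ev s x) = ev (fun y => f (s y)) x := by
  unfold ev
  rw [map_list_prod, List.map_ofFn]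
  rfl

theorem ev_mem {G X : Type} [Group G] (s : X → G) {t : ℕ} (x : Fin t → X) (K : Subgroup G)
    (h : ∀ y, s y ∈ K) : ev s x ∈ K := by
  unfold ev
  refine list_prod_mem ?_
  intro g hg
  rw [List.mem_ofFn] at hg
  obtain ⟨i, rfl⟩ := hg
  exact h _

theorem ev_mem_ball {G X : Type} [Group G] (S : Set G) (m : ℕ) (s : X → G)
    (h : ∀ y, s y ∈ ball S m) {t : ℕ} (x : Fin t → X) : ev s x ∈ ball S (t * m) := by
  induction t with
  | zero =>
    rw [ev_zero]
    exact one_mem_ball _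
  | succ t ih =>
    rw [ev_snoc, Nat.succ_mul]
    exact mul_mem_ball (ih _) (h _)

/-! ### Part A: mixing -/

/-- CON (130 lines, uses nothing): contraction.
PROOF.  Write `N = |Ω|`, `P f ω = (∑ x, f (π x ω)) / |X|`, `‖f‖² = ∑ ω, f ω ^ 2`.  For each `x`,
`∑ ω, f (π x ω) ^ 2 = ‖f‖²` (`Equiv.sum_comp`).  The identity
`(1/n) ∑ x, c_x ^ 2 - ((1/n) ∑ x, c_x) ^ 2 = (1/(2 n^2)) ∑ x, ∑ y, (c_x - c_y) ^ 2`, summed over `ω`, gives
`‖f‖² - ‖P f‖² = (1/(2 |X|^2)) ∑ x, ∑ y, ∑ ω, (f (π x ω) - f (π y ω)) ^ 2`.  Let `a ∈ A`, `a ≠ 1`.  The pairs with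
`π x = 1`, `π y = a` and the pairs with `π x = a`, `π y = 1` are at least `2 (|X| / E) ^ 2` pairs, so
(*) `‖f‖² - ‖P f‖² ≥ (1 / E ^ 2) ∑ ω, (f ω - f (a ω)) ^ 2`; for `a = 1` this is clear (the left side is
`≥ 0`).  Let `δ ≥ 0` be the square root of `E ^ 2 (‖f‖² - ‖P f‖²)`: `|f ω - f (a ω)| ≤ δ` for all `a ∈ A` and `ω`.
CLAIM `|f ω - f ω'| ≤ N δ` for all `ω, ω'`.  (Let `R_i` be the set of points which are reached from `ω` by at
most `i` steps `v ↦ a v` or `v ↦ a⁻¹ v`, `a ∈ A`; `|f ω - f v| ≤ i δ` for `v ∈ R_i`.  `R_0 = {ω}`,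
`R_i ⊆ R_(i+1)`, and if `R_i = R_(i+1)` then `R_i` is invariant under `A`, `A⁻¹`, so under
`Subgroup.closure A`, so `R_i` is everything; hence `|R_i| ≥ min (i + 1, N)`, `R_N = Ω`.)  Since
`N f ω = ∑ ω', (f ω - f ω')`, `|f ω| ≤ N δ`, so `‖f‖² ≤ N ^ 3 δ ^ 2 = N ^ 3 E ^ 2 (‖f‖² - ‖P f‖²)`, which is the
assertion. -/
def Stmt_CON : Prop := ∀ (X Ω : Type) [Fintype X] [Nonempty X] [Fintype Ω] (π : X → Equiv.Perm Ω)
  (A : Set (Equiv.Perm Ω)) (E : ℕ),
  (∀ a ∈ insert 1 A, Nat.card X ≤ E * Nat.card {x : X // π x = a}) →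
  (∀ ω ω' : Ω, ∃ g ∈ Subgroup.closure A, g ω = ω') →
  ∀ f : Ω → ℝ, ∑ ω, f ω = 0 →
    (E : ℝ) ^ 2 * (Fintype.card Ω : ℝ) ^ 3 * ∑ ω, ((∑ x, f (π x ω)) / Fintype.card X) ^ 2 ≤
      ((E : ℝ) ^ 2 * (Fintype.card Ω : ℝ) ^ 3 - 1) * ∑ ω, f ω ^ 2

/-- MIX (150 lines, uses CON): mixing.
PROOF.  Fix `ω'`.  Let `c_t(ω)` be the number of `x : Fin t → X` with `ev π x ω = ω'` (the group is
`Equiv.Perm Ω`) and `f_t(ω) = c_t(ω) / |X| ^ t - 1 / N`, `N = |Ω| ≥ 1`.  By `ev_snoc` (`Fin.snocEquiv` or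
`Fin.consEquiv`-like decomposition of `Fin (t + 1) → X`), `c_(t+1)(ω) = ∑ x, c_t(π x ω)`, so
`f_(t+1)(ω) = (∑ x, f_t(π x ω)) / |X|`.  `∑ ω, f_0 ω = 0` and `∑ ω, f_0 ω ^ 2 = 1 - 1/N ≤ 1`
(`c_0(ω) = 1` if `ω = ω'`, else `0`); `∑ ω, f_(t+1) ω = ∑ ω, f_t ω = 0`.  CON: with `M = E ^ 2 N ^ 3 ≥ 1` (note that
`E ≥ 1`), `∑ f_t ^ 2 ≤ (1 - 1/M) ^ t`.  Bernoulli: `(1 - 1/M) ^ t (1 + t/M) ≤ (1 - 1/M) ^ t (1 + 1/M) ^ t ≤ 1`, and
`t / M ≥ 4 N ^ 2`, so `f_t(ω) ^ 2 ≤ 1 / (4 N ^ 2)`, `|f_t(ω)| ≤ 1 / (2 N)`: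
`1 / (2 N) ≤ c_t(ω) / |X| ^ t ≤ 3 / (2 N)`. -/
def Stmt_MIX : Prop := ∀ (X Ω : Type) [Finite X] [Nonempty X] [Finite Ω] (π : X → Equiv.Perm Ω)
  (A : Set (Equiv.Perm Ω)) (E : ℕ),
  (∀ a ∈ insert 1 A, Nat.card X ≤ E * Nat.card {x : X // π x = a}) →
  (∀ ω ω' : Ω, ∃ g ∈ Subgroup.closure A, g ω = ω') →
  ∀ t : ℕ, 4 * Nat.card Ω ^ 5 * E ^ 2 ≤ t → ∀ ω ω' : Ω,
    Nat.card X ^ t ≤ 2 * Nat.card Ω * Nat.card {x : Fin t → X // ev π x ω = ω'} ∧
      2 * Nat.card Ω * Nat.card {x : Fin t → X // ev π x ω = ω'} ≤ 3 * Nat.card X ^ t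

/-- LV1 (70 lines, uses MIX): random words in a finite quotient.
PROOF.  MIX for `X = Fin (k + 1)`, `Ω = H`, `π j = Equiv.mulLeft (φ (s j))`, `A = Set.range π`, `E = k + 1`.
Frequencies: `{x // π x = a}` is nonempty for `a = π j` and for `a = 1 = π 0`.  Transitivity:
`MulAction.toPermHom H H` maps `closure (range (φ ∘ s)) = (closure (range s)).map φ = ⊤` into
`closure A` (`MonoidHom.map_closure`), so `mulLeft h ∈ closure A` for all `h`.  `ev π x` is left
multiplication by `φ (ev s x)` (`map_ev`).  Take `ω = 1`, `ω' = h`;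
`4 |H| ^ 5 (k + 1) ^ 2 ≤ 4 B ^ 5 (k + 1) ^ 2 ≤ L`, and `|H| ≤ B`. -/
def Stmt_LV1 : Prop := ∀ (k : ℕ) (G H : Type) [Group G] [Group H] [Finite H] (s : Fin (k + 1) → G)
  (φ : G →* H), s 0 = 1 → Subgroup.closure (Set.range s) = ⊤ → Function.Surjective φ →
  ∀ B L : ℕ, Nat.card H ≤ B → 4 * B ^ 5 * (k + 1) ^ 2 ≤ L → ∀ h : H,
    (k + 1) ^ L ≤ 2 * B * Nat.card {x : Fin L → Fin (k + 1) // φ (ev s x) = h}

/-- the subgroup generated by the `e`-th powers -/
def pw (H : Type) [Group H] (e : ℕ) : Subgroup H := Subgroup.closure {x : H | ∃ h : H, x = h ^ e}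

/-- ORB (70 lines, uses nothing): orbits of elements of `p`-power order.
PROOF.  `e` is prime to `p ^ m`, so there is `a : ℕ` with `e * a ≡ 1` modulo `p ^ m`, and
`v = (v ^ a) ^ e ∈ pw H e`.  The group `zpowers v` is a `p`-group; it acts on `Ω` through `α`
(`MulAction.compHom`), the orbit of `ω` has `p`-power cardinality (`IsPGroup.card_orbit`) and at least two
elements, so at least `p`, and it is contained in the set of the assertion (finite, since `H` is). -/
def Stmt_ORB : Prop := ∀ (H Ω : Type) [Group H] [Finite H] (α : H →* Equiv.Perm Ω) (e p m : ℕ)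
  (v : H) (ω : Ω), p.Prime → Nat.Coprime p e → v ^ p ^ m = 1 → α v ω ≠ ω →
    v ∈ pw H e ∧ p ≤ Set.ncard {ω' : Ω | ∃ h ∈ pw H e, α h ω = ω'}

/-- LV2 (130 lines, uses MIX LV1 ORB): random products of `e`-th powers.
PROOF.  `M = pw H e` acts on `Ω` (`MulAction.compHom Ω (α.comp M.subtype)`, `Equiv.Perm Ω` acts on `Ω`); let
`Ω'` be the orbit of `ω` and `β = MulAction.toPermHom M Ω' : M →* Equiv.Perm Ω'`.  `X = Fin L → Fin (k + 1)`,
`m y = ⟨φ (ev s y) ^ e, _⟩ : M`, `π y = β (m y)`, `A = {β ⟨h ^ e, _⟩ | h : H}`, `E = 2 B`.  Frequencies: for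
`a = β ⟨h ^ e, _⟩` the set `{y // π y = a}` contains `{y // φ (ev s y) = h}`, so LV1 gives
`|X| = (k + 1) ^ L ≤ 2 B |{y // π y = a}|`; for `a = 1` take `h = 1`.  Transitivity: the elements
`⟨h ^ e, _⟩` generate `M` (`Subgroup.closure_closure_coe_preimage` or induction), `M` is transitive
on the orbit.  `N = |Ω'| ≤ |M| ≤ B`, so `4 N ^ 5 E ^ 2 ≤ 16 B ^ 7 ≤ t`.  By `map_ev` (twice)
`(ev π x ⟨ω, _⟩ : Ω) = α (φ (ev (fun y => ev s y ^ e) x)) ω`.  MIX: `2 N c ≤ 3 |X| ^ t` for the number `c` of the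
words `x` which fix `ω`; ORB: `p ≤ N`. -/
def Stmt_LV2 : Prop := ∀ (k : ℕ) (G H Ω : Type) [Group G] [Group H] [Finite H]
  (s : Fin (k + 1) → G) (φ : G →* H) (α : H →* Equiv.Perm Ω),
  s 0 = 1 → Subgroup.closure (Set.range s) = ⊤ → Function.Surjective φ →
  ∀ (B L t e p m : ℕ) (v : H) (ω : Ω), Nat.card H ≤ B → 4 * B ^ 5 * (k + 1) ^ 2 ≤ L →
    16 * B ^ 7 ≤ t → p.Prime → Nat.Coprime p e → v ^ p ^ m = 1 → α v ω ≠ ω →
    2 * p * Nat.card {x : Fin t → (Fin L → Fin (k + 1)) //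
      α (φ (ev (fun y => ev s y ^ e) x)) ω = ω} ≤ 3 * ((k + 1) ^ L) ^ t

/-- AVO (110 lines, uses LV2): one element for all `i`.
PROOF.  `L = 4 B ^ 5 (k + 1) ^ 2`, `t = 16 B ^ 7`, `W = Fin t → (Fin L → Fin (k + 1))`,
`|W| = ((k + 1) ^ L) ^ t > 0`, `u x = ev (fun y => ev s y ^ e) x` for `x ∈ W`.  For each `i` LV2 gives
`2 z |bad_i| ≤ 2 p_i |bad_i| ≤ 3 |W|`, `bad_i = {x | α_i (φ_i (u x)) ω_i = ω_i}`.  So
`2 z |⋃ bad_i| ≤ 3 |I| |W|` and `2 |I| ≤ z`, so `4 z |⋃ bad_i| ≤ 3 z |W| < 4 z |W|`: some `x` is in no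
`bad_i`.  `u x ∈ ball (t * (e * L))` by `ev_mem_ball` (twice), `pow_mem_ball` (each `s j` is in
`ball (range s) 1`), and `t * (e * L) = 64 (k + 1) ^ 2 B ^ 12 e`; `u x ∈ pw G e` by `ev_mem`. -/
def Stmt_AVO : Prop := ∀ (k : ℕ) (G : Type) [Group G] (s : Fin (k + 1) → G), s 0 = 1 →
  Subgroup.closure (Set.range s) = ⊤ →
  ∀ (I : Type) [Finite I] (H Ω : I → Type) [∀ i, Group (H i)] [∀ i, Finite (H i)]
    (φ : ∀ i, G →* H i) (α : ∀ i, H i →* Equiv.Perm (Ω i)) (ω : ∀ i, Ω i) (p : I → ℕ) (B e z : ℕ),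
    (∀ i, Function.Surjective (φ i)) → (∀ i, Nat.card (H i) ≤ B) →
    (∀ i, (p i).Prime ∧ z ≤ p i ∧ Nat.Coprime (p i) e ∧
      ∃ (v : H i) (m : ℕ), v ^ p i ^ m = 1 ∧ α i v (ω i) ≠ ω i) → 1 ≤ z → 2 * Nat.card I ≤ z →
    ∃ u : G, u ∈ ball (Set.range s) (64 * (k + 1) ^ 2 * B ^ 12 * e) ∧ u ∈ pw G e ∧
      ∀ i, α i (φ i u) (ω i) ≠ ω i

/-! ### Part B: commutators -/

/-- the elements of `p`-power order -/
def pel (p : ℕ) (H : Type) [Group H] : Set H := {v | ∃ m : ℕ, v ^ p ^ m = 1}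

/-- HYP (120 lines, uses nothing): the relative hypercentre.
PROOF.  `P = closure (pel p H)` is normal (`pel p H` is invariant under conjugation).  Let `Y` be the last
term of the upper central series of `P` (it becomes constant since `P` is finite), as a subgroup of
`H`: `Y ≤ P`, `Y` is normal in `H` (`Y` is characteristic in `P`), and (*) `x ∈ P`, `x v x⁻¹ v⁻¹ ∈ Y` for all
`v ∈ P` implies `x ∈ Y`.  `Z = {w | ∀ v ∈ P, w v w⁻¹ v⁻¹ ∈ Y}`, a normal subgroup of `H` (the preimage of the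
centralizer of `P Y / Y` in `H ⧸ Y`); `Z ⊓ P = Y` by (*).  If `w v w⁻¹ v⁻¹ ∈ Z` for all `v ∈ pel p H` then these
elements are in `Z ⊓ P = Y` (`P` is normal), so `w` commutes modulo `Y` with the generators `v` of `P`,
hence with `P`, and `w ∈ Z`.  If `pel p H ⊆ Z` then `P ≤ Z ⊓ P = Y`, so `P` is nilpotent; in a finite
nilpotent group the Sylow `p`-subgroup is normal (`Group.isNilpotent_of_finite_tfae`), so it contains
all elements of `p`-power order, which generate `P`: `P` is a `p`-group, a contradiction.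
(Any other proof is welcome: for instance take the ascending chain `Z_0 = ⊥`,
`Z_(i+1) = {w | ∀ v ∈ pel p H, w v w⁻¹ v⁻¹ ∈ Z_i}` of normal subgroups.) -/
def Stmt_HYP : Prop := ∀ (H : Type) [Group H] [Finite H] (p : ℕ), p.Prime →
  ¬ IsPGroup p (Subgroup.closure (pel p H)) →
  ∃ Z : Subgroup H, Z.Normal ∧ (∃ v ∈ pel p H, v ∉ Z) ∧
    ∀ w : H, (∀ v ∈ pel p H, w * v * w⁻¹ * v⁻¹ ∈ Z) → w ∈ Z

/-- SEQ (150 lines, uses AVO HYP): commutators.
PROOF.  Take `Z_i ≤ H i` from HYP.  We prove by induction on `es` the assertion with `φ_i w ∉ Z_i` instead of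
`φ_i w ≠ 1`.  Write `b = 64 (k + 1) ^ 2 B ^ 13`.  `es = [e]`: AVO with `Ω_i = H_i ⧸ Z_i`, `α_i` = left
multiplication (`(MulAction.toPermHom (H_i ⧸ Z_i) _).comp (QuotientGroup.mk' Z_i)`), `ω_i = 1`; `v ∉ Z_i`
moves `1`; `u ∈ ball b`; `α_i (φ_i u) 1 ≠ 1` means `φ_i u ∉ Z_i`; `u ∈ pw G e ≤ K`.  Step, `w` for `es`,
new `e`: AVO with the same `Ω_i` and `α_i` = conjugation (`α_i h (x Z_i) = (h x h⁻¹) Z_i`: `MulAut.conj` of
`QuotientGroup.mk' Z_i h`, `MulAut →* Equiv.Perm` is `MulAut.toPerm`), `ω_i = (φ_i w)⁻¹ Z_i`.  Since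
`φ_i w ∉ Z_i`, HYP gives `v ∈ pel` with `w v w⁻¹ v⁻¹ ∉ Z_i`, that is `v (w⁻¹) v⁻¹ Z_i ≠ w⁻¹ Z_i`.  With `u` from
AVO put `w' = w * u * w⁻¹ * u⁻¹`: `φ_i w' ∉ Z_i`; `w' ∈ ball (2 * 4 ^ n b + 2 b) ⊆ ball (4 ^ (n+1) b)`
(`n ≥ 1`; balls are closed under inverses); `w' ∈ K` for `K` normal if `w ∈ K` or `u ∈ K`. -/
def Stmt_SEQ : Prop := ∀ (k : ℕ) (G : Type) [Group G] (s : Fin (k + 1) → G), s 0 = 1 →
  Subgroup.closure (Set.range s) = ⊤ →
  ∀ (I : Type) [Finite I] (H : I → Type) [∀ i, Group (H i)] [∀ i, Finite (H i)]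
    (φ : ∀ i, G →* H i) (p : I → ℕ) (B z : ℕ),
    (∀ i, Function.Surjective (φ i)) → (∀ i, Nat.card (H i) ≤ B) →
    (∀ i, (p i).Prime ∧ z ≤ p i ∧ ¬ IsPGroup (p i) (Subgroup.closure (pel (p i) (H i)))) →
    1 ≤ z → 2 * Nat.card I ≤ z →
    ∀ es : List ℕ, es ≠ [] → (∀ e ∈ es, e ≤ B ∧ ∀ i, Nat.Coprime (p i) e) →
    ∃ w : G, w ∈ ball (Set.range s) (4 ^ es.length * (64 * (k + 1) ^ 2 * B ^ 13)) ∧
      (∀ e ∈ es, ∀ K : Subgroup G, K.Normal → (∀ g : G, g ^ e ∈ K) → w ∈ K) ∧ ∀ i, φ i w ≠ 1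

/-! ### Part C: counting -/

/-- `G` has a finite quotient of order at most `q ^ D` in which the elements of `q`-power order generate a
group which is not a `q`-group -/
def Rq (G : Type) [Group G] (D q : ℕ) : Prop :=
  ∃ (H : Type) (_ : Group H) (_ : Finite H) (f : G →* H), Function.Surjective f ∧
    Nat.card H ≤ q ^ D ∧ ¬ IsPGroup q (Subgroup.closure (pel q H))

/-- `Rq` for all large primes -/
def Rich (G : Type) [Group G] : Prop := ∃ D q₀ : ℕ, ∀ q, q₀ ≤ q → q.Prime → Rq G D q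

/-- CNU (180 lines, uses SEQ): counting orbits.
PROOF.  For `q ∈ P` let `H_q`, `φ_q` be as in `Rq`, `e_q = |H_q| ≤ q ^ D ≤ B := z ^ (2 D)`,
`K_q = {g | ∀ f : G →* H_q, f g = 1}`: normal, invariant under `MulAut G` (`f ∘ α` is again a homomorphism), and
`g ^ e_q ∈ K_q`.  For `q ∈ P` at most `2 D` of the `p ∈ P` divide `e_q`: the product of these `m` distinct primes, each `≥ z + 1`, divides
`e_q ≥ 1`, so `(z + 1) ^ m ≤ z ^ (2 D)`, `m ≤ 2 D`.  For `Q ⊆ P` with `r` elements let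
`P' = {p ∈ P | ∀ q ∈ Q, ¬ p ∣ e_q}`, so `|P \ P'| ≤ 2 D r`.  SEQ for `I = P'` (a subtype), `B`, `z`,
`es` = list of the `e_q`, `q ∈ Q` gives `w_Q` in the ball of the assertion, with `w_Q ∈ K_q` for `q ∈ Q` and
`w_Q ∉ K_p` for `p ∈ P'` (`φ_p w_Q ≠ 1`).  So `T(w) = {p ∈ P | w ∈ K_p}` satisfies `Q ⊆ T(w_Q) ⊆ P \ P'`,
`|T(w_Q)| ≤ 2 D r`.  `T` is constant on orbits of `MulAut G`.  The map `Q ↦ orbit of w_Q` from
`P.powersetCard r` to the orbits meeting the ball has fibres with at most `2 ^ (2 D r) = 4 ^ (D r)` elements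
(all `Q` in a fibre are subsets of the same set `T`); `Finset.card_le_mul_card_image`. -/
def Stmt_CNU : Prop := ∀ (k : ℕ) (G : Type) [Group G] (s : Fin (k + 1) → G), s 0 = 1 →
  Subgroup.closure (Set.range s) = ⊤ →
  ∀ (D z r : ℕ) (P : Finset ℕ), 1 ≤ z → 1 ≤ r → 2 * P.card ≤ z →
    (∀ q ∈ P, q.Prime ∧ z < q ∧ q ≤ z ^ 2 ∧ Rq G D q) →
    Nat.choose P.card r ≤
      4 ^ (D * r) * autGrowth (Set.range s) (4 ^ r * (64 * (k + 1) ^ 2 * (z ^ (2 * D)) ^ 13))

/-- PRM (40 lines, uses nothing): there are at least `z` primes between `z` and `z ^ 2`, `z` large.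
PROOF.  Any Chebyshev bound: the number of primes up to `x` is at least `c x / log x`
(look for a lower bound of `Nat.primeCounting` in Mathlib or in the library `Pool/Agent/Work`; or from
`Nat.centralBinom`: `4 ^ n ≤ 2 n * centralBinom n` and `centralBinom n ≤ (2 n) ^ π(2 n)`). -/
def Stmt_PRM : Prop := ∃ z₀ : ℕ, ∀ z, z₀ ≤ z →
  z ≤ ((Finset.range (z ^ 2 + 1)).filter (fun q => q.Prime ∧ z < q)).card

/-- NUM (150 lines, uses nothing): arithmetic.
PROOF.  Let `E = 26 D + 2`, `r = Nat.log 4 z`, so `4 ^ r ≤ z < 4 ^ (r + 1)`.  For `z ≥ max (c, 4, z₀)`: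
`4 ^ r * (c * (z ^ (2 D)) ^ 13) ≤ z * z * z ^ (26 D) = z ^ E`, so `choose (z/2) r ≤ 4 ^ (D r) a (z ^ E)`.
`Nat.pow_le_choose` (`(n + 1 - r) ^ r ≤ r! * choose n r`) and `r! ≤ r ^ r` give
`((z/2 + 1 - r) / (r 4 ^ D)) ^ r ≤ a (z ^ E)` in `ℝ`, and `(z/2 + 1 - r) / (r 4 ^ D) ≥ z ^ (1/2)` for large `z`
(`r ≤ log z`).  So `a (z ^ E) ≥ z ^ (r / 2) = exp (r log z / 2) ≥ exp ((log z) ^ 2 / 8)`, since
`r ≥ log z / log 4 - 1 ≥ log z / 4` for large `z`.  For `n` large let `z` be maximal with `z ^ E ≤ n`; then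
`n < (z + 1) ^ E ≤ z ^ (2 E)`, `log n ≤ 2 E log z`, and
`a n ≥ a (z ^ E) ≥ exp ((log z) ^ 2 / 8) ≥ exp ((log n) ^ 2 / (32 E ^ 2))`. -/
def Stmt_NUM : Prop := ∀ (a : ℕ → ℕ) (c D z₀ : ℕ), Monotone a →
  (∀ z r : ℕ, z₀ ≤ z → 1 ≤ r →
    Nat.choose (z / 2) r ≤ 4 ^ (D * r) * a (4 ^ r * (c * (z ^ (2 * D)) ^ 13))) →
  ∃ (κ : ℝ) (n₀ : ℕ), 0 < κ ∧ ∀ n, n₀ ≤ n → Real.exp (κ * Real.log n ^ 2) ≤ a n

/-- GRW (80 lines, uses CNU PRM NUM): growth of rich groups.
PROOF.  `S` finite: there are `k` and `s : Fin (k + 1) → G` with `s 0 = 1`, `range s = insert 1 S`; its closure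
is `⊤`, `ball (insert 1 S) n ⊆ ball S n` (remove the letters `1`), so
`autGrowth (range s) n ≤ autGrowth S n`.  `Rich`: `D`, `q₀`; for `z ≥ max (z₀, q₀, 1)` choose by PRM a subset `P` with
exactly `z / 2` elements of the primes between `z` and `z ^ 2`, `2 |P| ≤ z`.  CNU gives the hypothesis of
NUM for `a = autGrowth S` (monotone, see `autGrowth_mono` in `MP_7f9bcc_LAG/FIN.lean`) and
`c = 64 (k + 1) ^ 2`. -/
def Stmt_GRW : Prop := ∀ (G : Type) [Group G] (S : Set G), S.Finite → Subgroup.closure S = ⊤ →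
  Rich G → ∃ (κ : ℝ) (n₀ : ℕ), 0 < κ ∧ ∀ n, n₀ ≤ n → Real.exp (κ * Real.log n ^ 2) ≤ autGrowth S n

/-! ### Part D: linear groups -/

/-- LFT (80 lines, uses nothing): lifting a representation to a subring.
PROOF.  `Matrix.GeneralLinearGroup.map j` is injective; its range contains `ρ g` for `g ∈ S` (the matrices over
`R` with `j`-images `ρ g` and `(ρ g)⁻¹` are inverse to each other, by injectivity), so it contains `ρ(G)`;
compose the codomain restriction of `ρ` with the inverse of the isomorphism onto the range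
(`MonoidHom.ofInjective`). -/
def Stmt_LFT : Prop := ∀ (G R R' : Type) [Group G] [CommRing R] [CommRing R'] (j : R →+* R')
  (d : ℕ) (ρ : G →* GL (Fin d) R') (S : Set G), Function.Injective j → Subgroup.closure S = ⊤ →
  (∀ g ∈ S, ∀ a b, (ρ g : Matrix (Fin d) (Fin d) R') a b ∈ j.range ∧
    (((ρ g)⁻¹ : GL (Fin d) R') : Matrix (Fin d) (Fin d) R') a b ∈ j.range) →
  ∃ σ : G →* GL (Fin d) R, ∀ g, Matrix.GeneralLinearGroup.map j (σ g) = ρ g

/-- RSC (70 lines, uses nothing): restriction of scalars.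
PROOF.  `M = finrank F K`, a basis gives an injective ring homomorphism `K → Matrix (Fin M) (Fin M) F`
(`Algebra.leftMulMatrix`, `Algebra.leftMulMatrix_injective`), hence an injective ring homomorphism
`Matrix (Fin d) (Fin d) K → Matrix (Fin d) (Fin d) (Matrix (Fin M) (Fin M) F) ≃
Matrix (Fin d × Fin M) (Fin d × Fin M) F` (`Matrix.compRingEquiv` or `Matrix.comp`), reindexed by
`finProdFinEquiv`; `Units.map`.  (Or: `K`-linear automorphisms of `K ^ d` are `F`-linear.) -/
def Stmt_RSC : Prop := ∀ (F K : Type) [Field F] [Field K] [Algebra F K] [FiniteDimensional F K]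
  (d : ℕ), ∃ (D : ℕ) (θ : GL (Fin d) K →* GL (Fin D) F), Function.Injective θ

/-- SPF (180 lines, uses nothing): finitely generated fields.
PROOF.  `L = IntermediateField.adjoin ℚ E`.  `E` contains a transcendence basis `x_1, .., x_t` of `L` over `ℚ`
(`L` is algebraic over `adjoin E`; `exists_isTranscendenceBasis_subset` or similar; `t` finite since
`E` is).  `F = IntermediateField.adjoin ℚ {x_1, .., x_t}`.  The `x_i` are algebraically independent over `ℤ`,
so `MvPolynomial.aeval x : MvPolynomial (Fin t) ℤ → F` is injective and `F` is a field of fractions of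
the image: `F` is the field generated by the ring `ℤ[x_1, .., x_t]` (every element of
`IntermediateField.adjoin ℚ s` is a quotient of elements of `Algebra.adjoin ℚ s`, and a common
denominator of the rational coefficients can be moved to the denominator).  `K₁ = L` (as an extension of
`F`) is algebraic over `F` and generated by the finite set `E`, so it is finite-dimensional; `j` is the
inclusion.  (`Type` instances: give `F` and `K₁` as coerced intermediate fields; `Algebra F K₁` by the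
inclusion `F ≤ L`, e.g. `IntermediateField.inclusion`.) -/
def Stmt_SPF : Prop := ∀ (K : Type) [Field K] [CharZero K] (E : Set K), E.Finite →
  ∃ (t : ℕ) (F : Type) (_ : Field F) (_ : Algebra (MvPolynomial (Fin t) ℤ) F)
    (_ : IsFractionRing (MvPolynomial (Fin t) ℤ) F) (K₁ : Type) (_ : Field K₁) (_ : Algebra F K₁)
    (_ : FiniteDimensional F K₁) (j : K₁ →+* K), ∀ x ∈ E, x ∈ j.range

/-- SPA (60 lines, uses LFT RSC SPF): reduction to rational function fields over `ℚ`.
PROOF.  `S` a finite generating set, `E` the set of the entries of `ρ g`, `(ρ g)⁻¹`, `g ∈ S`.  SPF, LFT for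
`j : K₁ → K` (injective), RSC. -/
def Stmt_SPA : Prop := ∀ (G : Type) [Group G] [Group.FG G] (K : Type) [Field K] [CharZero K]
  (d : ℕ) (ρ : G →* GL (Fin d) K),
  ∃ (t D : ℕ) (F : Type) (_ : Field F) (_ : Algebra (MvPolynomial (Fin t) ℤ) F)
    (_ : IsFractionRing (MvPolynomial (Fin t) ℤ) F) (σ : G →* GL (Fin D) F),
    ∀ g, σ g = 1 ↔ ρ g = 1

/-- SPB (150 lines, uses LFT): specialisation and reduction modulo large primes.
PROOF.  `S` a finite generating set.  There is `h ≠ 0` in `R₀ = MvPolynomial (Fin t) ℤ` such that all entries of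
`σ x`, `(σ x)⁻¹`, `x ∈ S`, are in the range of `j : Localization.Away h → F`
(`IsLocalization.exist_integer_multiples_of_finset`; `j = IsLocalization.Away.lift`, injective because
`algebraMap R₀ F` is).  LFT: `σ' : G →* GL_D(Localization.Away h)` with `map j (σ' g) = σ g ≠ 1`.  So some entry of
`σ' g - 1` is not zero; it is `a / h ^ m` with `a ≠ 0` in `R₀`.  There is an integer point `ξ` with
`(a h)(ξ) ≠ 0` (`MvPolynomial.funext` over the infinite domain `ℤ`).  Let `q₀ = |(a h)(ξ)| + 1` and `q ≥ q₀` a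
prime: `ε : R₀ → ZMod q`, the evaluation at `ξ` modulo `q`, maps `h` to a unit and `a` to a nonzero element, so
it extends to `ε' : Localization.Away h → ZMod q`, and `ε'` does not kill the entry `a / h ^ m`.
`φ = map ε' ∘ σ'`. -/
def Stmt_SPB : Prop := ∀ (G : Type) [Group G] [Group.FG G] (t D : ℕ) (F : Type) [Field F]
  [Algebra (MvPolynomial (Fin t) ℤ) F] [IsFractionRing (MvPolynomial (Fin t) ℤ) F]
  (σ : G →* GL (Fin D) F) (g : G), σ g ≠ 1 →
  ∃ q₀ : ℕ, ∀ q, q₀ ≤ q → q.Prime → ∃ φ : G →* GL (Fin D) (ZMod q), φ g ≠ 1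

/-- UNI (130 lines, uses nothing): `p`-groups of matrices in characteristic `p`.
PROOF.  Let `V = Fin D → ZMod p`, `I` the span in `Matrix (Fin D) (Fin D) (ZMod p)` of the products
`x (u - 1)`, `x` in the algebra `R` spanned by `U`, `u ∈ U`: the augmentation ideal.  `I ^ D = 0`: if `W ≠ 0` is a
`U`-invariant subspace of `V` then `I W ≠ W`, because the `p`-group `U` has a fixed vector `f ≠ 0` in the
dual of `W` (`IsPGroup.card_modEq_card_fixedPoints`), and `f (u w - w) = 0`; so the chain `V ⊇ I V ⊇ I² V ⊇ ..`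
is strictly decreasing until it reaches `0`, `I ^ D V = 0`.  `U_k = {u ∈ U | u - 1 ∈ I ^ k}` is a subgroup,
`U_1 = U`, `U_D = 1`, and the commutator of `u ∈ U_k`, `v ∈ U_l` is in `U_(k+l)`:
`u v - v u = (u - 1)(v - 1) - (v - 1)(u - 1)` and `u v u⁻¹ v⁻¹ - 1 = (u v - v u) u⁻¹ v⁻¹`.  So the `k`-th derived
subgroup is in `U_(k+1)`.  (OR: `U` is nilpotent of class less than `D`; OR by induction on `D` with a
fixed vector: `U` maps to the automorphisms of `V / (fixed line)`, the kernel is abelian.  Every other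
proof is welcome.) -/
def Stmt_UNI : Prop := ∀ (D p : ℕ) [Fact p.Prime] (U : Subgroup (GL (Fin D) (ZMod p))),
  IsPGroup p U → derivedSeries U D = ⊥

/-- JCP (150 lines, uses UNI): Jordan's theorem for groups with a normal Sylow `p`-subgroup.
Import also `Pool.Agent.Work.MP_936a99_bb.JORC`, `.LIFTP`, `.EMB` (theorems `jorc`, `liftp`, `emb`).
PROOF.  `J` from `jorc` for `ι = Fin D`.  `U = closure (pel p H)` is a normal `p`-subgroup of the finite group
`H` containing all elements of `p`-power order, so all Sylow `p`-subgroups: its index is prime to `p`.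
Schur and Zassenhaus (`Subgroup.exists_right_complement'_of_coprime`): `L ≤ H` with `L ⊓ U = ⊥`,
`L U = H`, `|L| = [H : U]`.  The inclusion `L → GL_D(F_p)` is injective, `liftp` gives `L → GL_D(ℤ_p)`,
`emb` gives `L → GL_D(ℂ)`, injective (see `map_inj` in `MP_936a99_bb/NOP.lean`), and `jorc` an abelian
normal subgroup `N` of `L` of index at most `J`.  `A = U ⊔ N` (`N` as a subgroup of `H`).  Every element
of `H` is `l u`, so `L ⧸ N → H ⧸ A` is surjective and `A.index ≤ J`.  The commutator of two elements of `A`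
is in `U` (modulo `U` they are in the image of `N`), so the derived subgroup of `A` is contained in
(the copy of) `U`, and `derivedSeries A (D + 1) = ⊥` by UNI (for the image of `U` in `GL_D(F_p)`). -/
def Stmt_JCP : Prop := ∀ D : ℕ, ∃ J : ℕ, ∀ (p : ℕ) [Fact p.Prime]
  (H : Subgroup (GL (Fin D) (ZMod p))), IsPGroup p (Subgroup.closure (pel p H)) →
  ∃ A : Subgroup H, A.index ≤ J ∧ derivedSeries A (D + 1) = ⊥

/-- FIX (40 lines, uses nothing): the subgroups of bounded index.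
PROOF.  For a subgroup `A` of index `m ≤ J` the action on `G ⧸ A` gives a homomorphism to
`Equiv.Perm (Fin J)` whose kernel is contained in `A`; there are finitely many homomorphisms
(`finite_hom` in `MP_7f9bcc_LAG/CORE.lean`, see `core_finiteIndex` there), the intersection of all kernels
has finite index. -/
def Stmt_FIX : Prop := ∀ (G : Type) [Group G] [Group.FG G] (J : ℕ),
  ∃ N : Subgroup G, N.FiniteIndex ∧ ∀ A : Subgroup G, A.index ≠ 0 → A.index ≤ J → N ≤ A

/-- virtually solvable -/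
def VSol (Q : Type) [Group Q] : Prop := ∃ B : Subgroup Q, B.FiniteIndex ∧ Group.IsSolvable B

/-- RCH (130 lines, uses SPA SPB JCP FIX): linear groups which are not virtually solvable are rich.
PROOF.  SPA: `σ : G →* GL_D(F)` with the same kernel as `ρ`.  `J` from JCP, `N` from FIX.  If `Rich G` fails then for
every `q₀` there is a prime `q ≥ q₀` without `Rq G (D ^ 2) q`.  For such `q` and all
`φ : G →* GL_D(ZMod q)`: the range `H` of `φ` is a quotient of `G` of order at most `q ^ (D ^ 2)`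
(`GL_D(ZMod q)` embeds in the matrices), so `IsPGroup q (closure (pel q H))`; JCP gives `A ≤ H` of index
at most `J` (and not `0`, `H` is finite); the preimage of `A` in `G` has the same index, so it contains
`N`, and `φ (N) ≤ A`.  So `φ` is trivial on `Y`, the image in `G` of `derivedSeries N (D + 1)`
(`map_derivedSeries_le_derivedSeries`).  Let `g ∈ Y`: if `σ g ≠ 1` then SPB gives `q₀`, and a prime `q ≥ q₀` as
above gives a contradiction.  So `ρ g = 1` for all `g ∈ Y`: `B = ρ (N)` satisfies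
`derivedSeries B (D + 1) = ⊥` (`map_derivedSeries_eq` for `N → B` surjective), it is solvable and of finite
index in `ρ(G)`: `VSol ρ.range`. -/
def Stmt_RCH : Prop := ∀ (G : Type) [Group G] [Group.FG G] (K : Type) [Field K] [CharZero K]
  (d : ℕ) (ρ : G →* GL (Fin d) K), ¬ VSol ρ.range → Rich G

/-- TRF (60 lines, uses nothing): characteristic subgroups of finite index.
PROOF.  `N` is finitely generated; `T` a finite generating set, `L` such that `T ⊆ ball S L` (as elements of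
`G`; `exists_mem_ball`).  Then `ball T n` is mapped into `ball S (L n)`.  Two elements of `N` in the same
orbit of `MulAut G` are in the same orbit of `MulAut N` (`α` restricts to `N`, `Subgroup.Characteristic`;
`MulEquiv.subgroupMap` or `MulAut` restricted), so the orbits of `MulAut N` which meet `ball T n` inject
into the orbits of `MulAut G` which meet `ball S (L n)`. -/
def Stmt_TRF : Prop := ∀ (G : Type) [Group G] (S : Set G), S.Finite → Subgroup.closure S = ⊤ →
  ∀ N : Subgroup G, N.Characteristic → N.FiniteIndex →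
  ∃ (T : Set N) (L : ℕ), T.Finite ∧ Subgroup.closure T = ⊤ ∧
    ∀ n, autGrowth T n ≤ autGrowth S (L * n)

/-- TOP (120 lines, uses GRW RCH TRF): the theorem.
PROOF.  `stmt_CORE` (`MP_7f9bcc_LAG/CORE.lean`): `N ≤ H` characteristic of finite index in `G`.  The image of
`N` in `ρ(H)` has finite index, so the range of `ρ' : N → GL_d(K)` is not virtually solvable (a solvable
subgroup of finite index in `ρ'(N)` is one in `ρ(H)`).  RCH, TRF, GRW for `N` and `T`: `κ`, `n₀`.  For `n` large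
let `m = n / (L + 1)`, `m ^ 2 ≥ n`; `a(n) ≥ a(L m) ≥ exp (κ (log m) ^ 2) ≥ exp ((κ / 4) (log n) ^ 2)`. -/
def Stmt_TOP : Prop := ∀ (G : Type) [Group G] (S : Set G), S.Finite → Subgroup.closure S = ⊤ →
  ∀ H : Subgroup G, H.FiniteIndex → ∀ (K : Type) [Field K] [CharZero K] (d : ℕ)
    (ρ : H →* GL (Fin d) K), ¬ VSol ρ.range →
    ∃ (κ : ℝ) (n₀ : ℕ), 0 < κ ∧ ∀ n, n₀ ≤ n → Real.exp (κ * Real.log n ^ 2) ≤ autGrowth S n

end Pool.Agent.Work.LIN
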