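import Pool.Agent.Work.MP_7f9bcc_LIN.Fin
import Pool.Agent.Work.MP_7f9bcc_LIN.B_CON
import Pool.Agent.Work.MP_7f9bcc_LIN.B_MIX
import Pool.Agent.Work.MP_7f9bcc_LIN.B_LV1
import Pool.Agent.Work.MP_7f9bcc_LIN.B_ORB
import Pool.Agent.Work.MP_7f9bcc_LIN.B_LV2
import Pool.Agent.Work.MP_7f9bcc_LIN.B_AVO
import Pool.Agent.Work.MP_7f9bcc_LIN.B_HYP
import Pool.Agent.Work.MP_7f9bcc_LIN.B_SEQ
import Pool.Agent.Work.MP_7f9bcc_LIN.B_CNU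
import Pool.Agent.Work.MP_7f9bcc_LIN.B_PRM
import Pool.Agent.Work.MP_7f9bcc_LIN.B_NUM
import Pool.Agent.Work.MP_7f9bcc_LIN.B_GRW
import Pool.Agent.Work.MP_7f9bcc_LIN.B_LFT
import Pool.Agent.Work.MP_7f9bcc_LIN.B_RSC
import Pool.Agent.Work.MP_7f9bcc_LIN.B_SPF
import Pool.Agent.Work.MP_7f9bcc_LIN.B_SPA
import Pool.Agent.Work.MP_7f9bcc_LIN.B_SPB
import Pool.Agent.Work.MP_7f9bcc_LIN.B_UNI
import Pool.Agent.Work.MP_7f9bcc_LIN.B_JCP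
import Pool.Agent.Work.MP_7f9bcc_LIN.B_FIX
import Pool.Agent.Work.MP_7f9bcc_LIN.B_RCH
import Pool.Agent.Work.MP_7f9bcc_LIN.B_TRF
import Pool.Agent.Work.MP_7f9bcc_LIN.B_TOP

set_option autoImplicit false

/-! # THEOREM LIN (MP_7f9bcc_al): main file -/

namespace Pool.Agent.Work.LIN

theorem t_MIX : Stmt_MIX := p_MIX p_CON

theorem t_LV1 : Stmt_LV1 := p_LV1 t_MIX

theorem t_LV2 : Stmt_LV2 := p_LV2 t_MIX t_LV1 p_ORB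

theorem t_CNU : Stmt_CNU := p_CNU (p_SEQ (p_AVO t_LV2) p_HYP)

theorem t_GRW : Stmt_GRW := p_GRW t_CNU p_PRM p_NUM

theorem t_RCH : Stmt_RCH :=
  p_RCH (p_SPA p_LFT p_RSC p_SPF) (p_SPB p_LFT) (p_JCP p_UNI) p_FIX

theorem t_TOP : Stmt_TOP := p_TOP t_GRW t_RCH p_TRF

end Pool.Agent.Work.LIN
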